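import Pool.Agent.H349R3.General

/-! The general linear centre: fibres of length eight exist and are not smoothable. -/

set_option maxHeartbeats 4000000
set_option linter.unusedSimpArgs false

namespace Pool.Agent.H349R3

open Matrix Module MvPolynomial

/-- rows of the special matrix -/
noncomputable def row (s : ℕ → ℂ) : ℕ → Fin 4 → ℂ
  | 0 => ![1, 0, 0, 1]
  | 1 => ![0, s 1, s 1, 0]
  | 2 => ![0, s 2, s 2, 0]
  | 3 => ![0, s 3, s 3, 0]
  | 4 => ![0, s 4, s 4, 0]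
  | 5 => ![0, s 5, s 5, 0]
  | 6 => ![0, s 6, s 6, 0]
  | 7 => ![0, s 7, s 7, 0]
  | 8 => ![1, 0, 0, 0]
  | 9 => ![0, 1, 0, 0]
  | 10 => ![1, 1, 0, 0]
  | 11 => ![0, 0, 1, 0]
  | 12 => ![0, 0, 0, 1]
  | 13 => ![0, 0, 1, 1]
  | _ => 0

theorem exists_M0 (N : ℕ) (hN : 13 ≤ N) : ∃ M : Matrix (Fin (N + 1)) (Fin 4) ℂ, Sf M = T0 := by
  have hsq : ∀ c : ℂ, ∃ s : ℂ, s * s = c := by
    intro c
    obtain ⟨s, hs⟩ := IsAlgClosed.exists_pow_nat_eq c (n := 2) (by norm_num)
    exact ⟨s, by rw [← hs]; ring⟩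
  choose r hr using hsq
  let s : ℕ → ℂ := fun k => r (match k with
    | 1 => 7 | 2 => -21 | 3 => 35 | 4 => -35 | 5 => 21 | 6 => -7 | 7 => 1 | _ => 0)
  have s1 : s 1 * s 1 = 7 := hr _
  have s2 : s 2 * s 2 = -21 := hr _
  have s3 : s 3 * s 3 = 35 := hr _
  have s4 : s 4 * s 4 = -35 := hr _
  have s5 : s 5 * s 5 = 21 := hr _
  have s6 : s 6 * s 6 = -7 := hr _
  have s7 : s 7 * s 7 = 1 := hr _
  refine ⟨Matrix.of fun i a => row s (i : ℕ) a, ?_⟩
  funext j a b
  have h1 : Sf (Matrix.of fun (i : Fin (N + 1)) a => row s (i : ℕ) a) j a b =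
      ∑ i ∈ Finset.range 14, (i : ℂ) ^ (j : ℕ) * row s i a * row s i b := by
    unfold Sf
    simp only [Matrix.of_apply]
    rw [Fin.sum_univ_eq_sum_range (fun i => (i : ℂ) ^ (j : ℕ) * row s i a * row s i b) (N + 1)]
    symm
    apply Finset.sum_subset
    · intro i hi
      rw [Finset.mem_range] at hi ⊢
      omega
    · intro i _ hi
      rw [Finset.mem_range, not_lt] at hi
      obtain ⟨k, rfl⟩ := Nat.exists_eq_add_of_le hi
      have : row s (14 + k) = 0 := by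
        rw [show 14 + k = k + 14 by ring]
        rfl
      rw [this]
      simp
  rw [h1]
  simp only [Finset.sum_range_succ, Finset.sum_range_zero, row, T0, Nat.cast_zero, Nat.cast_one,
    Nat.cast_ofNat, zero_add]
  fin_cases a <;> fin_cases b <;>
    simp only [Matrix.cons_val_zero, Matrix.cons_val_one, Matrix.cons_val, Fin.zero_eta,
      Fin.mk_one, Fin.reduceFinMk, mul_zero, zero_mul, mul_one, add_zero, zero_add,
      mul_assoc, s1, s2, s3, s4, s5, s6, s7] <;>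
    fin_cases j <;> norm_num

section

variable {N : ℕ}

theorem Sf_map (M : Matrix (Fin (N + 1)) (Fin 4) ℂ) :
    (fun j a b => (MvPolynomial.eval (fun p : Fin (N + 1) × Fin 4 => M p.1 p.2))
      (Sf (Matrix.of fun i a => (X (i, a) : MvPolynomial (Fin (N + 1) × Fin 4) ℂ)) j a b))
      = Sf M := by
  funext j a b
  simp [Sf]

/-- the nonvanishing polynomial -/
theorem exists_D (hN : 13 ≤ N) : ∃ D : MvPolynomial (Fin (N + 1) × Fin 4) ℂ, D ≠ 0 ∧
    ∀ M : Matrix (Fin (N + 1)) (Fin 4) ℂ,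
      MvPolynomial.eval (fun p : Fin (N + 1) × Fin 4 => M p.1 p.2) D ≠ 0 →
      (Um (Sf M)).det ≠ 0 ∧ (∀ x, (C3 (GS (Sf M))).mulVec x = 0 → x = 0) ∧
      454 ≤ (cocMat (cG (GS (Sf M)))).rank := by
  obtain ⟨M0, hM0⟩ := exists_M0 N hN
  let Mg : Matrix (Fin (N + 1)) (Fin 4) (MvPolynomial (Fin (N + 1) × Fin 4) ℂ) :=
    Matrix.of fun i a => X (i, a)
  let ev : Matrix (Fin (N + 1)) (Fin 4) ℂ → (MvPolynomial (Fin (N + 1) × Fin 4) ℂ →+* ℂ) :=
    fun M => MvPolynomial.eval (fun p : Fin (N + 1) × Fin 4 => M p.1 p.2)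
  have hSf : ∀ M, (fun j a b => ev M (Sf Mg j a b)) = Sf M := Sf_map
  have hsurj : ∀ M, Function.Surjective (ev M) := fun M c => ⟨C c, by simp [ev]⟩
  have hdet : ∀ M, ev M (Um (Sf Mg)).det = (Um (Sf M)).det := fun M => by
    rw [det_Um_map, hSf]
  have hGS : ∀ M, (fun a b s => ev M (GS (Sf Mg) a b s)) = GS (Sf M) := fun M => by
    funext a b s
    rw [GS_map, hSf]
  have hδ : (Um (Sf M0)).det ≠ 0 := by rw [hM0]; exact det_Um_T0
  have hG0 : GS (Sf M0) = fun a b s => (Um T0).det * G0 ℂ a b s := by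
    funext a b s
    rw [hM0, GS_T0]
  obtain ⟨P2, hP2, hP2'⟩ := exists_rank_le (ev M0) (hsurj M0) (C3 (GS (Sf Mg)))
  obtain ⟨P3, hP3, hP3'⟩ := exists_rank_le (ev M0) (hsurj M0) (cocMat (cG (GS (Sf Mg))))
  refine ⟨(Um (Sf Mg)).det * P2 * P3, ?_, ?_⟩
  · intro h
    have : ev M0 ((Um (Sf Mg)).det * P2 * P3) = 0 := by rw [h, map_zero]
    rw [map_mul, map_mul, hdet] at this
    exact mul_ne_zero (mul_ne_zero hδ hP2) hP3 this
  · intro M hM
    change ev M _ ≠ 0 at hM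
    rw [map_mul, map_mul, hdet] at hM
    have h1 := left_ne_zero_of_mul (left_ne_zero_of_mul hM)
    have h2 := right_ne_zero_of_mul (left_ne_zero_of_mul hM)
    have h3 := right_ne_zero_of_mul hM
    have r2 := hP2' (ev M) h2
    have r3 := hP3' (ev M) h3
    rw [C3_map, C3_map, hGS, hGS] at r2
    rw [cocMat_map, cocMat_map] at r3
    have hc : ∀ M, (fun i j l => ev M (cG (GS (Sf Mg)) i j l)) = cG (GS (Sf M)) := fun M => by
      funext i j l
      rw [cG_map, hGS]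
    rw [hc, hc] at r3
    refine ⟨h1, ?_, ?_⟩
    · intro x hx
      refine inj_of_rank _ (le_trans ?_ r2) x hx
      apply rank_of_inj
      rw [hG0]
      exact C3_inj _ det_Um_T0
    · refine le_trans ?_ r3
      rw [hG0]
      have e1 := finrank_ker_le (Um T0).det det_Um_T0
      have e2 := LinearMap.finrank_range_add_finrank_ker
        (cocMat (cG (fun a b s => (Um T0).det * G0 ℂ a b s))).mulVecLin
      rw [Module.finrank_fintype_fun_eq_card] at e2
      have e3 : Fintype.card (Ix × Ix × Ix) = 512 := by simp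
      have e4 : finrank ℂ (LinearMap.range
        (cocMat (cG (fun a b s => (Um T0).det * G0 ℂ a b s))).mulVecLin) =
        (cocMat (cG (fun a b s => (Um T0).det * G0 ℂ a b s))).rank := rfl
      omega

/-- the centre does not meet the variety -/
theorem disjoint_centre {M : Matrix (Fin (N + 1)) (Fin 4) ℂ}
    {P : Matrix (Fin 4) (Fin (N + 1)) ℂ} (hP : P * M = 1) (hdet : (Um (Sf M)).det ≠ 0)
    (hC3 : ∀ x, (C3 (GS (Sf M))).mulVec x = 0 → x = 0) (x : Fin (N + 1) → ℂ)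
    (hx1 : x ∈ cone (IX N)) (hx2 : x ∈ colL M) : x = 0 := by
  by_contra hx
  obtain ⟨i, hi⟩ : ∃ i, x i ≠ 0 := by
    by_contra hcon
    push Not at hcon
    exact hx (funext hcon)
  have htop := W8_eq_top (Sf_symm M) hdet hC3 (rel_zf (0 : Fin (N + 1) → ℂ) hP) (adjoin_zf 0 hP)
  have hfin : Module.Finite ℂ (Fibre (IX N) (colL M) 0) := by
    refine Module.Finite.of_fg_top ?_
    rw [← htop]
    exact Submodule.fg_span (Set.finite_range _)
  let y : Fibre (IX N) (colL M) 0 := Ideal.Quotient.mk _ (X i)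
  have hint : IsIntegral ℂ y := Algebra.IsIntegral.isIntegral y
  obtain ⟨p, hp, hpy⟩ := hint
  have hχ : ∀ t : ℂ, p.eval (t * x i) = 0 := by
    intro t
    have hcone : ∀ f ∈ IX N, aeval (t • x) f = 0 := by
      intro f hf
      have h1 : IX N ≤ RingHom.ker (aeval (t • x) : MvPolynomial (Fin (N + 1)) ℂ →ₐ[ℂ] ℂ) := by
        refine Ideal.span_le.mpr ?_
        rintro _ ⟨j, rfl⟩
        rw [SetLike.mem_coe, RingHom.mem_ker]
        have h2 : eval x (Qd N j) = 0 := hx1 _ (Ideal.subset_span ⟨j, rfl⟩)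
        have h3 : aeval (t • x) (Qd N j) = t ^ 2 * eval x (Qd N j) := by
          simp only [Qd, map_sum, map_mul, map_pow, aeval_X, aeval_C, eval_C, eval_X,
            Pi.smul_apply, smul_eq_mul, Finset.mul_sum, Algebra.algebraMap_self, RingHom.id_apply]
          exact Finset.sum_congr rfl fun k _ => by ring
        rw [h3, h2, mul_zero]
      exact h1 hf
    have haff : affineIdeal (colL M) 0 ≤
        RingHom.ker (aeval (t • x) : MvPolynomial (Fin (N + 1)) ℂ →ₐ[ℂ] ℂ) := by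
      refine Ideal.span_le.mpr ?_
      rintro _ ⟨c, hc, rfl⟩
      rw [SetLike.mem_coe, RingHom.mem_ker]
      have h2 := hc x hx2
      simp only [map_sum, map_mul, map_sub, aeval_X, aeval_C, Pi.zero_apply, map_zero, sub_zero,
        Pi.smul_apply, smul_eq_mul, Algebra.algebraMap_self, RingHom.id_apply]
      have h3 : ∀ k, c k * (t * x k) = t * (c k * x k) := fun k => by ring
      simp only [h3, ← Finset.mul_sum, h2, mul_zero]
    let χ : Fibre (IX N) (colL M) 0 →ₐ[ℂ] ℂ := Ideal.Quotient.liftₐ _ (aeval (t • x)) (by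
      intro f hf
      have : IX N ⊔ affineIdeal (colL M) 0 ≤
        RingHom.ker (aeval (t • x) : MvPolynomial (Fin (N + 1)) ℂ →ₐ[ℂ] ℂ) :=
        sup_le (fun f hf => hcone f hf) haff
      exact this hf)
    have h4 : χ y = t * x i := by
      have : χ y = aeval (t • x) (X i : MvPolynomial (Fin (N + 1)) ℂ) := rfl
      rw [this, aeval_X, Pi.smul_apply, smul_eq_mul]
    have h5 : χ (Polynomial.aeval y p) = Polynomial.aeval (χ y) p :=
      (Polynomial.aeval_algHom_apply χ y p).symm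
    have h6 : Polynomial.aeval y p = 0 := hpy
    rw [h6, map_zero, h4] at h5
    rw [← Polynomial.coe_aeval_eq_eval]
    exact h5.symm
  have hp0 : p = 0 := by
    refine Polynomial.funext fun u => ?_
    have := hχ (u / x i)
    rw [div_mul_cancel₀ _ hi] at this
    rw [this]; simp
  exact hp.ne_zero hp0

theorem exists_point (hN : 35 ≤ N) (M : Matrix (Fin (N + 1)) (Fin 4) ℂ) :
    ∃ v : Fin (N + 1) → ℂ, v ≠ 0 ∧
    (∀ j : Fin 7, ∑ i : Fin (N + 1), ((i : ℕ) : ℂ) ^ (j : ℕ) * v i ^ 2 = 0) ∧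
    (∀ (j : Fin 7) (a : Fin 4), ∑ i : Fin (N + 1), ((i : ℕ) : ℂ) ^ (j : ℕ) * v i * M i a = 0) := by
  let f : Fin 7 ⊕ (Fin 7 × Fin 4) → MvPolynomial (Fin (N + 1)) ℂ := fun k => match k with
    | Sum.inl j => Qd N j
    | Sum.inr (j, a) => ∑ i : Fin (N + 1), C (((i : ℕ) : ℂ) ^ (j : ℕ) * M i a) * X i
  obtain ⟨v, hv0, hv⟩ := Pool.Agent.H952R2.Sextic.exists_common_zero (K := ℂ)
    (ι := Fin (N + 1)) (κ := Fin 7 ⊕ (Fin 7 × Fin 4))
    (by simp; omega) f (by
      rintro (j | ⟨j, a⟩)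
      · simp [f, Qd]
      · simp [f])
  refine ⟨v, hv0, fun j => ?_, fun j a => ?_⟩
  · have := hv (Sum.inl j)
    simpa [f, Qd] using this
  · have := hv (Sum.inr (j, a))
    simp only [f, map_sum, map_mul, eval_C, eval_X] at this
    rw [← this]
    exact Finset.sum_congr rfl fun i _ => by ring

theorem mem_cone (v : Fin (N + 1) → ℂ)
    (hv1 : ∀ j : Fin 7, ∑ i : Fin (N + 1), ((i : ℕ) : ℂ) ^ (j : ℕ) * v i ^ 2 = 0) :
    v ∈ cone (IX N) := by
  intro f hf
  have h1 : IX N ≤ RingHom.ker (eval v : MvPolynomial (Fin (N + 1)) ℂ →+* ℂ) := by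
    refine Ideal.span_le.mpr ?_
    rintro _ ⟨j, rfl⟩
    rw [SetLike.mem_coe, RingHom.mem_ker, ← hv1 j]
    simp [Qd]
  exact h1 hf

theorem forGeneral (hN : 35 ≤ N) : ForGeneralSubspace N 4 fun L =>
    (∀ x ∈ cone (IX N), x ∈ L → x = 0) ∧
    (∃ v, v ∉ L ∧ finrank ℂ (Fibre (IX N) L v) = 8) ∧
    ∀ v, v ∉ L → finrank ℂ (Fibre (IX N) L v) = 8 → ¬ IsSmoothable (Fibre (IX N) L v) := by
  obtain ⟨D, hD, hDM⟩ := exists_D (N := N) (by omega)
  refine ⟨D, hD, fun M hM hM2 => ?_⟩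
  obtain ⟨hdet, hC3, hrank⟩ := hDM M hM2
  obtain ⟨P, hP⟩ := exists_leftInv hM
  have hL : Submodule.span ℂ (Set.range fun a i => M i a) = colL M := rfl
  rw [hL]
  have hdisj := disjoint_centre hP hdet hC3
  refine ⟨hdisj, ?_, ?_⟩
  · obtain ⟨v, hv0, hv1, hv2⟩ := exists_point hN M
    refine ⟨v, fun hvL => hv0 (hdisj v (mem_cone v hv1) hvL), ?_⟩
    exact finrank_eq_eight hP hdet hC3 v hv1 hv2
  · intro v _ h8
    exact not_isSmoothable_of_quadrics (z := zf M P v) (S := Sf M) (Sf_symm M) hdet hC3 hrank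
      (rel_zf v hP) (adjoin_zf v hP) h8

end

end Pool.Agent.H349R3
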