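import Mathlib

/-! Symmetric 2-cocycles of a finite commutative algebra, in coordinates. -/

set_option linter.unusedSimpArgs false
set_option linter.unusedSectionVars false

namespace Pool.Agent.H349R3

open Matrix Module

section Mat

variable {ι : Type*} [Fintype ι] [DecidableEq ι] {R : Type*} [CommRing R]

/-- the matrix of the linear system defining the symmetric 2-cocycles of the algebra with
structure constants `c` -/
def cocMat (c : ι → ι → ι → R) :
    Matrix ((ι × ι × ι × ι) ⊕ (ι × ι × ι)) (ι × ι × ι) R :=
  Matrix.of fun q p => match q with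
    | Sum.inl (x, y, z, l) =>
      (if y = p.1 ∧ z = p.2.1 then c x p.2.2 l else 0)
      - (if z = p.2.1 ∧ l = p.2.2 then c x y p.1 else 0)
      + (if x = p.1 ∧ l = p.2.2 then c y z p.2.1 else 0)
      - (if x = p.1 ∧ y = p.2.1 then c p.2.2 z l else 0)
    | Sum.inr (x, y, l) =>
      (if x = p.1 ∧ y = p.2.1 ∧ l = p.2.2 then 1 else 0)
      - (if y = p.1 ∧ x = p.2.1 ∧ l = p.2.2 then 1 else 0)

theorem cocMat_mulVec_inl (c : ι → ι → ι → R) (f : ι × ι × ι → R) (x y z l : ι) :
    (cocMat c).mulVec f (Sum.inl (x, y, z, l)) =
      (∑ p, c x p l * f (y, z, p)) - (∑ p, c x y p * f (p, z, l))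
      + (∑ p, c y z p * f (x, p, l)) - ∑ p, c p z l * f (x, y, p) := by
  simp only [cocMat, Matrix.mulVec, dotProduct, Matrix.of_apply, Fintype.sum_prod_type, add_mul,
    sub_mul, Finset.sum_add_distrib, Finset.sum_sub_distrib, ite_mul, zero_mul, ite_and,
    Finset.sum_ite_irrel, Finset.sum_const_zero, Finset.sum_ite_eq, Finset.mem_univ, if_true]

theorem cocMat_mulVec_inr (c : ι → ι → ι → R) (f : ι × ι × ι → R) (x y l : ι) :
    (cocMat c).mulVec f (Sum.inr (x, y, l)) = f (x, y, l) - f (y, x, l) := by
  simp only [cocMat, Matrix.mulVec, dotProduct, Matrix.of_apply, Fintype.sum_prod_type, add_mul,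
    sub_mul, Finset.sum_add_distrib, Finset.sum_sub_distrib, ite_mul, zero_mul, one_mul, ite_and,
    Finset.sum_ite_irrel, Finset.sum_const_zero, Finset.sum_ite_eq, Finset.mem_univ, if_true]

theorem cocMat_map {S : Type*} [CommRing S] (φ : R →+* S) (c : ι → ι → ι → R) :
    (cocMat c).map φ = cocMat (fun i j l => φ (c i j l)) := by
  ext q p
  rcases q with ⟨x, y, z, l⟩ | ⟨x, y, l⟩ <;>
  simp [cocMat, apply_ite φ]

end Mat

section Alg

variable {ι : Type*} [Fintype ι] [DecidableEq ι] {K : Type*} [Field K] {F : Type*} [CommRing F]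
  [Algebra K F]

/-- structure constants with respect to a basis -/
noncomputable def sc {R : Type*} [CommRing R] {B : Type*} [CommRing B] [Algebra R B]
    (b : Basis ι R B) : ι → ι → ι → R := fun i j l => b.repr (b i * b j) l

variable (K F) in
/-- The symmetric (Hochschild) 2-cocycles of `F` with values in `F`. -/
def Z2 : Submodule K (F →ₗ[K] F →ₗ[K] F) where
  carrier := {f | (∀ x y, f x y = f y x) ∧
    ∀ x y z, x * f y z - f (x * y) z + f x (y * z) - f x y * z = 0}
  add_mem' := by
    rintro f g ⟨hf1, hf2⟩ ⟨hg1, hg2⟩
    refine ⟨fun x y => by simp [hf1 x y, hg1 x y], fun x y z => ?_⟩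
    have h1 := hf2 x y z
    have h2 := hg2 x y z
    simp only [LinearMap.add_apply]
    linear_combination h1 + h2
  zero_mem' := by simp
  smul_mem' := by
    rintro a f ⟨hf1, hf2⟩
    refine ⟨fun x y => by simp [hf1 x y], fun x y z => ?_⟩
    have h1 := congrArg (fun t => a • t) (hf2 x y z)
    simpa only [LinearMap.smul_apply, smul_add, smul_sub, smul_zero, mul_smul_comm,
      smul_mul_assoc] using h1

/-- coordinates of bilinear maps -/
noncomputable def bilEquiv (b : Basis ι K F) : (F →ₗ[K] F →ₗ[K] F) ≃ₗ[K] (ι × ι × ι → K) where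
  toFun f := fun p => b.repr (f (b p.1) (b p.2.1)) p.2.2
  map_add' f g := by ext p; simp
  map_smul' a f := by ext p; simp
  invFun g := b.constr K fun i => b.constr K fun j => ∑ l, g (i, j, l) • b l
  left_inv f := by
    refine b.ext fun i => b.ext fun j => ?_
    simp only [Basis.constr_basis]
    exact b.sum_repr _
  right_inv g := by
    ext ⟨i, j, l⟩
    simp only [Basis.constr_basis, map_sum, map_smul, Basis.repr_self, Finsupp.coe_finsetSum,
      Finset.sum_apply, Finsupp.smul_apply, smul_eq_mul]
    simp [Finsupp.single_apply]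

theorem bilEquiv_apply (b : Basis ι K F) (f : F →ₗ[K] F →ₗ[K] F) (i j l : ι) :
    bilEquiv b f (i, j, l) = b.repr (f (b i) (b j)) l := rfl

theorem repr_mul_left (b : Basis ι K F) (x : ι) (u : F) (l : ι) :
    b.repr (b x * u) l = ∑ p, sc b x p l * b.repr u p := by
  conv_lhs => rw [← b.sum_repr u, Finset.mul_sum]
  simp only [mul_smul_comm, map_sum, map_smul, Finsupp.coe_finsetSum, Finset.sum_apply,
    Finsupp.smul_apply, smul_eq_mul, sc]
  exact Finset.sum_congr rfl fun p _ => mul_comm _ _

theorem repr_mul_right (b : Basis ι K F) (z : ι) (u : F) (l : ι) :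
    b.repr (u * b z) l = ∑ p, sc b p z l * b.repr u p := by
  conv_lhs => rw [← b.sum_repr u, Finset.sum_mul]
  simp only [smul_mul_assoc, map_sum, map_smul, Finsupp.coe_finsetSum, Finset.sum_apply,
    Finsupp.smul_apply, smul_eq_mul, sc]
  exact Finset.sum_congr rfl fun p _ => mul_comm _ _

theorem repr_map_mul (b : Basis ι K F) (g : F →ₗ[K] F) (x y : ι) (l : ι) :
    b.repr (g (b x * b y)) l = ∑ p, sc b x y p * b.repr (g (b p)) l := by
  conv_lhs => rw [← b.sum_repr (b x * b y)]
  simp only [map_sum, map_smul, Finsupp.coe_finsetSum, Finset.sum_apply,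
    Finsupp.smul_apply, smul_eq_mul, sc]

theorem cocMat_mulVec_bilEquiv_inl (b : Basis ι K F) (f : F →ₗ[K] F →ₗ[K] F) (x y z l : ι) :
    (cocMat (sc b)).mulVec (bilEquiv b f) (Sum.inl (x, y, z, l)) =
      b.repr (b x * f (b y) (b z) - f (b x * b y) (b z) + f (b x) (b y * b z)
        - f (b x) (b y) * b z) l := by
  rw [cocMat_mulVec_inl]
  simp only [map_sub, map_add, Finsupp.sub_apply, Finsupp.add_apply]
  rw [repr_mul_left, repr_mul_right, repr_map_mul b (f (b x))]
  have := repr_map_mul b (f.flip (b z)) x y l
  simp only [LinearMap.flip_apply] at this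
  rw [this]
  simp only [bilEquiv_apply]

theorem mem_Z2_iff (b : Basis ι K F) (f : F →ₗ[K] F →ₗ[K] F) :
    f ∈ Z2 K F ↔ (cocMat (sc b)).mulVec (bilEquiv b f) = 0 := by
  constructor
  · rintro ⟨h1, h2⟩
    ext q
    rcases q with ⟨x, y, z, l⟩ | ⟨x, y, l⟩
    · rw [cocMat_mulVec_bilEquiv_inl, h2]; simp
    · rw [cocMat_mulVec_inr, bilEquiv_apply, bilEquiv_apply, h1]; simp
  · intro h
    have h1 : ∀ i j, f (b i) (b j) = f (b j) (b i) := by
      intro i j
      apply b.repr.injective
      ext l
      have := congrFun h (Sum.inr (i, j, l))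
      rw [cocMat_mulVec_inr, bilEquiv_apply, bilEquiv_apply] at this
      simpa [sub_eq_zero] using this
    have h2 : ∀ i j k, b i * f (b j) (b k) - f (b i * b j) (b k) + f (b i) (b j * b k)
        - f (b i) (b j) * b k = 0 := by
      intro i j k
      apply b.repr.injective
      ext l
      have := congrFun h (Sum.inl (i, j, k, l))
      rw [cocMat_mulVec_bilEquiv_inl] at this
      rw [this]; simp
    constructor
    · intro x y
      have : f = f.flip := by
        refine b.ext fun i => b.ext fun j => ?_
        simpa using h1 i j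
      exact LinearMap.congr_fun₂ this x y
    · intro x y z
      -- trilinear extension
      have e1 : ∀ i j, ∀ z, b i * f (b j) z - f (b i * b j) z + f (b i) (b j * z)
        - f (b i) (b j) * z = 0 := by
        intro i j z
        have : (LinearMap.mulLeft K (b i)) ∘ₗ f (b j) - f (b i * b j)
            + f (b i) ∘ₗ LinearMap.mulLeft K (b j) - LinearMap.mulLeft K (f (b i) (b j)) = 0 := by
          refine b.ext fun k => ?_
          simpa using h2 i j k
        have := LinearMap.congr_fun this z
        simpa using this
      have e2 : ∀ i, ∀ y z, b i * f y z - f (b i * y) z + f (b i) (y * z)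
        - f (b i) y * z = 0 := by
        intro i y z
        have : (LinearMap.mulLeft K (b i)) ∘ₗ f.flip z - f.flip z ∘ₗ LinearMap.mulLeft K (b i)
            + f (b i) ∘ₗ LinearMap.mulRight K z - LinearMap.mulRight K z ∘ₗ f (b i) = 0 := by
          refine b.ext fun k => ?_
          simpa using e1 i k z
        have := LinearMap.congr_fun this y
        simpa using this
      have : LinearMap.mulRight K (f y z) - f.flip z ∘ₗ LinearMap.mulRight K y
            + f.flip (y * z) - LinearMap.mulRight K z ∘ₗ f.flip y = 0 := by
        refine b.ext fun k => ?_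
        simpa using e2 k y z
      have := LinearMap.congr_fun this x
      simpa using this

/-- the dimension of the space of cocycles computed in coordinates -/
theorem finrank_Z2 (b : Basis ι K F) :
    finrank K (Z2 K F) = finrank K (LinearMap.ker (cocMat (sc b)).mulVecLin) := by
  refine LinearEquiv.finrank_eq ((bilEquiv b).ofSubmodules _ _ ?_)
  ext g
  rw [Submodule.mem_map, LinearMap.mem_ker, Matrix.mulVecLin_apply]
  constructor
  · rintro ⟨f, hf, rfl⟩
    exact (mem_Z2_iff b f).mp hf
  · intro h
    refine ⟨(bilEquiv b).symm g, (mem_Z2_iff b _).mpr ?_, ?_⟩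
    · rw [LinearEquiv.apply_symm_apply]; exact h
    · exact LinearEquiv.apply_symm_apply _ _

theorem finrank_Z2_add_rank (b : Basis ι K F) :
    finrank K (Z2 K F) + (cocMat (sc b)).rank = Fintype.card ι * (Fintype.card ι * Fintype.card ι) := by
  rw [finrank_Z2 b]
  have h := LinearMap.finrank_range_add_finrank_ker (cocMat (sc b)).mulVecLin
  rw [Module.finrank_fintype_fun_eq_card, Fintype.card_prod, Fintype.card_prod] at h
  rw [← h, add_comm]
  rfl

end Alg

section Reduced

variable {K : Type*} [Field K] [CharZero K] {E : Type*} [CommRing E] [Algebra K E]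
  [Module.Finite K E] [IsReduced E]

/-- a finite reduced algebra over a field of characteristic zero has no derivations -/
theorem derivation_eq_zero (D : Derivation K E E) : D = 0 := by
  ext a
  have hint : IsIntegral K a := Algebra.IsIntegral.isIntegral a
  have hne : minpoly K a ≠ 0 := minpoly.ne_zero hint
  have hrad : IsRadical (minpoly K a) := by
    intro n q hq
    have h1 := (minpoly.dvd_iff (A := K) (x := a)).mp hq
    rw [map_pow] at h1
    exact minpoly.dvd K a (eq_zero_of_pow_eq_zero h1)
  have hsq : Squarefree (minpoly K a) := (isRadical_iff_squarefree_of_ne_zero hne).mp hrad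
  have hsep : (minpoly K a).Separable := PerfectField.separable_iff_squarefree.mpr hsq
  obtain ⟨u, v, huv⟩ := hsep
  have h2 := D.map_aeval (minpoly K a) a
  rw [minpoly.aeval, map_zero] at h2
  have h3 := congrArg (Polynomial.aeval a) huv
  rw [map_add, map_mul, map_mul, minpoly.aeval, mul_zero, zero_add, map_one] at h3
  have h4 : D a = Polynomial.aeval a v * (Polynomial.aeval a (Polynomial.derivative (minpoly K a)) • D a) := by
    rw [smul_eq_mul, ← mul_assoc, h3, one_mul]
  rw [h4, ← h2, mul_zero]
  rfl

variable (K E) in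
/-- coboundaries -/
def cobound : (E →ₗ[K] E) →ₗ[K] Z2 K E where
  toFun g := ⟨LinearMap.mk₂ K (fun x y => x * g y + y * g x - g (x * y))
      (fun x x' y => by simp only [map_add, add_mul, mul_add]; ring)
      (fun c x y => by simp only [map_smul, smul_mul_assoc, mul_smul_comm, smul_sub, smul_add])
      (fun x y y' => by simp only [map_add, add_mul, mul_add]; ring)
      (fun c x y => by simp only [map_smul, smul_mul_assoc, mul_smul_comm, smul_sub, smul_add]),
    by
      refine ⟨fun x y => ?_, fun x y z => ?_⟩
      · simp only [LinearMap.mk₂_apply]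
        rw [mul_comm y x]; ring
      · simp only [LinearMap.mk₂_apply]
        rw [mul_assoc x y z]
        ring⟩
  map_add' g g' := by
    apply Subtype.ext
    ext x y
    simp only [LinearMap.mk₂_apply, LinearMap.add_apply, Submodule.coe_add]
    ring
  map_smul' c g := by
    apply Subtype.ext
    ext x y
    simp only [LinearMap.mk₂_apply, LinearMap.smul_apply, RingHom.id_apply, Submodule.coe_smul,
      mul_smul_comm, smul_sub, smul_add]

theorem cobound_injective : Function.Injective (cobound K E) := by
  refine (injective_iff_map_eq_zero _).mpr ?_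
  intro g hg
  have h1 : ∀ x y, x * g y + y * g x - g (x * y) = 0 := by
    intro x y
    have := congrArg (fun h : Z2 K E => h.1 x y) hg
    simpa [cobound] using this
  let D : Derivation K E E := Derivation.mk' g (fun x y => by
    have := h1 x y
    simp only [smul_eq_mul]
    linear_combination -this)
  have hD := derivation_eq_zero D
  ext x
  have := congrArg (fun d : Derivation K E E => d x) hD
  simpa [D] using this

/-- a reduced finite algebra of rank `k` has at least `k ^ 2` dimensions of cocycles -/
theorem sq_le_finrank_Z2 : finrank K E * finrank K E ≤ finrank K (Z2 K E) := by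
  have h := LinearMap.finrank_le_finrank_of_injective (cobound_injective (K := K) (E := E))
  rwa [Module.finrank_linearMap] at h

end Reduced

end Pool.Agent.H349R3
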