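import Mathlib

/-!
Projective varieties, linear projections, their scheme-theoretic fibres, and smoothability.
-/

namespace Pool.Agent.H349R3

open MvPolynomial Module

/-- The affine cone in `ℂ^{N+1}` over the closed subscheme of `ℙ^N` defined by the ideal `I`:
the common zeros of the elements of `I`. -/
def cone {N : ℕ} (I : Ideal (MvPolynomial (Fin (N + 1)) ℂ)) : Set (Fin (N + 1) → ℂ) :=
  {x | ∀ f ∈ I, eval x f = 0}

/-- The gradient of the polynomial `f` at the point `x`. -/
noncomputable def grad {N : ℕ} (f : MvPolynomial (Fin (N + 1)) ℂ) (x : Fin (N + 1) → ℂ) :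
    Fin (N + 1) → ℂ :=
  fun i => eval x (pderiv i f)

/-- `I` is the homogeneous ideal of a smooth irreducible projective variety `X ⊆ ℙ^N` of dimension
`n`: it is a homogeneous prime ideal, the homogeneous coordinate ring `ℂ[x_0, …, x_N] / I` has
Krull dimension `n + 1`, and the Jacobian criterion holds at every point of `X`: the gradients
at the point of the elements of `I` span a space of dimension `N - n`. -/
structure IsSmoothProjectiveVariety (N n : ℕ) (I : Ideal (MvPolynomial (Fin (N + 1)) ℂ)) :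
    Prop where
  isHomogeneous : ∀ f ∈ I, ∀ d : ℕ, homogeneousComponent d f ∈ I
  isPrime : I.IsPrime
  dim : ringKrullDim (MvPolynomial (Fin (N + 1)) ℂ ⧸ I) = (n : WithBot ℕ∞) + 1
  smooth : ∀ x ∈ cone I, x ≠ 0 →
    finrank ℂ (Submodule.span ℂ ((fun f => grad f x) '' (I : Set _))) + n = N

/-- The ideal of the affine linear subspace `v + L` of `ℂ^{N+1}`: it is generated by the
polynomials `λ(x) - λ(v)`, where `λ` runs over the linear forms vanishing on `L`. -/
noncomputable def affineIdeal {N : ℕ} (L : Submodule ℂ (Fin (N + 1) → ℂ)) (v : Fin (N + 1) → ℂ) :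
    Ideal (MvPolynomial (Fin (N + 1)) ℂ) :=
  Ideal.span {g | ∃ a : Fin (N + 1) → ℂ, (∀ l ∈ L, ∑ i, a i * l i = 0) ∧
    g = ∑ i, C (a i) * (X i - C (v i))}

/-- The coordinate ring of the scheme-theoretic fibre over the point `[v]` of
`ℙ^m = ℙ(ℂ^{N+1} / L)`, `v ∉ L`, of the linear projection `π_Λ : X → ℙ^m` with centre
`Λ = ℙ(L) ⊆ ℙ^N`, `Λ ∩ X = ∅`.

The fibre is `X ∩ (⟨Λ, [v]⟩ ∖ Λ)`. Every point of `⟨Λ, [v]⟩ ∖ Λ` has exactly one representative
vector in the affine linear subspace `v + L` of `ℂ^{N+1}`, so the fibre is the scheme-theoretic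
intersection of `v + L` with the affine cone over `X`. -/
abbrev Fibre {N : ℕ} (I : Ideal (MvPolynomial (Fin (N + 1)) ℂ))
    (L : Submodule ℂ (Fin (N + 1) → ℂ)) (v : Fin (N + 1) → ℂ) : Type :=
  MvPolynomial (Fin (N + 1)) ℂ ⧸ (I ⊔ affineIdeal L v)

/-- `P Λ` holds for a general linear subspace `Λ = ℙ(L) ⊆ ℙ^N` of projective dimension `r - 1`,
i.e. for all `L` in a dense open subset of the Grassmannian of `r`-dimensional subspaces of
`ℂ^{N+1}`: there is a nonzero polynomial `D` in the entries of an `(N+1) × r` matrix such that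
`P` holds for the column space of every matrix `M` with linearly independent columns and
`D(M) ≠ 0`. -/
def ForGeneralSubspace (N r : ℕ) (P : Submodule ℂ (Fin (N + 1) → ℂ) → Prop) : Prop :=
  ∃ D : MvPolynomial (Fin (N + 1) × Fin r) ℂ, D ≠ 0 ∧
    ∀ M : Matrix (Fin (N + 1)) (Fin r) ℂ, LinearIndependent ℂ (fun a i => M i a) →
      eval (fun p => M p.1 p.2) D ≠ 0 → P (Submodule.span ℂ (Set.range fun a i => M i a))

open TensorProduct in
/-- The finite scheme `Spec F` over `ℂ` is smoothable: it is a flat limit of reduced finite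
schemes. That is, there are a local domain `R` over `ℂ` with residue field `ℂ` (the residue map
is `φ`), and a finite flat `R`-algebra `B` whose generic fibre `Frac(R) ⊗ B` is reduced and whose
special fibre `B / 𝔪 B`, `𝔪 = ker φ`, is isomorphic to `F` over `ℂ`. -/
def IsSmoothable (F : Type) [CommRing F] [Algebra ℂ F] : Prop :=
  ∃ (R : Type) (_ : CommRing R) (_ : IsDomain R) (_ : IsLocalRing R) (_ : Algebra ℂ R)
    (φ : R →ₐ[ℂ] ℂ) (B : Type) (_ : CommRing B) (_ : Algebra R B),
    Module.Finite R B ∧ Module.Flat R B ∧ IsReduced (FractionRing R ⊗[R] B) ∧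
      ∃ e : (B ⧸ (RingHom.ker φ).map (algebraMap R B)) ≃+* F,
        ∀ c : ℂ, e (Ideal.Quotient.mk _ (algebraMap R B (algebraMap ℂ R c))) = algebraMap ℂ F c

end Pool.Agent.H349R3
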