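import Pool.Agent.H349R3.Fib

/-! The algebras degenerate to the associated graded algebra; bound for the cocycles. -/

set_option maxHeartbeats 4000000
set_option linter.unusedSimpArgs false

namespace Pool.Agent.H349R3

open Matrix Module

/-- degrees of the basis elements -/
def dg : Ix → ℕ
  | Sum.inl _ => 0
  | Sum.inr (Sum.inl _) => 1
  | Sum.inr (Sum.inr _) => 2

theorem cG_eq_zero {R : Type*} [CommRing R] (G : Fin 4 → Fin 4 → Fin 3 → R) (i j l : Ix)
    (h : dg l ≠ dg i + dg j) : cG G i j l = 0 := by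
  rcases i with ⟨⟩ | i | i <;> rcases j with ⟨⟩ | j | j <;> rcases l with ⟨⟩ | l | l <;>
    simp_all [cG, dg]

section

variable {K : Type*} [Field K] {F : Type*} [CommRing F] [Algebra K F]

theorem repr_F1 {z : Fin 4 → F} {S : Fin 7 → Fin 4 → Fin 4 → K} (b : Basis Ix K F)
    (hb : ∀ i, b i = vec z S i) (x : F) (hx : x ∈ (F1 z : Submodule K F)) (s : Fin 3) :
    b.repr x (Sum.inr (Sum.inr s)) = 0 := by
  have h1 : (F1 z : Submodule K F) ≤
      LinearMap.ker ((Finsupp.lapply (Sum.inr (Sum.inr s))) ∘ₗ (b.repr : F →ₗ[K] (Ix →₀ K))) := by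
    refine Submodule.span_le.mpr ?_
    intro y hy
    rcases hy with rfl | ⟨a, rfl⟩
    · have : (1 : F) = b (Sum.inl ()) := by rw [hb]; rfl
      simp only [SetLike.mem_coe, LinearMap.mem_ker, LinearMap.comp_apply, LinearEquiv.coe_coe,
        Finsupp.lapply_apply]
      rw [this, b.repr_self]
      simp
    · have : z a = b (Sum.inr (Sum.inl a)) := by rw [hb]; rfl
      simp only [SetLike.mem_coe, LinearMap.mem_ker, LinearMap.comp_apply, LinearEquiv.coe_coe,
        Finsupp.lapply_apply]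
      rw [this, b.repr_self]
      simp
  exact h1 hx

/-- structure constants: filtered with prescribed leading part -/
theorem sc_props {z : Fin 4 → F} {S : Fin 7 → Fin 4 → Fin 4 → K} (b : Basis Ix K F)
    (hb : ∀ i, b i = vec z S i)
    (hS : ∀ j a b, S j a b = S j b a) (hdet : (Um S).det ≠ 0)
    (hrel : ∀ j, ∑ a, ∑ b, S j a b • (z a * z b) ∈ (F1 z : Submodule K F)) (i j l : Ix) :
    (dg i + dg j < dg l → sc b i j l = 0) ∧
      (dg l = dg i + dg j → sc b i j l = cG (GS S) i j l) := by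
  have h0 : b (Sum.inl ()) = 1 := by rw [hb]; rfl
  have hleft : ∀ j l, sc b (Sum.inl ()) j l = cG (GS S) (Sum.inl ()) j l := by
    intro j l
    unfold sc
    rw [h0, one_mul, b.repr_self, Finsupp.single_apply]
    simp [cG]
  have hright : ∀ i l, sc b i (Sum.inl ()) l = cG (GS S) i (Sum.inl ()) l := by
    intro i l
    unfold sc
    rw [h0, mul_one, b.repr_self, Finsupp.single_apply]
    rcases i with ⟨⟩ | i <;> simp [cG]
  rcases i with ⟨⟩ | i
  · refine ⟨fun h => ?_, fun _ => hleft j l⟩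
    rw [hleft]
    exact cG_eq_zero _ _ _ _ (ne_of_gt h)
  rcases j with ⟨⟩ | j
  · refine ⟨fun h => ?_, fun _ => hright _ l⟩
    rw [hright]
    exact cG_eq_zero _ _ _ _ (ne_of_gt h)
  rcases i with i | i <;> rcases j with j | j
  · rcases l with ⟨⟩ | l | l
    · simp [dg]
    · simp [dg]
    · refine ⟨by simp [dg], fun _ => ?_⟩
      have h1 := mul_sub_mem hS hdet hrel i j
      have h2 := repr_F1 b hb _ h1 l
      rw [map_sub, Finsupp.sub_apply, sub_eq_zero] at h2
      unfold sc
      have h3 : b (Sum.inr (Sum.inl i)) * b (Sum.inr (Sum.inl j)) = z i * z j := by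
        rw [hb, hb]; rfl
      rw [h3, h2]
      simp only [← hb, map_sum, map_smul, Finsupp.coe_finsetSum, Finset.sum_apply,
        Finsupp.smul_apply, smul_eq_mul, b.repr_self]
      simp [Finsupp.single_apply, cG]
  · rcases l with ⟨⟩ | l | l <;> simp [dg]
  · rcases l with ⟨⟩ | l | l <;> simp [dg]
  · rcases l with ⟨⟩ | l | l <;> simp [dg]

/-- the rank bound -/
theorem rank_le [Infinite K] {z : Fin 4 → F} {S : Fin 7 → Fin 4 → Fin 4 → K} (b : Basis Ix K F)
    (hb : ∀ i, b i = vec z S i)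
    (hS : ∀ j a b, S j a b = S j b a) (hdet : (Um S).det ≠ 0)
    (hrel : ∀ j, ∑ a, ∑ b, S j a b • (z a * z b) ∈ (F1 z : Submodule K F)) :
    ∃ b' : Basis Ix K F, (cocMat (cG (GS S))).rank ≤ (cocMat (sc b')).rank := by
  let ct : Ix → Ix → Ix → Polynomial K := fun i j l =>
    Polynomial.C (sc b i j l) * Polynomial.X ^ (dg i + dg j - dg l)
  obtain ⟨P, hP1, hP2⟩ := exists_rank_le (Polynomial.evalRingHom (0 : K))
    (fun c => ⟨Polynomial.C c, by simp⟩) (cocMat ct)
  have hP0 : P ≠ 0 := by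
    rintro rfl
    simp at hP1
  -- a nonzero `t` with `P(t) ≠ 0`
  obtain ⟨t, ht⟩ : ∃ t : K, (P * Polynomial.X).eval t ≠ 0 := by
    by_contra hcon
    push Not at hcon
    have : P * Polynomial.X = 0 := Polynomial.funext (by simpa using hcon)
    rcases mul_eq_zero.mp this with h | h
    · exact hP0 h
    · exact Polynomial.X_ne_zero h
  rw [Polynomial.eval_mul, Polynomial.eval_X] at ht
  have ht0 : t ≠ 0 := right_ne_zero_of_mul ht
  have htP : P.eval t ≠ 0 := left_ne_zero_of_mul ht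
  let b' : Basis Ix K F := b.unitsSMul fun i => Units.mk0 (t ^ dg i) (pow_ne_zero _ ht0)
  refine ⟨b', ?_⟩
  have h1 := hP2 (Polynomial.evalRingHom t) (by simpa using htP)
  rw [cocMat_map, cocMat_map] at h1
  have e0 : (fun i j l => (Polynomial.evalRingHom (0 : K)) (ct i j l)) = cG (GS S) := by
    funext i j l
    simp only [ct, Polynomial.coe_evalRingHom, Polynomial.eval_mul, Polynomial.eval_C,
      Polynomial.eval_pow, Polynomial.eval_X]
    obtain ⟨hA, hB⟩ := sc_props b hb hS hdet hrel i j l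
    rcases lt_trichotomy (dg l) (dg i + dg j) with h | h | h
    · rw [zero_pow (by omega), mul_zero, cG_eq_zero _ _ _ _ (by omega)]
    · rw [hB h, h, Nat.sub_self, pow_zero, mul_one]
    · rw [hA h, zero_mul, cG_eq_zero _ _ _ _ (by omega)]
  have e1 : (fun i j l => (Polynomial.evalRingHom t) (ct i j l)) = sc b' := by
    funext i j l
    simp only [ct, Polynomial.coe_evalRingHom, Polynomial.eval_mul, Polynomial.eval_C,
      Polynomial.eval_pow, Polynomial.eval_X]
    have h2 : sc b' i j l = (t ^ dg l)⁻¹ * (t ^ dg i * t ^ dg j) * sc b i j l := by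
      unfold sc
      simp only [b', Basis.unitsSMul_apply, Basis.repr_unitsSMul, Units.smul_def, Units.val_mk0,
        Units.val_inv_eq_inv_val]
      rw [smul_mul_smul_comm, map_smul, Finsupp.smul_apply, smul_eq_mul, smul_eq_mul]
      ring
    rw [h2]
    obtain ⟨hA, hB⟩ := sc_props b hb hS hdet hrel i j l
    rcases le_or_gt (dg l) (dg i + dg j) with h | h
    · obtain ⟨k, hk⟩ := Nat.exists_eq_add_of_le h
      rw [hk, Nat.add_sub_cancel_left, ← pow_add, hk, pow_add]
      field_simp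
    · rw [hA h]; ring
  rw [e0, e1] at h1
  exact h1

theorem finrank_Z2_le [Infinite K] {z : Fin 4 → F} {S : Fin 7 → Fin 4 → Fin 4 → K}
    (hS : ∀ j a b, S j a b = S j b a) (hdet : (Um S).det ≠ 0)
    (hC3 : ∀ x, (C3 (GS S)).mulVec x = 0 → x = 0)
    (hrank : 454 ≤ (cocMat (cG (GS S))).rank)
    (hrel : ∀ j, ∑ a, ∑ b, S j a b • (z a * z b) ∈ (F1 z : Submodule K F))
    (hgen : Algebra.adjoin K (Set.range z) = ⊤) (hfr : finrank K F = 8) :
    finrank K (Z2 K F) ≤ 58 := by
  have hcard : Fintype.card Ix = 8 := by simp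
  let b : Basis Ix K F := basisOfTopLeSpanOfCardEqFinrank (vec z S)
    (by rw [← W8, W8_eq_top hS hdet hC3 hrel hgen]) (by rw [hcard, hfr])
  have hb : ∀ i, b i = vec z S i := fun i => by
    simp [b]
  obtain ⟨b', hb'⟩ := rank_le b hb hS hdet hrel
  have h := finrank_Z2_add_rank b'
  rw [hcard] at h
  omega

end

theorem not_isSmoothable_of_quadrics {F : Type} [CommRing F] [Algebra ℂ F] {z : Fin 4 → F}
    {S : Fin 7 → Fin 4 → Fin 4 → ℂ}
    (hS : ∀ j a b, S j a b = S j b a) (hdet : (Um S).det ≠ 0)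
    (hC3 : ∀ x, (C3 (GS S)).mulVec x = 0 → x = 0)
    (hrank : 454 ≤ (cocMat (cG (GS S))).rank)
    (hrel : ∀ j, ∑ a, ∑ b, S j a b • (z a * z b) ∈ (F1 z : Submodule ℂ F))
    (hgen : Algebra.adjoin ℂ (Set.range z) = ⊤) (hfr : finrank ℂ F = 8) :
    ¬ IsSmoothable F := by
  apply not_isSmoothable
  have := finrank_Z2_le hS hdet hC3 hrank hrel hgen hfr
  rw [hfr]
  omega

end Pool.Agent.H349R3
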