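import Pool.Agent.H349R3.Special

/-! The special fibres have length eight. -/

set_option maxHeartbeats 4000000
set_option linter.unusedSimpArgs false

namespace Pool.Agent.H349R3

open Matrix Module MvPolynomial

section

variable {N : ℕ} {M : Matrix (Fin (N + 1)) (Fin 4) ℂ} {P : Matrix (Fin 4) (Fin (N + 1)) ℂ}

/-- the polynomial with given coefficients in the eight monomials -/
noncomputable def pol (Δ : ℂ) (g : Ix → ℂ) : MvPolynomial (Fin 4) ℂ :=
  C (g (Sum.inl ())) + (∑ a, C (g (Sum.inr (Sum.inl a))) * X a)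
    + ∑ s, C (g (Sum.inr (Sum.inr s)) * Δ) * (X (BP s).1 * X (BP s).2)

theorem pol_eq_zero (hdet : (Um (Sf M)).det ≠ 0) (Δ : ℂ) (hΔ : Δ ≠ 0) (g : Ix → ℂ)
    (hf : pol Δ g ∈ Jr M) : g = 0 := by
  obtain ⟨h0, h1, β, h2⟩ := Jr_props _ hf
  have hp : ∀ b p : Fin 4, pderiv b (X p : MvPolynomial (Fin 4) ℂ) = C (if b = p then 1 else 0) := by
    intro b p
    rw [pderiv_X, Pi.single_apply]
    by_cases h1 : p = b
    · rw [if_pos h1, if_pos h1.symm, map_one]
    · rw [if_neg h1, if_neg (Ne.symm h1), map_zero]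
  have e0 : g (Sum.inl ()) = 0 := by
    rw [← h0]
    simp [pol]
  have e1 : ∀ a, g (Sum.inr (Sum.inl a)) = 0 := by
    intro a
    rw [← h1 a]
    simp only [pol, map_add, map_sum, pderiv_C, Derivation.leibniz, smul_eq_mul, hp, map_mul,
      eval_C, eval_X, Pi.zero_apply, zero_mul, mul_zero, add_zero, zero_add,
      Finset.sum_const_zero, mul_ite, mul_one, Finset.sum_ite_eq, Finset.mem_univ, if_true, map_zero,
      ite_self]
  have e2 : ∀ a b, eval (0 : Fin 4 → ℂ) (pderiv a (pderiv b (pol Δ g))) =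
      ∑ s, g (Sum.inr (Sum.inr s)) * Δ * ((if b = (BP s).1 ∧ a = (BP s).2 then 1 else 0)
        + (if b = (BP s).2 ∧ a = (BP s).1 then 1 else 0)) := by
    intro a b
    unfold pol
    rw [map_add, map_add, map_add, map_add, map_add, map_add]
    have t1 : pderiv a (pderiv b (C (g (Sum.inl ())) : MvPolynomial (Fin 4) ℂ)) = 0 := by simp
    have t2 : pderiv a (pderiv b (∑ a, C (g (Sum.inr (Sum.inl a))) * X a :
        MvPolynomial (Fin 4) ℂ)) = 0 := by
      simp only [map_sum, pderiv_C_mul, hp, pderiv_C, mul_zero, Finset.sum_const_zero]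
    rw [t1, t2, map_zero, zero_add, zero_add]
    simp only [map_sum]
    refine Finset.sum_congr rfl fun s _ => ?_
    rw [pderiv_C_mul, pderiv_C_mul, map_mul, eval_C, eval_pderiv2_XX]
  have hβ : β = 0 := by
    apply Matrix.eq_zero_of_vecMul_eq_zero hdet
    ext m
    rw [Matrix.vecMul, dotProduct, Pi.zero_apply]
    have h3 := h2 (NB m).1 (NB m).2
    rw [e2] at h3
    have h4 : ∑ s, g (Sum.inr (Sum.inr s)) * Δ *
        ((if (NB m).2 = (BP s).1 ∧ (NB m).1 = (BP s).2 then 1 else 0)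
        + (if (NB m).2 = (BP s).2 ∧ (NB m).1 = (BP s).1 then 1 else 0)) = (0 : ℂ) := by
      fin_cases m <;> simp [NB, BP, Fin.sum_univ_three]
    rw [h4] at h3
    have h5 : ∑ j, β j * Um (Sf M) j m = (mu ℂ m / 2) * ∑ j, β j * (2 * Sf M j (NB m).1 (NB m).2) := by
      rw [Finset.mul_sum]
      refine Finset.sum_congr rfl fun j _ => ?_
      simp only [Um, Matrix.of_apply]
      ring
    rw [h5, ← h3, mul_zero]
  have e3 : ∀ s, g (Sum.inr (Sum.inr s)) = 0 := by
    intro s
    have h3 := h2 (BP s).1 (BP s).2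
    rw [e2, hβ] at h3
    simp only [Pi.zero_apply, zero_mul, Finset.sum_const_zero] at h3
    have h4 : g (Sum.inr (Sum.inr s)) * Δ = 0 := by
      rw [← h3]
      fin_cases s <;> simp [BP, Fin.sum_univ_three]
    exact (mul_eq_zero.mp h4).resolve_right hΔ
  funext i
  rcases i with ⟨⟩ | a | s
  · exact e0
  · exact e1 a
  · exact e3 s

theorem finrank_eq_eight (hP : P * M = 1) (hdet : (Um (Sf M)).det ≠ 0)
    (hC3 : ∀ x, (C3 (GS (Sf M))).mulVec x = 0 → x = 0) (v : Fin (N + 1) → ℂ)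
    (hv1 : ∀ j : Fin 7, ∑ i : Fin (N + 1), ((i : ℕ) : ℂ) ^ (j : ℕ) * v i ^ 2 = 0)
    (hv2 : ∀ (j : Fin 7) (a : Fin 4), ∑ i : Fin (N + 1), ((i : ℕ) : ℂ) ^ (j : ℕ) * v i * M i a = 0) :
    finrank ℂ (Fibre (IX N) (colL M) v) = 8 := by
  have htop := W8_eq_top (Sf_symm M) hdet hC3 (rel_zf v hP) (adjoin_zf v hP)
  let Ψ : Fibre (IX N) (colL M) v →ₐ[ℂ] (MvPolynomial (Fin 4) ℂ ⧸ Jr M) :=
    Ideal.Quotient.liftₐ _ ((Ideal.Quotient.mkₐ ℂ (Jr M)).comp (subst M v)) (by
      intro f hf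
      rw [AlgHom.comp_apply, Ideal.Quotient.mkₐ_eq_mk]
      exact Ideal.Quotient.eq_zero_iff_mem.mpr (subst_mem v hv1 hv2 f hf))
  have hΨ : ∀ a, Ψ (zf M P v a) = Ideal.Quotient.mk _ (X a) := by
    intro a
    have h1 : Ψ (zf M P v a) = Ideal.Quotient.mk _ (subst M v (∑ i, C (P a i) * (X i - C (v i)))) :=
      rfl
    rw [h1]
    congr 1
    simp only [subst, map_sum, map_mul, map_sub, aeval_X, aeval_C, algebraMap_eq,
      add_sub_cancel_left, Finset.mul_sum]
    rw [Finset.sum_comm]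
    have h2 : ∀ b, ∑ i, C (P a i) * (C (M i b) * X b) =
        C ((1 : Matrix (Fin 4) (Fin 4) ℂ) a b) * (X b : MvPolynomial (Fin 4) ℂ) := by
      intro b
      rw [← hP, Matrix.mul_apply, map_sum, Finset.sum_mul]
      exact Finset.sum_congr rfl fun i _ => by rw [map_mul, mul_assoc]
    simp only [h2]
    rw [Finset.sum_eq_single a]
    · simp
    · intro b _ hb
      rw [Matrix.one_apply_ne' hb]; simp
    · simp
  have hsm : ∀ (c : ℂ) (y : MvPolynomial (Fin 4) ℂ), (Ideal.Quotient.mk (Jr M)) (C c * y)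
      = c • (Ideal.Quotient.mk (Jr M)) y := fun c y => by rw [← MvPolynomial.smul_eq_C_mul]; rfl
  have hli : LinearIndependent ℂ (vec (zf M P v) (Sf M)) := by
    rw [Fintype.linearIndependent_iff]
    intro g hg
    have h1 := congrArg Ψ hg
    rw [map_sum, map_zero] at h1
    have h2 : ∑ i, Ψ (g i • vec (zf M P v) (Sf M) i) =
        Ideal.Quotient.mk (Jr M) (pol (Um (Sf M)).det⁻¹ g) := by
      rw [Fintype.sum_sum_type, Fintype.sum_sum_type]
      simp only [Finset.univ_unique, Finset.sum_singleton, vec, map_smul, map_mul, hΨ, map_one]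
      unfold pol
      rw [map_add, map_add, map_sum, map_sum, add_assoc]
      congr 1
      · rw [← mul_one (C (g (Sum.inl ()))), hsm, map_one]
      congr 1
      · refine Finset.sum_congr rfl fun s _ => ?_
        rw [hsm]
      · refine Finset.sum_congr rfl fun s _ => ?_
        rw [hsm, smul_smul, map_mul]
    rw [h2] at h1
    have h3 := pol_eq_zero hdet _ (inv_ne_zero hdet) g (Ideal.Quotient.eq_zero_iff_mem.mp h1)
    intro i
    rw [h3]; rfl
  let b := Basis.mk hli (by rw [← W8, htop])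
  rw [Module.finrank_eq_card_basis b]
  simp

end

end Pool.Agent.H349R3
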