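import Mathlib

/-! Lower semicontinuity of the rank of a matrix over a commutative ring. -/

namespace Pool.Agent.H349R3

open Matrix

/-- a matrix of rank `r` over a field has `U A V = 1` of size `r` -/
theorem exists_mul_mul_eq_one {F : Type*} [Field F] {m n : Type*} [Fintype m] [Fintype n]
    [DecidableEq m] [DecidableEq n] (A : Matrix m n F) :
    ∃ (U : Matrix (Fin A.rank) m F) (V : Matrix n (Fin A.rank) F), U * A * V = 1 := by
  classical
  let W := LinearMap.range A.mulVecLin
  have hW : Module.finrank F W = A.rank := rfl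
  let b : Module.Basis (Fin A.rank) F W := Module.finBasisOfFinrankEq F W hW
  have h1 : ∀ i, ∃ v : n → F, A.mulVec v = (b i : m → F) := by
    intro i
    obtain ⟨v, hv⟩ := (b i).2
    exact ⟨v, hv⟩
  choose v hv using h1
  obtain ⟨g, hg⟩ := LinearMap.exists_extend (p := W)
    (f := (b.equivFun : W →ₗ[F] (Fin A.rank → F)))
  refine ⟨LinearMap.toMatrix' g, Matrix.of fun j i => v i j, ?_⟩
  ext i j
  have h2 : A * (Matrix.of fun j i => v i j) = Matrix.of fun j i => (b i : m → F) j := by
    ext a c
    have := congrFun (hv c) a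
    simp only [Matrix.mul_apply, Matrix.of_apply]
    rw [← this]
    simp [Matrix.mulVec, dotProduct]
  rw [Matrix.mul_assoc, h2]
  have h3 : g (b j : m → F) = Pi.single j 1 := by
    have := LinearMap.congr_fun hg (b j)
    simp only [LinearMap.comp_apply, Submodule.subtype_apply, LinearEquiv.coe_coe] at this
    rw [this]
    ext k
    rw [Module.Basis.equivFun_apply, Module.Basis.repr_self, Finsupp.single_apply, Pi.single_apply]
    simp only [eq_comm]
  have h4 : (LinearMap.toMatrix' g * Matrix.of fun j i => (b i : m → F) j) i j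
      = (LinearMap.toMatrix' g).mulVec (b j : m → F) i := by
    simp [Matrix.mul_apply, Matrix.mulVec, dotProduct]
  rw [h4, LinearMap.toMatrix'_mulVec, h3, Matrix.one_apply, Pi.single_apply]

/-- Lower semicontinuity of the rank. -/
theorem exists_rank_le {R F : Type*} [CommRing R] [Field F] {m n : Type*} [Fintype m] [Fintype n]
    [DecidableEq m] [DecidableEq n] (φ : R →+* F) (hφ : Function.Surjective φ)
    (M : Matrix m n R) :
    ∃ P : R, φ P ≠ 0 ∧ ∀ {F' : Type*} [Field F'] (ψ : R →+* F'), ψ P ≠ 0 →
      (M.map φ).rank ≤ (M.map ψ).rank := by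
  classical
  obtain ⟨U, V, hUV⟩ := exists_mul_mul_eq_one (M.map φ)
  choose s hs using hφ
  let U' : Matrix (Fin (M.map φ).rank) m R := U.map s
  let V' : Matrix n (Fin (M.map φ).rank) R := V.map s
  have hU' : U'.map φ = U := by ext i j; simp [U', hs]
  have hV' : V'.map φ = V := by ext i j; simp [V', hs]
  refine ⟨(U' * M * V').det, ?_, ?_⟩
  · rw [RingHom.map_det]
    have : φ.mapMatrix (U' * M * V') = 1 := by
      rw [RingHom.mapMatrix_apply, Matrix.map_mul, Matrix.map_mul]
      rw [hU', hV', hUV]
    rw [this, Matrix.det_one]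
    exact one_ne_zero
  · intro F' _ ψ hψ
    rw [RingHom.map_det] at hψ
    have h1 : ψ.mapMatrix (U' * M * V') = U'.map ψ * M.map ψ * V'.map ψ := by
      rw [RingHom.mapMatrix_apply, Matrix.map_mul, Matrix.map_mul]
    rw [h1] at hψ
    have h2 : (U'.map ψ * M.map ψ * V'.map ψ).rank = (M.map φ).rank := by
      rw [Matrix.rank_of_isUnit _ ((Matrix.isUnit_iff_isUnit_det _).mpr (isUnit_iff_ne_zero.mpr hψ))]
      simp
    rw [← h2]
    exact (Matrix.rank_mul_le_left _ _).trans (Matrix.rank_mul_le_right _ _)

end Pool.Agent.H349R3
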