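import Pool.Agent.H349R3.Defs
import Pool.Agent.H349R3.RankLemma
import Pool.Agent.H349R3.Cocycle

/-! A finite algebra of length `k` with fewer than `k ^ 2` dimensions of symmetric 2-cocycles is not
smoothable. -/

namespace Pool.Agent.H349R3

open Matrix Module TensorProduct

theorem exists_basis_reduction {ι : Type*} [Fintype ι] {R κ B F : Type*} [CommRing R] [Field κ]
    [CommRing B] [Algebra R B] [CommRing F] [Algebra κ F] (b : Basis ι R B) (φ : R →+* κ)
    (hφ : Function.Surjective φ) (π : B →+* F) (hπ : Function.Surjective π)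
    (hcomp : ∀ r, π (algebraMap R B r) = algebraMap κ F (φ r))
    (hker : ∀ x, π x = 0 → ∀ i, φ (b.repr x i) = 0) :
    ∃ b' : Basis ι κ F, ∀ i j l, sc b' i j l = φ (sc b i j l) := by
  classical
  have hsum : ∀ x : B, π x = ∑ i, φ (b.repr x i) • π (b i) := by
    intro x
    conv_lhs => rw [← b.sum_repr x]
    rw [map_sum]
    refine Finset.sum_congr rfl fun i _ => ?_
    rw [Algebra.smul_def, map_mul, hcomp, Algebra.smul_def]
  have hli : LinearIndependent κ (fun i => π (b i)) := by
    rw [Fintype.linearIndependent_iff]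
    intro g hg i
    choose s hs using hφ
    have h1 : π (∑ j, s (g j) • b j) = 0 := by
      rw [map_sum, ← hg]
      refine Finset.sum_congr rfl fun j _ => ?_
      rw [Algebra.smul_def, map_mul, hcomp, hs, Algebra.smul_def]
    have h2 := hker _ h1 i
    have h3 : b.repr (∑ j, s (g j) • b j) i = s (g i) := by
      simp [Finsupp.single_apply]
    rwa [h3, hs] at h2
  have hsp : ⊤ ≤ Submodule.span κ (Set.range fun i => π (b i)) := by
    intro y _
    obtain ⟨x, rfl⟩ := hπ y
    rw [hsum x]
    exact Submodule.sum_mem _ fun i _ => Submodule.smul_mem _ _ (Submodule.subset_span ⟨i, rfl⟩)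
  obtain ⟨b', hb'⟩ : ∃ b' : Basis ι κ F, ∀ i, b' i = π (b i) :=
    ⟨Basis.mk hli hsp, fun i => Basis.mk_apply _ _ i⟩
  refine ⟨b', fun i j l => ?_⟩
  unfold sc
  rw [hb', hb', ← map_mul, hsum]
  simp only [← hb', map_sum, map_smul, Finsupp.coe_finsetSum, Finset.sum_apply,
    Finsupp.smul_apply, smul_eq_mul, Basis.repr_self]
  simp [Finsupp.single_apply]

theorem not_isSmoothable {F : Type} [CommRing F] [Algebra ℂ F]
    (hZ : finrank ℂ (Z2 ℂ F) < finrank ℂ F * finrank ℂ F) : ¬ IsSmoothable F := by
  classical
  rintro ⟨R, _, _, _, _, φ, B, _, _, hfin, hflat, hred, e, he⟩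
  have hfree : Module.Free R B := Module.free_of_flat_of_isLocalRing
  let ι := Module.Free.ChooseBasisIndex R B
  let b : Basis ι R B := Module.Free.chooseBasis R B
  let π : B →+* F := (e : (B ⧸ (RingHom.ker φ).map (algebraMap R B)) →+* F).comp
    (Ideal.Quotient.mk _)
  have hφ : Function.Surjective φ := fun c => ⟨algebraMap ℂ R c, by simp⟩
  have hπ : Function.Surjective π := e.surjective.comp Ideal.Quotient.mk_surjective
  have hcomp : ∀ r, π (algebraMap R B r) = algebraMap ℂ F ((φ : R →+* ℂ) r) := by
    intro r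
    have h1 : r - algebraMap ℂ R (φ r) ∈ RingHom.ker φ := by
      rw [RingHom.mem_ker]; simp
    have h2 : (Ideal.Quotient.mk ((RingHom.ker φ).map (algebraMap R B)))
        (algebraMap R B (r - algebraMap ℂ R (φ r))) = 0 :=
      Ideal.Quotient.eq_zero_iff_mem.mpr (Ideal.mem_map_of_mem _ h1)
    have h3 : π (algebraMap R B (r - algebraMap ℂ R (φ r))) = 0 := by
      change e _ = 0
      rw [h2, map_zero]
    rw [map_sub, map_sub, sub_eq_zero] at h3
    rw [h3]
    exact he (φ r)
  have hker : ∀ x, π x = 0 → ∀ i, (φ : R →+* ℂ) (b.repr x i) = 0 := by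
    intro x hx
    have h1 : x ∈ (RingHom.ker φ).map (algebraMap R B) := by
      change e _ = 0 at hx
      rw [← map_zero e] at hx
      exact Ideal.Quotient.eq_zero_iff_mem.mp (e.injective hx)
    clear hx
    rw [Ideal.map] at h1
    induction h1 using Submodule.span_induction with
    | mem x hx =>
      obtain ⟨r, hr, rfl⟩ := hx
      intro i
      rw [Algebra.algebraMap_eq_smul_one, map_smul, Finsupp.smul_apply, smul_eq_mul, map_mul]
      have : (φ : R →+* ℂ) r = 0 := hr
      rw [this, zero_mul]
    | zero => intro i; simp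
    | add x y _ _ hx hy => intro i; rw [map_add, Finsupp.add_apply, map_add, hx i, hy i, add_zero]
    | smul a x _ hx =>
      intro i
      have : b.repr (a • x) i = ∑ j, b.repr x j * b.repr (a * b j) i := by
        conv_lhs => rw [← b.sum_repr x, smul_eq_mul, Finset.mul_sum]
        simp only [mul_smul_comm, map_sum, map_smul, Finsupp.coe_finsetSum, Finset.sum_apply,
          Finsupp.smul_apply, smul_eq_mul]
      rw [this, map_sum]
      exact Finset.sum_eq_zero fun j _ => by rw [map_mul, hx j, zero_mul]
  obtain ⟨b', hb'⟩ := exists_basis_reduction b (φ : R →+* ℂ) hφ π hπ hcomp hker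
  -- rank semicontinuity
  obtain ⟨P, hP1, hP2⟩ := exists_rank_le (φ : R →+* ℂ) hφ (cocMat (sc b))
  have hPunit : IsUnit P := by
    by_contra hnu
    have h1 : P ∈ IsLocalRing.maximalIdeal R := (IsLocalRing.mem_maximalIdeal _).mpr hnu
    have h2 : RingHom.ker (φ : R →+* ℂ) = IsLocalRing.maximalIdeal R :=
      IsLocalRing.eq_maximalIdeal (RingHom.ker_isMaximal_of_surjective _ hφ)
    rw [← h2, RingHom.mem_ker] at h1
    exact hP1 h1
  have h3 := hP2 (algebraMap R (FractionRing R)) (hPunit.map _).ne_zero
  rw [cocMat_map, cocMat_map] at h3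
  let bK : Basis ι (FractionRing R) (FractionRing R ⊗[R] B) := Algebra.TensorProduct.basis _ b
  have hbK : sc bK = fun i j l => algebraMap R (FractionRing R) (sc b i j l) := by
    funext i j l
    unfold sc
    rw [Algebra.TensorProduct.basis_apply, Algebra.TensorProduct.basis_apply,
      Algebra.TensorProduct.tmul_mul_tmul, Algebra.TensorProduct.basis_repr_tmul]
    simp
  have hb'2 : sc b' = fun i j l => (φ : R →+* ℂ) (sc b i j l) := by
    funext i j l; exact hb' i j l
  rw [← hbK, ← hb'2] at h3
  have h4 := finrank_Z2_add_rank b'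
  have h5 := finrank_Z2_add_rank bK
  have h6 : finrank ℂ F = Fintype.card ι := Module.finrank_eq_card_basis b'
  have h7 : finrank (FractionRing R) (FractionRing R ⊗[R] B) = Fintype.card ι :=
    Module.finrank_eq_card_basis bK
  have : CharZero R := by
    have := FaithfulSMul.algebraMap_injective ℂ R
    exact charZero_of_injective_algebraMap this
  have : CharZero (FractionRing R) := inferInstance
  have : Module.Finite (FractionRing R) (FractionRing R ⊗[R] B) := inferInstance
  have h8 := sq_le_finrank_Z2 (K := FractionRing R) (E := FractionRing R ⊗[R] B)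
  rw [h7] at h8
  rw [h6] at hZ
  omega

end Pool.Agent.H349R3
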