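import Pool.Agent.H349R3.Net
import Pool.Agent.H349R3.NotSmoothable

/-! Algebras defined by seven quadrics in four variables. -/

set_option maxHeartbeats 4000000

namespace Pool.Agent.H349R3

open Matrix Module

section Defs

variable {R : Type*} [CommRing R]

/-- the seven monomials to be eliminated -/
def NB : Fin 7 → Fin 4 × Fin 4 := ![(0, 0), (0, 1), (1, 1), (2, 2), (2, 3), (3, 3), (1, 2)]

/-- the three basis monomials -/
def BP : Fin 3 → Fin 4 × Fin 4 := ![(0, 2), (0, 3), (1, 3)]

/-- multiplicities -/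
def mu (R : Type*) [CommRing R] : Fin 7 → R := ![1, 2, 1, 1, 2, 1, 2]

/-- coefficients of the seven eliminated monomials in the seven quadrics -/
def Um (S : Fin 7 → Fin 4 → Fin 4 → R) : Matrix (Fin 7) (Fin 7) R :=
  Matrix.of fun j m => mu R m * S j (NB m).1 (NB m).2

/-- coefficients of the three basis monomials in the seven quadrics -/
def Wm (S : Fin 7 → Fin 4 → Fin 4 → R) : Matrix (Fin 7) (Fin 3) R :=
  Matrix.of fun j s => 2 * S j (BP s).1 (BP s).2

/-- which monomial is `z_a z_b` -/
def code : Fin 4 → Fin 4 → Fin 7 ⊕ Fin 3 :=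
  ![![Sum.inl 0, Sum.inl 1, Sum.inr 0, Sum.inr 1],
    ![Sum.inl 1, Sum.inl 2, Sum.inl 6, Sum.inr 2],
    ![Sum.inr 0, Sum.inl 6, Sum.inl 3, Sum.inl 4],
    ![Sum.inr 1, Sum.inr 2, Sum.inl 4, Sum.inl 5]]

/-- expression of the monomial with code `m` in terms of the basis monomials, multiplied by the
determinant -/
def GSc (S : Fin 7 → Fin 4 → Fin 4 → R) (m : Fin 7 ⊕ Fin 3) (s : Fin 3) : R :=
  match m with
  | Sum.inl m => - ((Um S).adjugate * Wm S) m s
  | Sum.inr t => if t = s then (Um S).det else 0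

/-- structure constants -/
def GS (S : Fin 7 → Fin 4 → Fin 4 → R) (a b : Fin 4) (s : Fin 3) : R := GSc S (code a b) s

/-- matrix of the syzygy system -/
def C3 (G : Fin 4 → Fin 4 → Fin 3 → R) : Matrix (Fin 4 × Fin 4 × Fin 4) (Fin 3 × Fin 4) R :=
  Matrix.of fun q p =>
    (if p.2 = q.1 then G q.2.1 q.2.2 p.1 else 0) - (if p.2 = q.2.2 then G q.1 q.2.1 p.1 else 0)

theorem C3_mulVec (G : Fin 4 → Fin 4 → Fin 3 → R) (x : Fin 3 × Fin 4 → R) (a b c : Fin 4) :
    (C3 G).mulVec x (a, b, c) = (∑ s, G b c s * x (s, a)) - ∑ s, G a b s * x (s, c) := by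
  simp only [C3, Matrix.mulVec, dotProduct, Matrix.of_apply, Fintype.sum_prod_type, sub_mul,
    Finset.sum_sub_distrib, ite_mul, zero_mul, Finset.sum_ite_eq', Finset.sum_ite_eq,
    Finset.mem_univ, if_true]

theorem Um_map {R' : Type*} [CommRing R'] (φ : R →+* R') (S : Fin 7 → Fin 4 → Fin 4 → R) :
    (Um S).map φ = Um (fun j a b => φ (S j a b)) := by
  ext j m
  fin_cases m <;> simp [Um, mu, map_ofNat φ 2]

theorem Wm_map {R' : Type*} [CommRing R'] (φ : R →+* R') (S : Fin 7 → Fin 4 → Fin 4 → R) :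
    (Wm S).map φ = Wm (fun j a b => φ (S j a b)) := by
  ext j m
  simp [Wm, map_ofNat φ 2]

theorem det_Um_map {R' : Type*} [CommRing R'] (φ : R →+* R') (S : Fin 7 → Fin 4 → Fin 4 → R) :
    φ (Um S).det = (Um (fun j a b => φ (S j a b))).det := by
  rw [RingHom.map_det, RingHom.mapMatrix_apply, Um_map]

theorem GS_map {R' : Type*} [CommRing R'] (φ : R →+* R') (S : Fin 7 → Fin 4 → Fin 4 → R)
    (a b : Fin 4) (s : Fin 3) : φ (GS S a b s) = GS (fun j a b => φ (S j a b)) a b s := by
  unfold GS GSc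
  rcases code a b with m | t
  · simp only [map_neg]
    congr 1
    have h1 : φ (((Um S).adjugate * Wm S) m s) = (((Um S).adjugate * Wm S).map φ) m s := rfl
    rw [h1, Matrix.map_mul, Wm_map]
    have h2 : ((Um S).adjugate).map φ = (Um (fun j a b => φ (S j a b))).adjugate := by
      have := RingHom.map_adjugate φ (Um S)
      rw [RingHom.mapMatrix_apply, RingHom.mapMatrix_apply, Um_map] at this
      exact this
    rw [h2]
  · simp only [apply_ite φ, map_zero, det_Um_map]

theorem C3_map {R' : Type*} [CommRing R'] (φ : R →+* R') (G : Fin 4 → Fin 4 → Fin 3 → R) :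
    (C3 G).map φ = C3 (fun a b s => φ (G a b s)) := by
  ext q p
  simp [C3, apply_ite φ]

theorem cG_map {R' : Type*} [CommRing R'] (φ : R →+* R') (G : Fin 4 → Fin 4 → Fin 3 → R)
    (i j l : Ix) : φ (cG G i j l) = cG (fun a b s => φ (G a b s)) i j l := by
  rcases i with ⟨⟩ | i | i <;> rcases j with ⟨⟩ | j | j <;> rcases l with ⟨⟩ | l | l <;>
    simp [cG, apply_ite φ]

end Defs

section Alg

variable {K : Type*} [Field K] {F : Type*} [CommRing F] [Algebra K F]
  (z : Fin 4 → F) (S : Fin 7 → Fin 4 → Fin 4 → K)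

/-- the elements of degree at most one -/
def F1 : Submodule K F := Submodule.span K (insert 1 (Set.range z))

theorem one_mem_F1 : (1 : F) ∈ (F1 z : Submodule K F) := Submodule.subset_span (by simp)

theorem z_mem_F1 (a : Fin 4) : z a ∈ (F1 z : Submodule K F) :=
  Submodule.subset_span (by right; exact ⟨a, rfl⟩)

/-- the spanning family -/
noncomputable def vec : Ix → F
  | Sum.inl _ => 1
  | Sum.inr (Sum.inl a) => z a
  | Sum.inr (Sum.inr s) => (Um S).det⁻¹ • (z (BP s).1 * z (BP s).2)

variable {z S}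

theorem sum_quad (hS : ∀ j a b, S j a b = S j b a) (j : Fin 7) :
    ∑ a, ∑ b, S j a b • (z a * z b) =
      (∑ m, (Um S) j m • (z (NB m).1 * z (NB m).2)) + ∑ s, (Wm S) j s • (z (BP s).1 * z (BP s).2) := by
  simp only [Fin.sum_univ_four, Fin.sum_univ_seven, Fin.sum_univ_three, Um, Wm, NB, BP, mu,
    Matrix.of_apply]
  simp only [Matrix.cons_val_zero, Matrix.cons_val_one, Matrix.cons_val]
  rw [hS j 1 0, hS j 2 0, hS j 3 0, hS j 2 1, hS j 3 1, hS j 3 2]
  simp only [Algebra.smul_def, map_mul, map_ofNat, map_one]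
  ring

theorem NB_code (m : Fin 7) : code (NB m).1 (NB m).2 = Sum.inl m := by
  fin_cases m <;> rfl

theorem z_mul_z (a b : Fin 4) : z a * z b =
    (match code a b with
      | Sum.inl m => z (NB m).1 * z (NB m).2
      | Sum.inr s => z (BP s).1 * z (BP s).2) := by
  fin_cases a <;> fin_cases b <;> simp [code, NB, BP] <;> first | rfl | (exact mul_comm _ _)

/-- products of two variables -/
theorem mul_sub_mem (hS : ∀ j a b, S j a b = S j b a) (hdet : (Um S).det ≠ 0)
    (hrel : ∀ j, ∑ a, ∑ b, S j a b • (z a * z b) ∈ (F1 z : Submodule K F)) (a b : Fin 4) :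
    z a * z b - ∑ s, GS S a b s • vec z S (Sum.inr (Sum.inr s)) ∈ (F1 z : Submodule K F) := by
  rw [z_mul_z]
  unfold GS
  rcases code a b with m | t
  · simp only [GSc, vec]
    -- the eliminated monomials
    have h1 : ∑ j, (Um S).adjugate m j • (∑ a, ∑ b, S j a b • (z a * z b)) ∈
        (F1 z : Submodule K F) :=
      Submodule.sum_mem _ fun j _ => Submodule.smul_mem _ _ (hrel j)
    have h2 : ∑ j, (Um S).adjugate m j • (∑ a, ∑ b, S j a b • (z a * z b))
        = (Um S).det • (z (NB m).1 * z (NB m).2)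
          + ∑ s, ((Um S).adjugate * Wm S) m s • (z (BP s).1 * z (BP s).2) := by
      simp only [sum_quad hS, smul_add, Finset.smul_sum, smul_smul, Finset.sum_add_distrib]
      congr 1
      · rw [Finset.sum_comm]
        simp only [← Finset.sum_smul]
        have h3 : ∀ m', ∑ j, (Um S).adjugate m j * (Um S) j m' = if m = m' then (Um S).det else 0 := by
          intro m'
          have := congrFun (congrFun (Matrix.adjugate_mul (Um S)) m) m'
          rw [Matrix.mul_apply, Matrix.smul_apply, Matrix.one_apply] at this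
          rw [this]
          split_ifs <;> simp
        simp only [h3, ite_smul, zero_smul, Finset.sum_ite_eq, Finset.mem_univ, if_true]
      · rw [Finset.sum_comm]
        simp only [← Finset.sum_smul, Matrix.mul_apply]
    rw [h2] at h1
    have h4 := Submodule.smul_mem _ (Um S).det⁻¹ h1
    rw [smul_add, smul_smul, inv_mul_cancel₀ hdet, one_smul, Finset.smul_sum] at h4
    convert h4 using 1
    rw [sub_eq_add_neg, ← Finset.sum_neg_distrib]
    congr 1
    refine Finset.sum_congr rfl fun s _ => ?_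
    rw [neg_smul, neg_neg, smul_comm]
  · have h1 : ∑ s, GSc S (Sum.inr t) s • vec z S (Sum.inr (Sum.inr s)) = z (BP t).1 * z (BP t).2 := by
      rw [Finset.sum_eq_single t]
      · simp only [GSc, vec, if_true, smul_smul, mul_inv_cancel₀ hdet, one_smul]
      · intro s _ hs
        simp only [GSc, if_neg (Ne.symm hs), zero_smul]
      · intro h; exact absurd (Finset.mem_univ t) h
    rw [h1]
    simp only [sub_self]
    exact Submodule.zero_mem _

/-- the span of the eight elements -/
def W8 (z : Fin 4 → F) (S : Fin 7 → Fin 4 → Fin 4 → K) : Submodule K F :=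
  Submodule.span K (Set.range (vec z S))

theorem F1_le_W8 : (F1 z : Submodule K F) ≤ W8 z S := by
  refine Submodule.span_le.mpr ?_
  intro x hx
  rcases hx with rfl | ⟨a, rfl⟩
  · exact Submodule.subset_span ⟨Sum.inl (), rfl⟩
  · exact Submodule.subset_span ⟨Sum.inr (Sum.inl a), rfl⟩

theorem z_mul_F1 (hS : ∀ j a b, S j a b = S j b a) (hdet : (Um S).det ≠ 0)
    (hrel : ∀ j, ∑ a, ∑ b, S j a b • (z a * z b) ∈ (F1 z : Submodule K F)) (a : Fin 4) (x : F)
    (hx : x ∈ (F1 z : Submodule K F)) : z a * x ∈ W8 z S := by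
  have h1 : (F1 z : Submodule K F) ≤ (W8 z S).comap (LinearMap.mulLeft K (z a)) := by
    refine Submodule.span_le.mpr ?_
    intro y hy
    rcases hy with rfl | ⟨b, rfl⟩
    · simp only [Submodule.comap_coe, Set.mem_preimage, LinearMap.mulLeft_apply, mul_one]
      exact F1_le_W8 (z_mem_F1 z a)
    · simp only [Submodule.comap_coe, Set.mem_preimage, LinearMap.mulLeft_apply]
      have h2 := F1_le_W8 (S := S) (mul_sub_mem hS hdet hrel a b)
      have h3 : ∑ s, GS S a b s • vec z S (Sum.inr (Sum.inr s)) ∈ W8 z S :=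
        Submodule.sum_mem _ fun s _ => Submodule.smul_mem _ _ (Submodule.subset_span ⟨_, rfl⟩)
      have := Submodule.add_mem _ h2 h3
      rwa [sub_add_cancel] at this
  exact h1 hx

theorem z_mul_e (hS : ∀ j a b, S j a b = S j b a) (hdet : (Um S).det ≠ 0)
    (hC3 : ∀ x, (C3 (GS S)).mulVec x = 0 → x = 0)
    (hrel : ∀ j, ∑ a, ∑ b, S j a b • (z a * z b) ∈ (F1 z : Submodule K F)) (a : Fin 4) (s : Fin 3) :
    z a * vec z S (Sum.inr (Sum.inr s)) ∈ W8 z S := by
  classical
  rw [← Submodule.Quotient.mk_eq_zero, ← Module.forall_dual_apply_eq_zero_iff K]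
  intro ξ
  let x : Fin 3 × Fin 4 → K := fun p =>
    ξ ((W8 z S).mkQ (z p.2 * vec z S (Sum.inr (Sum.inr p.1))))
  have key : ∀ a b c : Fin 4, ∑ s, GS S b c s * x (s, a) = ξ ((W8 z S).mkQ (z a * (z b * z c))) := by
    intro a b c
    have h1 := z_mul_F1 hS hdet hrel a _ (mul_sub_mem hS hdet hrel b c)
    rw [mul_sub, Finset.mul_sum] at h1
    have h2 : (W8 z S).mkQ (z a * (z b * z c))
        = (W8 z S).mkQ (∑ s, z a * (GS S b c s • vec z S (Sum.inr (Sum.inr s)))) := by
      rw [← sub_eq_zero, ← map_sub]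
      exact (Submodule.Quotient.mk_eq_zero _).mpr h1
    rw [h2, map_sum, map_sum]
    refine Finset.sum_congr rfl fun s _ => ?_
    rw [mul_smul_comm, map_smul, map_smul, smul_eq_mul]
  have hx : x = 0 := by
    apply hC3
    ext ⟨a, b, c⟩
    rw [C3_mulVec, key, Pi.zero_apply]
    have : ∑ s, GS S a b s * x (s, c) = ξ ((W8 z S).mkQ (z c * (z a * z b))) := key c a b
    rw [this, show z c * (z a * z b) = z a * (z b * z c) by ring, sub_self]
  exact congrFun hx (s, a)

theorem W8_eq_top (hS : ∀ j a b, S j a b = S j b a) (hdet : (Um S).det ≠ 0)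
    (hC3 : ∀ x, (C3 (GS S)).mulVec x = 0 → x = 0)
    (hrel : ∀ j, ∑ a, ∑ b, S j a b • (z a * z b) ∈ (F1 z : Submodule K F))
    (hgen : Algebra.adjoin K (Set.range z) = ⊤) : W8 z S = ⊤ := by
  have hz : ∀ a, ∀ w ∈ W8 z S, z a * w ∈ W8 z S := by
    intro a w hw
    have h1 : W8 z S ≤ (W8 z S).comap (LinearMap.mulLeft K (z a)) := by
      refine Submodule.span_le.mpr ?_
      rintro _ ⟨i, rfl⟩
      simp only [Submodule.comap_coe, Set.mem_preimage, LinearMap.mulLeft_apply]
      rcases i with ⟨⟩ | b | s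
      · exact z_mul_F1 hS hdet hrel a _ (one_mem_F1 z)
      · exact z_mul_F1 hS hdet hrel a _ (z_mem_F1 z b)
      · exact z_mul_e hS hdet hC3 hrel a s
    exact h1 hw
  rw [eq_top_iff]
  intro x _
  have hx : x ∈ Algebra.adjoin K (Set.range z) := by rw [hgen]; trivial
  have h2 : ∀ w ∈ W8 z S, x * w ∈ W8 z S := by
    induction hx using Algebra.adjoin_induction with
    | mem x hx =>
      obtain ⟨a, rfl⟩ := hx
      exact hz a
    | algebraMap r =>
      intro w hw
      rw [← Algebra.smul_def]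
      exact Submodule.smul_mem _ _ hw
    | add x y _ _ hx hy =>
      intro w hw
      rw [add_mul]
      exact Submodule.add_mem _ (hx trivial w hw) (hy trivial w hw)
    | mul x y _ _ hx hy =>
      intro w hw
      rw [mul_assoc]
      exact hx trivial _ (hy trivial w hw)
  have h3 := h2 1 (Submodule.subset_span ⟨Sum.inl (), rfl⟩)
  rwa [mul_one] at h3

end Alg

end Pool.Agent.H349R3
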