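import Pool.Agent.H349R3.Eight
import Pool.Agent.H952R2.Sextic.CommonZero

/-! The general linear centre. -/

set_option maxHeartbeats 4000000
set_option linter.unusedSimpArgs false

namespace Pool.Agent.H349R3

open Matrix Module MvPolynomial

section RankInj

variable {K : Type*} [Field K] {m n : Type*} [Fintype m] [Fintype n] [DecidableEq n]

theorem inj_of_rank (A : Matrix m n K) (h : Fintype.card n ≤ A.rank) (x : n → K)
    (hx : A.mulVec x = 0) : x = 0 := by
  have h1 := LinearMap.finrank_range_add_finrank_ker A.mulVecLin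
  rw [Module.finrank_fintype_fun_eq_card] at h1
  have h2 : finrank K (LinearMap.ker A.mulVecLin) = 0 := by
    have : finrank K (LinearMap.range A.mulVecLin) = A.rank := rfl
    omega
  have h3 : LinearMap.ker A.mulVecLin = ⊥ := Submodule.finrank_eq_zero.mp h2
  have h4 : x ∈ LinearMap.ker A.mulVecLin := hx
  rw [h3] at h4
  exact h4

theorem rank_of_inj (A : Matrix m n K) (h : ∀ x, A.mulVec x = 0 → x = 0) :
    Fintype.card n ≤ A.rank := by
  have h1 := LinearMap.finrank_range_add_finrank_ker A.mulVecLin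
  rw [Module.finrank_fintype_fun_eq_card] at h1
  have h3 : LinearMap.ker A.mulVecLin = ⊥ := LinearMap.ker_eq_bot'.mpr h
  rw [h3, finrank_bot] at h1
  have : finrank K (LinearMap.range A.mulVecLin) = A.rank := rfl
  omega

end RankInj

/-- the table of the special restriction -/
noncomputable def T0 (j : Fin 7) : Fin 4 → Fin 4 → ℂ :=
  ![![0 ^ (j : ℕ) + 8 ^ (j : ℕ) + 10 ^ (j : ℕ), 10 ^ (j : ℕ), 0, 0 ^ (j : ℕ)],
    ![10 ^ (j : ℕ), 0 ^ (j : ℕ) + 9 ^ (j : ℕ) + 10 ^ (j : ℕ), 0 ^ (j : ℕ), 0],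
    ![0, 0 ^ (j : ℕ), 0 ^ (j : ℕ) + 11 ^ (j : ℕ) + 13 ^ (j : ℕ), 13 ^ (j : ℕ)],
    ![0 ^ (j : ℕ), 0, 13 ^ (j : ℕ), 0 ^ (j : ℕ) + 12 ^ (j : ℕ) + 13 ^ (j : ℕ)]]

theorem det_Um_T0 : (Um T0).det ≠ 0 := by
  intro hdet
  obtain ⟨c, hc0, hc⟩ := Matrix.exists_vecMul_eq_zero_iff.mpr hdet
  have h : ∀ m, ∑ j, c j * (mu ℂ m * T0 j (NB m).1 (NB m).2) = 0 := fun m => congrFun hc m
  let w : Fin 7 → ℂ := ![0, 8, 9, 10, 11, 12, 13]
  have hw : Function.Injective w := by
    intro a b hab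
    fin_cases a <;> fin_cases b <;> simp [w] at hab ⊢ <;> norm_num at hab
  have hv : (Matrix.vandermonde w).mulVec c = 0 := by
    have e : ∀ i, (Matrix.vandermonde w).mulVec c i = ∑ j : Fin 7, c j * w i ^ (j : ℕ) := by
      intro i
      simp only [Matrix.mulVec, dotProduct, Matrix.vandermonde_apply]
      exact Finset.sum_congr rfl fun j _ => mul_comm _ _
    have h0 := h 0
    have h1 := h 1
    have h2 := h 2
    have h3 := h 3
    have h4 := h 4
    have h5 := h 5
    have h6 := h 6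
    simp only [mu, NB, T0, Matrix.cons_val_zero, Matrix.cons_val_one, Matrix.cons_val,
      Fin.sum_univ_seven] at h0 h1 h2 h3 h4 h5 h6
    ext i
    rw [e]
    fin_cases i <;> simp only [w, Fin.sum_univ_seven, Pi.zero_apply, Matrix.cons_val_zero,
      Matrix.cons_val_one, Matrix.cons_val, Fin.zero_eta, Fin.mk_one, Fin.reduceFinMk]
    · linear_combination h6 / 2
    · linear_combination h0 - h1 / 2 - h6 / 2
    · linear_combination h2 - h1 / 2 - h6 / 2
    · linear_combination h1 / 2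
    · linear_combination h3 - h4 / 2 - h6 / 2
    · linear_combination h5 - h4 / 2 - h6 / 2
    · linear_combination h4 / 2
  exact hc0 (Matrix.eq_zero_of_mulVec_eq_zero (Matrix.det_vandermonde_ne_zero_iff.mpr hw) hv)

theorem GS_T0 (a b : Fin 4) (s : Fin 3) : GS T0 a b s = (Um T0).det * G0 ℂ a b s := by
  let E : Matrix (Fin 7) (Fin 3) ℂ := Matrix.of fun m s => if m = 6 ∧ s = 1 then 1 else 0
  have hW : Wm T0 = Um T0 * E := by
    ext j s
    rw [Matrix.mul_apply]
    simp only [Wm, Um, E, Matrix.of_apply, Fin.sum_univ_seven, mu, NB, BP, T0]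
    fin_cases s <;> simp
  have h1 : (Um T0).adjugate * Wm T0 = (Um T0).det • E := by
    rw [hW, ← Matrix.mul_assoc, Matrix.adjugate_mul, Matrix.smul_mul, Matrix.one_mul]
  unfold GS
  have h2 : ∀ m s, GSc T0 (Sum.inl m) s = - ((Um T0).det * (if m = 6 ∧ s = 1 then 1 else 0)) := by
    intro m s
    simp only [GSc, h1, Matrix.smul_apply, E, Matrix.of_apply, smul_eq_mul]
  have h3 : ∀ t s, GSc T0 (Sum.inr t) s = if t = s then (Um T0).det else 0 := fun t s => rfl
  fin_cases a <;> fin_cases b <;>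
    simp only [code, Matrix.cons_val_zero, Matrix.cons_val_one, Matrix.cons_val, Fin.zero_eta,
      Fin.mk_one, Fin.reduceFinMk, h2, h3, G0] <;>
    fin_cases s <;> simp

theorem C3_inj (δ : ℂ) (hδ : δ ≠ 0) (x : Fin 3 × Fin 4 → ℂ)
    (hx : (C3 (fun a b s => δ * G0 ℂ a b s)).mulVec x = 0) : x = 0 := by
  have h : ∀ a b c, (∑ s, (δ * G0 ℂ b c s) * x (s, a)) - ∑ s, (δ * G0 ℂ a b s) * x (s, c) = 0 := by
    intro a b c
    rw [← C3_mulVec (fun a b s => δ * G0 ℂ a b s), hx]; rfl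
  have k : ∀ (y : ℂ), δ * y = 0 → y = 0 := fun y hy => (mul_eq_zero.mp hy).resolve_left hδ
  have e (a b c : Fin 4) := h a b c
  simp only [Fin.sum_univ_three] at e
  funext p
  obtain ⟨s, a⟩ := p
  have t1 := e 0 0 2
  have t2 := e 0 0 3
  have t3 := e 0 1 3
  have t4 := e 1 0 2
  have t5 := e 1 0 3
  have t6 := e 1 1 3
  have t7 := e 2 2 0
  have t8 := e 2 3 0
  have t9 := e 2 3 1
  have t10 := e 3 2 0
  have t11 := e 3 3 0
  have t12 := e 3 3 1
  simp [G0, hδ] at t1 t2 t3 t4 t5 t6 t7 t8 t9 t10 t11 t12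
  fin_cases s <;> fin_cases a <;> simp_all

end Pool.Agent.H349R3
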