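import Mathlib

/-! Independence of products of square roots. -/

namespace Pool.Agent.H349R3

/-- the subfield `K + K ρ` when `ρ ^ 2 ∈ K` -/
def adjSqrt {Ω : Type*} [Field Ω] (K : Subfield Ω) (ρ : Ω) (h : ρ ^ 2 ∈ K) : Subfield Ω where
  carrier := {z | ∃ x ∈ K, ∃ y ∈ K, z = x + y * ρ}
  mul_mem' := by
    rintro _ _ ⟨x, hx, y, hy, rfl⟩ ⟨x', hx', y', hy', rfl⟩
    refine ⟨x * x' + y * y' * ρ ^ 2, K.add_mem (K.mul_mem hx hx') (K.mul_mem (K.mul_mem hy hy') h),
      x * y' + y * x', K.add_mem (K.mul_mem hx hy') (K.mul_mem hy hx'), by ring⟩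
  one_mem' := ⟨1, K.one_mem, 0, K.zero_mem, by ring⟩
  add_mem' := by
    rintro _ _ ⟨x, hx, y, hy, rfl⟩ ⟨x', hx', y', hy', rfl⟩
    exact ⟨x + x', K.add_mem hx hx', y + y', K.add_mem hy hy', by ring⟩
  zero_mem' := ⟨0, K.zero_mem, 0, K.zero_mem, by ring⟩
  neg_mem' := by
    rintro _ ⟨x, hx, y, hy, rfl⟩
    exact ⟨-x, K.neg_mem hx, -y, K.neg_mem hy, by ring⟩
  inv_mem' := by
    rintro _ ⟨x, hx, y, hy, rfl⟩
    by_cases hn : x ^ 2 - y ^ 2 * ρ ^ 2 = 0
    · have h1 : (x - y * ρ) * (x + y * ρ) = 0 := by linear_combination hn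
      rcases mul_eq_zero.mp h1 with h2 | h2
      · have h3 : x + y * ρ = x + x := by linear_combination -h2
        rw [h3]
        exact ⟨(x + x)⁻¹, K.inv_mem (K.add_mem hx hx), 0, K.zero_mem, by ring⟩
      · rw [h2, inv_zero]
        exact ⟨0, K.zero_mem, 0, K.zero_mem, by ring⟩
    · have hnK : x ^ 2 - y ^ 2 * ρ ^ 2 ∈ K :=
        K.sub_mem (K.pow_mem hx 2) (K.mul_mem (K.pow_mem hy 2) h)
      have hz : x + y * ρ ≠ 0 := by
        intro h0
        apply hn
        have : x = - (y * ρ) := by linear_combination h0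
        rw [this]; ring
      refine ⟨x * (x ^ 2 - y ^ 2 * ρ ^ 2)⁻¹, K.mul_mem hx (K.inv_mem hnK),
        -y * (x ^ 2 - y ^ 2 * ρ ^ 2)⁻¹, K.mul_mem (K.neg_mem hy) (K.inv_mem hnK), ?_⟩
      field_simp
      ring

theorem kummer {Ω : Type*} [Field Ω] [CharZero Ω] {ι : Type*} [DecidableEq ι] (ρ : ι → Ω)
    (s : Finset ι) : ∀ (K : Subfield Ω), (∀ i ∈ s, ρ i ^ 2 ∈ K) →
      (∀ T ⊆ s, T.Nonempty → ∀ κ ∈ K, κ ^ 2 ≠ ∏ i ∈ T, ρ i ^ 2) →
      ∀ p : Finset ι → Ω, (∀ T ⊆ s, p T ∈ K) → ∑ T ∈ s.powerset, p T * ∏ i ∈ T, ρ i = 0 →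
        ∀ T ⊆ s, p T = 0 := by
  induction s using Finset.induction_on with
  | empty =>
    intro K _ _ p _ hsum T hT
    rw [Finset.subset_empty] at hT
    subst hT
    simpa using hsum
  | insert a s ha ih =>
    intro K hK hsq p hp hsum
    have haK : ρ a ^ 2 ∈ K := hK a (Finset.mem_insert_self _ _)
    have hρ : ρ a ∉ K := by
      intro hmem
      have := hsq {a} (by simp) (by simp) (ρ a) hmem
      simp at this
    -- membership in the bigger field
    have hprodK : ∀ T ⊆ s, ∏ i ∈ T, ρ i ^ 2 ∈ K := fun T hT =>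
      K.prod_mem fun i hi => hK i (Finset.mem_insert_of_mem (hT hi))
    have h1 : ∀ i ∈ s, ρ i ^ 2 ∈ adjSqrt K (ρ a) haK := fun i hi =>
      ⟨ρ i ^ 2, hK i (Finset.mem_insert_of_mem hi), 0, K.zero_mem, by ring⟩
    have h2 : ∀ T ⊆ s, T.Nonempty → ∀ κ ∈ adjSqrt K (ρ a) haK, κ ^ 2 ≠ ∏ i ∈ T, ρ i ^ 2 := by
      rintro T hT hTn _ ⟨x, hx, y, hy, rfl⟩ hκ
      have hxy : x * y = 0 := by
        by_contra hne
        apply hρ
        have h3 : ρ a = (∏ i ∈ T, ρ i ^ 2 - x ^ 2 - y ^ 2 * ρ a ^ 2) * (2 * (x * y))⁻¹ := by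
          rw [← hκ, eq_mul_inv_iff_mul_eq₀ (mul_ne_zero two_ne_zero hne)]
          ring
        rw [h3]
        exact K.mul_mem (K.sub_mem (K.sub_mem (hprodK T hT) (K.pow_mem hx 2))
          (K.mul_mem (K.pow_mem hy 2) haK))
          (K.inv_mem (K.mul_mem (by exact_mod_cast natCast_mem K 2) (K.mul_mem hx hy)))
      rcases mul_eq_zero.mp hxy with h0 | h0
      · have haT : a ∉ T := fun h => ha (hT h)
        refine hsq (insert a T) (Finset.insert_subset_insert a hT) (Finset.insert_nonempty _ _)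
          (y * ρ a ^ 2) (K.mul_mem hy haK) ?_
        rw [Finset.prod_insert haT, ← hκ, h0]
        ring
      · refine hsq T (hT.trans (Finset.subset_insert _ _)) hTn x hx ?_
        rw [← hκ, h0]
        ring
    have h3 : ∀ T ⊆ s, p T + p (insert a T) * ρ a ∈ adjSqrt K (ρ a) haK := fun T hT =>
      ⟨p T, hp T (hT.trans (Finset.subset_insert _ _)), p (insert a T),
        hp _ (Finset.insert_subset_insert a hT), rfl⟩
    have h4 : ∑ T ∈ s.powerset, (p T + p (insert a T) * ρ a) * ∏ i ∈ T, ρ i = 0 := by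
      rw [← hsum, Finset.sum_powerset_insert ha, ← Finset.sum_add_distrib]
      refine Finset.sum_congr rfl fun T hT => ?_
      have haT : a ∉ T := fun h => ha (Finset.mem_powerset.mp hT h)
      rw [Finset.prod_insert haT]
      ring
    have h5 := ih (adjSqrt K (ρ a) haK) h1 h2 (fun T => p T + p (insert a T) * ρ a) h3 h4
    have h6 : ∀ T ⊆ s, p T = 0 ∧ p (insert a T) = 0 := by
      intro T hT
      have h7 := h5 T hT
      have h8 : p (insert a T) = 0 := by
        by_contra hne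
        apply hρ
        have : ρ a = - p T * (p (insert a T))⁻¹ := by
          rw [eq_mul_inv_iff_mul_eq₀ hne]
          linear_combination h7
        rw [this]
        exact K.mul_mem (K.neg_mem (hp T (hT.trans (Finset.subset_insert _ _))))
          (K.inv_mem (hp _ (Finset.insert_subset_insert a hT)))
      rw [h8, zero_mul, add_zero] at h7
      exact ⟨h7, h8⟩
    intro T hT
    by_cases haT : a ∈ T
    · have h7 := (h6 (T.erase a) (by
        rw [← Finset.erase_insert ha]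
        exact Finset.erase_subset_erase a hT)).2
      rwa [Finset.insert_erase haT] at h7
    · exact (h6 T ((Finset.subset_insert_iff_of_notMem haT).mp hT)).1

end Pool.Agent.H349R3
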