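import Pool.Agent.H349R3.Cocycle

/-! The algebras `ℂ ⊕ V ⊕ W` with Hilbert function `(1, 4, 3)`, and a member with few cocycles. -/

set_option linter.unusedSimpArgs false
set_option linter.unusedVariables false
set_option maxHeartbeats 4000000

namespace Pool.Agent.H349R3

open Matrix Module

/-- index set of the basis `1, z_0, …, z_3, e_0, e_1, e_2` -/
abbrev Ix := Unit ⊕ (Fin 4 ⊕ Fin 3)

/-- structure constants of the algebra with `z_a z_b = ∑ s, G a b s e_s` -/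
def cG {R : Type*} [CommRing R] (G : Fin 4 → Fin 4 → Fin 3 → R) : Ix → Ix → Ix → R
  | Sum.inl _, j, l => if j = l then 1 else 0
  | Sum.inr i, Sum.inl _, l => if Sum.inr i = l then 1 else 0
  | Sum.inr (Sum.inl a), Sum.inr (Sum.inl b), Sum.inr (Sum.inr s) => G a b s
  | Sum.inr (Sum.inl _), Sum.inr (Sum.inl _), Sum.inr (Sum.inl _) => 0
  | Sum.inr (Sum.inl _), Sum.inr (Sum.inl _), Sum.inl _ => 0
  | Sum.inr (Sum.inl _), Sum.inr (Sum.inr _), _ => 0
  | Sum.inr (Sum.inr _), Sum.inr _, _ => 0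

/-- the special net: `z_0 z_2 = e_0`, `z_0 z_3 = e_1 = - z_1 z_2`, `z_1 z_3 = e_2` -/
def G0 (R : Type*) [CommRing R] : Fin 4 → Fin 4 → Fin 3 → R :=
  ![![![0, 0, 0], ![0, 0, 0], ![1, 0, 0], ![0, 1, 0]],
    ![![0, 0, 0], ![0, 0, 0], ![0, -1, 0], ![0, 0, 1]],
    ![![1, 0, 0], ![0, -1, 0], ![0, 0, 0], ![0, 0, 0]],
    ![![0, 1, 0], ![0, 0, 1], ![0, 0, 0], ![0, 0, 0]]]

section

variable {K : Type*} [Field K]

/-- the coordinates which determine a cocycle -/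
def keep : Ix ⊕ ((Fin 2 × Fin 2) × Ix) ⊕ (Fin 6 × Fin 3) → Ix × Ix × Ix
  | Sum.inl l => (Sum.inl (), Sum.inl (), l)
  | Sum.inr (Sum.inl ((a, b), l)) =>
      (Sum.inr (Sum.inl (![0, 1] a)), Sum.inr (Sum.inl (![2, 3] b)), l)
  | Sum.inr (Sum.inr (k, s)) =>
      (Sum.inr (Sum.inl (![0, 0, 1, 2, 2, 3] k)), Sum.inr (Sum.inl (![0, 1, 1, 2, 3, 3] k)),
        Sum.inr (Sum.inr s))

theorem eq_zero_of_keep (δ : K) (hδ : δ ≠ 0) (f : Ix × Ix × Ix → K)
    (hf : (cocMat (cG (fun a b s => δ * G0 K a b s))).mulVec f = 0)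
    (hk : ∀ t, f (keep t) = 0) : f = 0 := by
  have E : ∀ x y z l, (∑ p, cG (fun a b s => δ * G0 K a b s) x p l * f (y, z, p))
      - (∑ p, cG (fun a b s => δ * G0 K a b s) x y p * f (p, z, l))
      + (∑ p, cG (fun a b s => δ * G0 K a b s) y z p * f (x, p, l))
      - ∑ p, cG (fun a b s => δ * G0 K a b s) p z l * f (x, y, p) = 0 := by
    intro x y z l
    rw [← cocMat_mulVec_inl, hf]; rfl
  have S : ∀ x y l, f (x, y, l) = f (y, x, l) := by
    intro x y l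
    have := congrFun hf (Sum.inr (x, y, l))
    rw [cocMat_mulVec_inr] at this
    simpa [sub_eq_zero] using this
  have k0 : ∀ l, f (Sum.inl (), Sum.inl (), l) = 0 := fun l => hk (Sum.inl l)
  have kzz : ∀ (a b : Fin 2) l, f (Sum.inr (Sum.inl (![0, 1] a)), Sum.inr (Sum.inl (![2, 3] b)), l)
      = 0 := fun a b l => hk (Sum.inr (Sum.inl ((a, b), l)))
  have k02 : ∀ l, f (Sum.inr (Sum.inl 0), Sum.inr (Sum.inl 2), l) = 0 := kzz 0 0
  have k03 : ∀ l, f (Sum.inr (Sum.inl 0), Sum.inr (Sum.inl 3), l) = 0 := kzz 0 1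
  have k12 : ∀ l, f (Sum.inr (Sum.inl 1), Sum.inr (Sum.inl 2), l) = 0 := kzz 1 0
  have k13 : ∀ l, f (Sum.inr (Sum.inl 1), Sum.inr (Sum.inl 3), l) = 0 := kzz 1 1
  have k20 : ∀ l, f (Sum.inr (Sum.inl 2), Sum.inr (Sum.inl 0), l) = 0 := fun l => by rw [S, k02]
  have k30 : ∀ l, f (Sum.inr (Sum.inl 3), Sum.inr (Sum.inl 0), l) = 0 := fun l => by rw [S, k03]
  have k21 : ∀ l, f (Sum.inr (Sum.inl 2), Sum.inr (Sum.inl 1), l) = 0 := fun l => by rw [S, k12]
  have k31 : ∀ l, f (Sum.inr (Sum.inl 3), Sum.inr (Sum.inl 1), l) = 0 := fun l => by rw [S, k13]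
  have kw : ∀ (k : Fin 6) s, f (Sum.inr (Sum.inl (![0, 0, 1, 2, 2, 3] k)),
      Sum.inr (Sum.inl (![0, 1, 1, 2, 3, 3] k)), Sum.inr (Sum.inr s)) = 0 :=
    fun k s => hk (Sum.inr (Sum.inr (k, s)))
  have w00 : ∀ s, f (Sum.inr (Sum.inl 0), Sum.inr (Sum.inl 0), Sum.inr (Sum.inr s)) = 0 := kw 0
  have w01 : ∀ s, f (Sum.inr (Sum.inl 0), Sum.inr (Sum.inl 1), Sum.inr (Sum.inr s)) = 0 := kw 1
  have w11 : ∀ s, f (Sum.inr (Sum.inl 1), Sum.inr (Sum.inl 1), Sum.inr (Sum.inr s)) = 0 := kw 2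
  have w22 : ∀ s, f (Sum.inr (Sum.inl 2), Sum.inr (Sum.inl 2), Sum.inr (Sum.inr s)) = 0 := kw 3
  have w23 : ∀ s, f (Sum.inr (Sum.inl 2), Sum.inr (Sum.inl 3), Sum.inr (Sum.inr s)) = 0 := kw 4
  have w33 : ∀ s, f (Sum.inr (Sum.inl 3), Sum.inr (Sum.inl 3), Sum.inr (Sum.inr s)) = 0 := kw 5
  -- the unit
  have hu : ∀ y l, f (Sum.inl (), y, l) = 0 := by
    intro y l
    have h := E (Sum.inl ()) (Sum.inl ()) y l
    simp only [cG, ite_mul, one_mul, zero_mul, Finset.sum_ite_eq, Finset.sum_ite_eq',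
      Finset.mem_univ, if_true, k0, mul_zero, Finset.sum_const_zero] at h
    linear_combination h
  have hu' : ∀ y l, f (y, Sum.inl (), l) = 0 := fun y l => by rw [S, hu]
  have se : ∀ s a l, f (Sum.inr (Sum.inr s), Sum.inr (Sum.inl a), l)
      = f (Sum.inr (Sum.inl a), Sum.inr (Sum.inr s), l) := fun s a l => S _ _ _
  have s10 : ∀ l, f (Sum.inr (Sum.inl 1), Sum.inr (Sum.inl 0), l)
      = f (Sum.inr (Sum.inl 0), Sum.inr (Sum.inl 1), l) := fun l => S _ _ _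
  have s32 : ∀ l, f (Sum.inr (Sum.inl 3), Sum.inr (Sum.inl 2), l)
      = f (Sum.inr (Sum.inl 2), Sum.inr (Sum.inl 3), l) := fun l => S _ _ _
  have R1z2 : (1) * f ((Sum.inr (Sum.inl 0)), (Sum.inr (Sum.inl 1)), (Sum.inl ())) = 0 := by
    have h0 := E (Sum.inr (Sum.inl 0)) (Sum.inr (Sum.inl 0)) (Sum.inr (Sum.inl 3)) (Sum.inr (Sum.inl 2))
    simp [Fintype.sum_sum_type, Fin.sum_univ_four, Fin.sum_univ_three, cG, G0, hu, hu', se, s10, s32, k02, k03, k12, k13, k20, k30, k21, k31, w00, w01, w11, w22, w23, w33, -mul_eq_zero, -neg_eq_zero, -zero_eq_mul, -zero_eq_neg] at h0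
    have h1 := E (Sum.inr (Sum.inl 0)) (Sum.inr (Sum.inl 1)) (Sum.inr (Sum.inl 2)) (Sum.inr (Sum.inl 2))
    simp [Fintype.sum_sum_type, Fin.sum_univ_four, Fin.sum_univ_three, cG, G0, hu, hu', se, s10, s32, k02, k03, k12, k13, k20, k30, k21, k31, w00, w01, w11, w22, w23, w33, -mul_eq_zero, -neg_eq_zero, -zero_eq_mul, -zero_eq_neg] at h1
    linear_combination (-1) * h0 + (-1) * h1
  have R1z3 : (1) * f ((Sum.inr (Sum.inl 0)), (Sum.inr (Sum.inl 0)), (Sum.inl ())) = 0 := by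
    have h0 := E (Sum.inr (Sum.inl 0)) (Sum.inr (Sum.inl 0)) (Sum.inr (Sum.inl 3)) (Sum.inr (Sum.inl 3))
    simp [Fintype.sum_sum_type, Fin.sum_univ_four, Fin.sum_univ_three, cG, G0, hu, hu', se, s10, s32, k02, k03, k12, k13, k20, k30, k21, k31, w00, w01, w11, w22, w23, w33, -mul_eq_zero, -neg_eq_zero, -zero_eq_mul, -zero_eq_neg] at h0
    have h1 := E (Sum.inr (Sum.inl 0)) (Sum.inr (Sum.inl 1)) (Sum.inr (Sum.inl 2)) (Sum.inr (Sum.inl 3))
    simp [Fintype.sum_sum_type, Fin.sum_univ_four, Fin.sum_univ_three, cG, G0, hu, hu', se, s10, s32, k02, k03, k12, k13, k20, k30, k21, k31, w00, w01, w11, w22, w23, w33, -mul_eq_zero, -neg_eq_zero, -zero_eq_mul, -zero_eq_neg] at h1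
    linear_combination (-1) * h0 + (-1) * h1
  have R1e0 : δ * ((1) * f ((Sum.inr (Sum.inl 0)), (Sum.inr (Sum.inl 1)), (Sum.inr (Sum.inl 0)))) = 0 := by
    have h0 := E (Sum.inr (Sum.inl 0)) (Sum.inr (Sum.inl 0)) (Sum.inr (Sum.inl 3)) (Sum.inr (Sum.inr 0))
    simp [Fintype.sum_sum_type, Fin.sum_univ_four, Fin.sum_univ_three, cG, G0, hu, hu', se, s10, s32, k02, k03, k12, k13, k20, k30, k21, k31, w00, w01, w11, w22, w23, w33, -mul_eq_zero, -neg_eq_zero, -zero_eq_mul, -zero_eq_neg] at h0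
    have h1 := E (Sum.inr (Sum.inl 0)) (Sum.inr (Sum.inl 1)) (Sum.inr (Sum.inl 2)) (Sum.inr (Sum.inr 0))
    simp [Fintype.sum_sum_type, Fin.sum_univ_four, Fin.sum_univ_three, cG, G0, hu, hu', se, s10, s32, k02, k03, k12, k13, k20, k30, k21, k31, w00, w01, w11, w22, w23, w33, -mul_eq_zero, -neg_eq_zero, -zero_eq_mul, -zero_eq_neg] at h1
    linear_combination (-1) * h0 + (-1) * h1
  replace R1e0 := (mul_eq_zero.mp R1e0).resolve_left hδ
  have R1e1 : δ * ((1) * f ((Sum.inr (Sum.inl 0)), (Sum.inr (Sum.inl 0)), (Sum.inr (Sum.inl 0))) + (-1) * f ((Sum.inr (Sum.inl 0)), (Sum.inr (Sum.inl 1)), (Sum.inr (Sum.inl 1)))) = 0 := by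
    have h0 := E (Sum.inr (Sum.inl 0)) (Sum.inr (Sum.inl 0)) (Sum.inr (Sum.inl 3)) (Sum.inr (Sum.inr 1))
    simp [Fintype.sum_sum_type, Fin.sum_univ_four, Fin.sum_univ_three, cG, G0, hu, hu', se, s10, s32, k02, k03, k12, k13, k20, k30, k21, k31, w00, w01, w11, w22, w23, w33, -mul_eq_zero, -neg_eq_zero, -zero_eq_mul, -zero_eq_neg] at h0
    have h1 := E (Sum.inr (Sum.inl 0)) (Sum.inr (Sum.inl 1)) (Sum.inr (Sum.inl 2)) (Sum.inr (Sum.inr 1))
    simp [Fintype.sum_sum_type, Fin.sum_univ_four, Fin.sum_univ_three, cG, G0, hu, hu', se, s10, s32, k02, k03, k12, k13, k20, k30, k21, k31, w00, w01, w11, w22, w23, w33, -mul_eq_zero, -neg_eq_zero, -zero_eq_mul, -zero_eq_neg] at h1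
    linear_combination (-1) * h0 + (-1) * h1
  replace R1e1 := (mul_eq_zero.mp R1e1).resolve_left hδ
  have R1e2 : δ * ((1) * f ((Sum.inr (Sum.inl 0)), (Sum.inr (Sum.inl 0)), (Sum.inr (Sum.inl 1)))) = 0 := by
    have h0 := E (Sum.inr (Sum.inl 0)) (Sum.inr (Sum.inl 0)) (Sum.inr (Sum.inl 3)) (Sum.inr (Sum.inr 2))
    simp [Fintype.sum_sum_type, Fin.sum_univ_four, Fin.sum_univ_three, cG, G0, hu, hu', se, s10, s32, k02, k03, k12, k13, k20, k30, k21, k31, w00, w01, w11, w22, w23, w33, -mul_eq_zero, -neg_eq_zero, -zero_eq_mul, -zero_eq_neg] at h0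
    have h1 := E (Sum.inr (Sum.inl 0)) (Sum.inr (Sum.inl 1)) (Sum.inr (Sum.inl 2)) (Sum.inr (Sum.inr 2))
    simp [Fintype.sum_sum_type, Fin.sum_univ_four, Fin.sum_univ_three, cG, G0, hu, hu', se, s10, s32, k02, k03, k12, k13, k20, k30, k21, k31, w00, w01, w11, w22, w23, w33, -mul_eq_zero, -neg_eq_zero, -zero_eq_mul, -zero_eq_neg] at h1
    linear_combination (-1) * h0 + (-1) * h1
  replace R1e2 := (mul_eq_zero.mp R1e2).resolve_left hδ
  have R2z2 : (1) * f ((Sum.inr (Sum.inl 1)), (Sum.inr (Sum.inl 1)), (Sum.inl ())) = 0 := by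
    have h0 := E (Sum.inr (Sum.inl 1)) (Sum.inr (Sum.inl 0)) (Sum.inr (Sum.inl 3)) (Sum.inr (Sum.inl 2))
    simp [Fintype.sum_sum_type, Fin.sum_univ_four, Fin.sum_univ_three, cG, G0, hu, hu', se, s10, s32, k02, k03, k12, k13, k20, k30, k21, k31, w00, w01, w11, w22, w23, w33, -mul_eq_zero, -neg_eq_zero, -zero_eq_mul, -zero_eq_neg] at h0
    have h1 := E (Sum.inr (Sum.inl 1)) (Sum.inr (Sum.inl 1)) (Sum.inr (Sum.inl 2)) (Sum.inr (Sum.inl 2))
    simp [Fintype.sum_sum_type, Fin.sum_univ_four, Fin.sum_univ_three, cG, G0, hu, hu', se, s10, s32, k02, k03, k12, k13, k20, k30, k21, k31, w00, w01, w11, w22, w23, w33, -mul_eq_zero, -neg_eq_zero, -zero_eq_mul, -zero_eq_neg] at h1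
    linear_combination (-1) * h0 + (-1) * h1
  have R2z3 : (1) * f ((Sum.inr (Sum.inl 0)), (Sum.inr (Sum.inl 1)), (Sum.inl ())) = 0 := by
    have h0 := E (Sum.inr (Sum.inl 1)) (Sum.inr (Sum.inl 0)) (Sum.inr (Sum.inl 3)) (Sum.inr (Sum.inl 3))
    simp [Fintype.sum_sum_type, Fin.sum_univ_four, Fin.sum_univ_three, cG, G0, hu, hu', se, s10, s32, k02, k03, k12, k13, k20, k30, k21, k31, w00, w01, w11, w22, w23, w33, -mul_eq_zero, -neg_eq_zero, -zero_eq_mul, -zero_eq_neg] at h0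
    have h1 := E (Sum.inr (Sum.inl 1)) (Sum.inr (Sum.inl 1)) (Sum.inr (Sum.inl 2)) (Sum.inr (Sum.inl 3))
    simp [Fintype.sum_sum_type, Fin.sum_univ_four, Fin.sum_univ_three, cG, G0, hu, hu', se, s10, s32, k02, k03, k12, k13, k20, k30, k21, k31, w00, w01, w11, w22, w23, w33, -mul_eq_zero, -neg_eq_zero, -zero_eq_mul, -zero_eq_neg] at h1
    linear_combination (-1) * h0 + (-1) * h1
  have R2e0 : δ * ((1) * f ((Sum.inr (Sum.inl 1)), (Sum.inr (Sum.inl 1)), (Sum.inr (Sum.inl 0)))) = 0 := by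
    have h0 := E (Sum.inr (Sum.inl 1)) (Sum.inr (Sum.inl 0)) (Sum.inr (Sum.inl 3)) (Sum.inr (Sum.inr 0))
    simp [Fintype.sum_sum_type, Fin.sum_univ_four, Fin.sum_univ_three, cG, G0, hu, hu', se, s10, s32, k02, k03, k12, k13, k20, k30, k21, k31, w00, w01, w11, w22, w23, w33, -mul_eq_zero, -neg_eq_zero, -zero_eq_mul, -zero_eq_neg] at h0
    have h1 := E (Sum.inr (Sum.inl 1)) (Sum.inr (Sum.inl 1)) (Sum.inr (Sum.inl 2)) (Sum.inr (Sum.inr 0))
    simp [Fintype.sum_sum_type, Fin.sum_univ_four, Fin.sum_univ_three, cG, G0, hu, hu', se, s10, s32, k02, k03, k12, k13, k20, k30, k21, k31, w00, w01, w11, w22, w23, w33, -mul_eq_zero, -neg_eq_zero, -zero_eq_mul, -zero_eq_neg] at h1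
    linear_combination (-1) * h0 + (-1) * h1
  replace R2e0 := (mul_eq_zero.mp R2e0).resolve_left hδ
  have R2e1 : δ * ((1) * f ((Sum.inr (Sum.inl 0)), (Sum.inr (Sum.inl 1)), (Sum.inr (Sum.inl 0))) + (-1) * f ((Sum.inr (Sum.inl 1)), (Sum.inr (Sum.inl 1)), (Sum.inr (Sum.inl 1)))) = 0 := by
    have h0 := E (Sum.inr (Sum.inl 1)) (Sum.inr (Sum.inl 0)) (Sum.inr (Sum.inl 3)) (Sum.inr (Sum.inr 1))
    simp [Fintype.sum_sum_type, Fin.sum_univ_four, Fin.sum_univ_three, cG, G0, hu, hu', se, s10, s32, k02, k03, k12, k13, k20, k30, k21, k31, w00, w01, w11, w22, w23, w33, -mul_eq_zero, -neg_eq_zero, -zero_eq_mul, -zero_eq_neg] at h0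
    have h1 := E (Sum.inr (Sum.inl 1)) (Sum.inr (Sum.inl 1)) (Sum.inr (Sum.inl 2)) (Sum.inr (Sum.inr 1))
    simp [Fintype.sum_sum_type, Fin.sum_univ_four, Fin.sum_univ_three, cG, G0, hu, hu', se, s10, s32, k02, k03, k12, k13, k20, k30, k21, k31, w00, w01, w11, w22, w23, w33, -mul_eq_zero, -neg_eq_zero, -zero_eq_mul, -zero_eq_neg] at h1
    linear_combination (-1) * h0 + (-1) * h1
  replace R2e1 := (mul_eq_zero.mp R2e1).resolve_left hδ
  have R2e2 : δ * ((1) * f ((Sum.inr (Sum.inl 0)), (Sum.inr (Sum.inl 1)), (Sum.inr (Sum.inl 1)))) = 0 := by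
    have h0 := E (Sum.inr (Sum.inl 1)) (Sum.inr (Sum.inl 0)) (Sum.inr (Sum.inl 3)) (Sum.inr (Sum.inr 2))
    simp [Fintype.sum_sum_type, Fin.sum_univ_four, Fin.sum_univ_three, cG, G0, hu, hu', se, s10, s32, k02, k03, k12, k13, k20, k30, k21, k31, w00, w01, w11, w22, w23, w33, -mul_eq_zero, -neg_eq_zero, -zero_eq_mul, -zero_eq_neg] at h0
    have h1 := E (Sum.inr (Sum.inl 1)) (Sum.inr (Sum.inl 1)) (Sum.inr (Sum.inl 2)) (Sum.inr (Sum.inr 2))
    simp [Fintype.sum_sum_type, Fin.sum_univ_four, Fin.sum_univ_three, cG, G0, hu, hu', se, s10, s32, k02, k03, k12, k13, k20, k30, k21, k31, w00, w01, w11, w22, w23, w33, -mul_eq_zero, -neg_eq_zero, -zero_eq_mul, -zero_eq_neg] at h1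
    linear_combination (-1) * h0 + (-1) * h1
  replace R2e2 := (mul_eq_zero.mp R2e2).resolve_left hδ
  have R3z0 : (1) * f ((Sum.inr (Sum.inl 2)), (Sum.inr (Sum.inl 3)), (Sum.inl ())) = 0 := by
    have h0 := E (Sum.inr (Sum.inl 2)) (Sum.inr (Sum.inl 2)) (Sum.inr (Sum.inl 1)) (Sum.inr (Sum.inl 0))
    simp [Fintype.sum_sum_type, Fin.sum_univ_four, Fin.sum_univ_three, cG, G0, hu, hu', se, s10, s32, k02, k03, k12, k13, k20, k30, k21, k31, w00, w01, w11, w22, w23, w33, -mul_eq_zero, -neg_eq_zero, -zero_eq_mul, -zero_eq_neg] at h0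
    have h1 := E (Sum.inr (Sum.inl 2)) (Sum.inr (Sum.inl 3)) (Sum.inr (Sum.inl 0)) (Sum.inr (Sum.inl 0))
    simp [Fintype.sum_sum_type, Fin.sum_univ_four, Fin.sum_univ_three, cG, G0, hu, hu', se, s10, s32, k02, k03, k12, k13, k20, k30, k21, k31, w00, w01, w11, w22, w23, w33, -mul_eq_zero, -neg_eq_zero, -zero_eq_mul, -zero_eq_neg] at h1
    linear_combination (-1) * h0 + (-1) * h1
  have R3z1 : (1) * f ((Sum.inr (Sum.inl 2)), (Sum.inr (Sum.inl 2)), (Sum.inl ())) = 0 := by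
    have h0 := E (Sum.inr (Sum.inl 2)) (Sum.inr (Sum.inl 2)) (Sum.inr (Sum.inl 1)) (Sum.inr (Sum.inl 1))
    simp [Fintype.sum_sum_type, Fin.sum_univ_four, Fin.sum_univ_three, cG, G0, hu, hu', se, s10, s32, k02, k03, k12, k13, k20, k30, k21, k31, w00, w01, w11, w22, w23, w33, -mul_eq_zero, -neg_eq_zero, -zero_eq_mul, -zero_eq_neg] at h0
    have h1 := E (Sum.inr (Sum.inl 2)) (Sum.inr (Sum.inl 3)) (Sum.inr (Sum.inl 0)) (Sum.inr (Sum.inl 1))
    simp [Fintype.sum_sum_type, Fin.sum_univ_four, Fin.sum_univ_three, cG, G0, hu, hu', se, s10, s32, k02, k03, k12, k13, k20, k30, k21, k31, w00, w01, w11, w22, w23, w33, -mul_eq_zero, -neg_eq_zero, -zero_eq_mul, -zero_eq_neg] at h1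
    linear_combination (-1) * h0 + (-1) * h1
  have R3e0 : δ * ((1) * f ((Sum.inr (Sum.inl 2)), (Sum.inr (Sum.inl 3)), (Sum.inr (Sum.inl 2)))) = 0 := by
    have h0 := E (Sum.inr (Sum.inl 2)) (Sum.inr (Sum.inl 2)) (Sum.inr (Sum.inl 1)) (Sum.inr (Sum.inr 0))
    simp [Fintype.sum_sum_type, Fin.sum_univ_four, Fin.sum_univ_three, cG, G0, hu, hu', se, s10, s32, k02, k03, k12, k13, k20, k30, k21, k31, w00, w01, w11, w22, w23, w33, -mul_eq_zero, -neg_eq_zero, -zero_eq_mul, -zero_eq_neg] at h0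
    have h1 := E (Sum.inr (Sum.inl 2)) (Sum.inr (Sum.inl 3)) (Sum.inr (Sum.inl 0)) (Sum.inr (Sum.inr 0))
    simp [Fintype.sum_sum_type, Fin.sum_univ_four, Fin.sum_univ_three, cG, G0, hu, hu', se, s10, s32, k02, k03, k12, k13, k20, k30, k21, k31, w00, w01, w11, w22, w23, w33, -mul_eq_zero, -neg_eq_zero, -zero_eq_mul, -zero_eq_neg] at h1
    linear_combination (-1) * h0 + (-1) * h1
  replace R3e0 := (mul_eq_zero.mp R3e0).resolve_left hδ
  have R3e1 : δ * ((-1) * f ((Sum.inr (Sum.inl 2)), (Sum.inr (Sum.inl 2)), (Sum.inr (Sum.inl 2))) + (1) * f ((Sum.inr (Sum.inl 2)), (Sum.inr (Sum.inl 3)), (Sum.inr (Sum.inl 3)))) = 0 := by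
    have h0 := E (Sum.inr (Sum.inl 2)) (Sum.inr (Sum.inl 2)) (Sum.inr (Sum.inl 1)) (Sum.inr (Sum.inr 1))
    simp [Fintype.sum_sum_type, Fin.sum_univ_four, Fin.sum_univ_three, cG, G0, hu, hu', se, s10, s32, k02, k03, k12, k13, k20, k30, k21, k31, w00, w01, w11, w22, w23, w33, -mul_eq_zero, -neg_eq_zero, -zero_eq_mul, -zero_eq_neg] at h0
    have h1 := E (Sum.inr (Sum.inl 2)) (Sum.inr (Sum.inl 3)) (Sum.inr (Sum.inl 0)) (Sum.inr (Sum.inr 1))
    simp [Fintype.sum_sum_type, Fin.sum_univ_four, Fin.sum_univ_three, cG, G0, hu, hu', se, s10, s32, k02, k03, k12, k13, k20, k30, k21, k31, w00, w01, w11, w22, w23, w33, -mul_eq_zero, -neg_eq_zero, -zero_eq_mul, -zero_eq_neg] at h1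
    linear_combination (-1) * h0 + (-1) * h1
  replace R3e1 := (mul_eq_zero.mp R3e1).resolve_left hδ
  have R3e2 : δ * ((1) * f ((Sum.inr (Sum.inl 2)), (Sum.inr (Sum.inl 2)), (Sum.inr (Sum.inl 3)))) = 0 := by
    have h0 := E (Sum.inr (Sum.inl 2)) (Sum.inr (Sum.inl 2)) (Sum.inr (Sum.inl 1)) (Sum.inr (Sum.inr 2))
    simp [Fintype.sum_sum_type, Fin.sum_univ_four, Fin.sum_univ_three, cG, G0, hu, hu', se, s10, s32, k02, k03, k12, k13, k20, k30, k21, k31, w00, w01, w11, w22, w23, w33, -mul_eq_zero, -neg_eq_zero, -zero_eq_mul, -zero_eq_neg] at h0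
    have h1 := E (Sum.inr (Sum.inl 2)) (Sum.inr (Sum.inl 3)) (Sum.inr (Sum.inl 0)) (Sum.inr (Sum.inr 2))
    simp [Fintype.sum_sum_type, Fin.sum_univ_four, Fin.sum_univ_three, cG, G0, hu, hu', se, s10, s32, k02, k03, k12, k13, k20, k30, k21, k31, w00, w01, w11, w22, w23, w33, -mul_eq_zero, -neg_eq_zero, -zero_eq_mul, -zero_eq_neg] at h1
    linear_combination (-1) * h0 + (-1) * h1
  replace R3e2 := (mul_eq_zero.mp R3e2).resolve_left hδ
  have R4z0 : (1) * f ((Sum.inr (Sum.inl 3)), (Sum.inr (Sum.inl 3)), (Sum.inl ())) = 0 := by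
    have h0 := E (Sum.inr (Sum.inl 3)) (Sum.inr (Sum.inl 2)) (Sum.inr (Sum.inl 1)) (Sum.inr (Sum.inl 0))
    simp [Fintype.sum_sum_type, Fin.sum_univ_four, Fin.sum_univ_three, cG, G0, hu, hu', se, s10, s32, k02, k03, k12, k13, k20, k30, k21, k31, w00, w01, w11, w22, w23, w33, -mul_eq_zero, -neg_eq_zero, -zero_eq_mul, -zero_eq_neg] at h0
    have h1 := E (Sum.inr (Sum.inl 3)) (Sum.inr (Sum.inl 3)) (Sum.inr (Sum.inl 0)) (Sum.inr (Sum.inl 0))
    simp [Fintype.sum_sum_type, Fin.sum_univ_four, Fin.sum_univ_three, cG, G0, hu, hu', se, s10, s32, k02, k03, k12, k13, k20, k30, k21, k31, w00, w01, w11, w22, w23, w33, -mul_eq_zero, -neg_eq_zero, -zero_eq_mul, -zero_eq_neg] at h1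
    linear_combination (-1) * h0 + (-1) * h1
  have R4z1 : (1) * f ((Sum.inr (Sum.inl 2)), (Sum.inr (Sum.inl 3)), (Sum.inl ())) = 0 := by
    have h0 := E (Sum.inr (Sum.inl 3)) (Sum.inr (Sum.inl 2)) (Sum.inr (Sum.inl 1)) (Sum.inr (Sum.inl 1))
    simp [Fintype.sum_sum_type, Fin.sum_univ_four, Fin.sum_univ_three, cG, G0, hu, hu', se, s10, s32, k02, k03, k12, k13, k20, k30, k21, k31, w00, w01, w11, w22, w23, w33, -mul_eq_zero, -neg_eq_zero, -zero_eq_mul, -zero_eq_neg] at h0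
    have h1 := E (Sum.inr (Sum.inl 3)) (Sum.inr (Sum.inl 3)) (Sum.inr (Sum.inl 0)) (Sum.inr (Sum.inl 1))
    simp [Fintype.sum_sum_type, Fin.sum_univ_four, Fin.sum_univ_three, cG, G0, hu, hu', se, s10, s32, k02, k03, k12, k13, k20, k30, k21, k31, w00, w01, w11, w22, w23, w33, -mul_eq_zero, -neg_eq_zero, -zero_eq_mul, -zero_eq_neg] at h1
    linear_combination (-1) * h0 + (-1) * h1
  have R4e0 : δ * ((1) * f ((Sum.inr (Sum.inl 3)), (Sum.inr (Sum.inl 3)), (Sum.inr (Sum.inl 2)))) = 0 := by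
    have h0 := E (Sum.inr (Sum.inl 3)) (Sum.inr (Sum.inl 2)) (Sum.inr (Sum.inl 1)) (Sum.inr (Sum.inr 0))
    simp [Fintype.sum_sum_type, Fin.sum_univ_four, Fin.sum_univ_three, cG, G0, hu, hu', se, s10, s32, k02, k03, k12, k13, k20, k30, k21, k31, w00, w01, w11, w22, w23, w33, -mul_eq_zero, -neg_eq_zero, -zero_eq_mul, -zero_eq_neg] at h0
    have h1 := E (Sum.inr (Sum.inl 3)) (Sum.inr (Sum.inl 3)) (Sum.inr (Sum.inl 0)) (Sum.inr (Sum.inr 0))
    simp [Fintype.sum_sum_type, Fin.sum_univ_four, Fin.sum_univ_three, cG, G0, hu, hu', se, s10, s32, k02, k03, k12, k13, k20, k30, k21, k31, w00, w01, w11, w22, w23, w33, -mul_eq_zero, -neg_eq_zero, -zero_eq_mul, -zero_eq_neg] at h1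
    linear_combination (-1) * h0 + (-1) * h1
  replace R4e0 := (mul_eq_zero.mp R4e0).resolve_left hδ
  have R4e1 : δ * ((-1) * f ((Sum.inr (Sum.inl 2)), (Sum.inr (Sum.inl 3)), (Sum.inr (Sum.inl 2))) + (1) * f ((Sum.inr (Sum.inl 3)), (Sum.inr (Sum.inl 3)), (Sum.inr (Sum.inl 3)))) = 0 := by
    have h0 := E (Sum.inr (Sum.inl 3)) (Sum.inr (Sum.inl 2)) (Sum.inr (Sum.inl 1)) (Sum.inr (Sum.inr 1))
    simp [Fintype.sum_sum_type, Fin.sum_univ_four, Fin.sum_univ_three, cG, G0, hu, hu', se, s10, s32, k02, k03, k12, k13, k20, k30, k21, k31, w00, w01, w11, w22, w23, w33, -mul_eq_zero, -neg_eq_zero, -zero_eq_mul, -zero_eq_neg] at h0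
    have h1 := E (Sum.inr (Sum.inl 3)) (Sum.inr (Sum.inl 3)) (Sum.inr (Sum.inl 0)) (Sum.inr (Sum.inr 1))
    simp [Fintype.sum_sum_type, Fin.sum_univ_four, Fin.sum_univ_three, cG, G0, hu, hu', se, s10, s32, k02, k03, k12, k13, k20, k30, k21, k31, w00, w01, w11, w22, w23, w33, -mul_eq_zero, -neg_eq_zero, -zero_eq_mul, -zero_eq_neg] at h1
    linear_combination (-1) * h0 + (-1) * h1
  replace R4e1 := (mul_eq_zero.mp R4e1).resolve_left hδ
  have R4e2 : δ * ((1) * f ((Sum.inr (Sum.inl 2)), (Sum.inr (Sum.inl 3)), (Sum.inr (Sum.inl 3)))) = 0 := by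
    have h0 := E (Sum.inr (Sum.inl 3)) (Sum.inr (Sum.inl 2)) (Sum.inr (Sum.inl 1)) (Sum.inr (Sum.inr 2))
    simp [Fintype.sum_sum_type, Fin.sum_univ_four, Fin.sum_univ_three, cG, G0, hu, hu', se, s10, s32, k02, k03, k12, k13, k20, k30, k21, k31, w00, w01, w11, w22, w23, w33, -mul_eq_zero, -neg_eq_zero, -zero_eq_mul, -zero_eq_neg] at h0
    have h1 := E (Sum.inr (Sum.inl 3)) (Sum.inr (Sum.inl 3)) (Sum.inr (Sum.inl 0)) (Sum.inr (Sum.inr 2))
    simp [Fintype.sum_sum_type, Fin.sum_univ_four, Fin.sum_univ_three, cG, G0, hu, hu', se, s10, s32, k02, k03, k12, k13, k20, k30, k21, k31, w00, w01, w11, w22, w23, w33, -mul_eq_zero, -neg_eq_zero, -zero_eq_mul, -zero_eq_neg] at h1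
    linear_combination (-1) * h0 + (-1) * h1
  replace R4e2 := (mul_eq_zero.mp R4e2).resolve_left hδ
  have R5e0 : δ * ((1) * f ((Sum.inr (Sum.inl 0)), (Sum.inr (Sum.inl 1)), (Sum.inr (Sum.inl 2)))) = 0 := by
    have h0 := E (Sum.inr (Sum.inl 0)) (Sum.inr (Sum.inl 0)) (Sum.inr (Sum.inl 1)) (Sum.inr (Sum.inr 0))
    simp [Fintype.sum_sum_type, Fin.sum_univ_four, Fin.sum_univ_three, cG, G0, hu, hu', se, s10, s32, k02, k03, k12, k13, k20, k30, k21, k31, w00, w01, w11, w22, w23, w33, -mul_eq_zero, -neg_eq_zero, -zero_eq_mul, -zero_eq_neg] at h0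
    linear_combination (1) * h0
  replace R5e0 := (mul_eq_zero.mp R5e0).resolve_left hδ
  have R5e1 : δ * ((1) * f ((Sum.inr (Sum.inl 0)), (Sum.inr (Sum.inl 1)), (Sum.inr (Sum.inl 3))) + (1) * f ((Sum.inr (Sum.inl 0)), (Sum.inr (Sum.inl 0)), (Sum.inr (Sum.inl 2)))) = 0 := by
    have h0 := E (Sum.inr (Sum.inl 0)) (Sum.inr (Sum.inl 0)) (Sum.inr (Sum.inl 1)) (Sum.inr (Sum.inr 1))
    simp [Fintype.sum_sum_type, Fin.sum_univ_four, Fin.sum_univ_three, cG, G0, hu, hu', se, s10, s32, k02, k03, k12, k13, k20, k30, k21, k31, w00, w01, w11, w22, w23, w33, -mul_eq_zero, -neg_eq_zero, -zero_eq_mul, -zero_eq_neg] at h0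
    linear_combination (1) * h0
  replace R5e1 := (mul_eq_zero.mp R5e1).resolve_left hδ
  have R5e2 : δ * ((-1) * f ((Sum.inr (Sum.inl 0)), (Sum.inr (Sum.inl 0)), (Sum.inr (Sum.inl 3)))) = 0 := by
    have h0 := E (Sum.inr (Sum.inl 0)) (Sum.inr (Sum.inl 0)) (Sum.inr (Sum.inl 1)) (Sum.inr (Sum.inr 2))
    simp [Fintype.sum_sum_type, Fin.sum_univ_four, Fin.sum_univ_three, cG, G0, hu, hu', se, s10, s32, k02, k03, k12, k13, k20, k30, k21, k31, w00, w01, w11, w22, w23, w33, -mul_eq_zero, -neg_eq_zero, -zero_eq_mul, -zero_eq_neg] at h0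
    linear_combination (1) * h0
  replace R5e2 := (mul_eq_zero.mp R5e2).resolve_left hδ
  have R6e0 : δ * ((1) * f ((Sum.inr (Sum.inl 1)), (Sum.inr (Sum.inl 1)), (Sum.inr (Sum.inl 2)))) = 0 := by
    have h0 := E (Sum.inr (Sum.inl 0)) (Sum.inr (Sum.inl 1)) (Sum.inr (Sum.inl 1)) (Sum.inr (Sum.inr 0))
    simp [Fintype.sum_sum_type, Fin.sum_univ_four, Fin.sum_univ_three, cG, G0, hu, hu', se, s10, s32, k02, k03, k12, k13, k20, k30, k21, k31, w00, w01, w11, w22, w23, w33, -mul_eq_zero, -neg_eq_zero, -zero_eq_mul, -zero_eq_neg] at h0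
    linear_combination (1) * h0
  replace R6e0 := (mul_eq_zero.mp R6e0).resolve_left hδ
  have R6e1 : δ * ((1) * f ((Sum.inr (Sum.inl 1)), (Sum.inr (Sum.inl 1)), (Sum.inr (Sum.inl 3))) + (1) * f ((Sum.inr (Sum.inl 0)), (Sum.inr (Sum.inl 1)), (Sum.inr (Sum.inl 2)))) = 0 := by
    have h0 := E (Sum.inr (Sum.inl 0)) (Sum.inr (Sum.inl 1)) (Sum.inr (Sum.inl 1)) (Sum.inr (Sum.inr 1))
    simp [Fintype.sum_sum_type, Fin.sum_univ_four, Fin.sum_univ_three, cG, G0, hu, hu', se, s10, s32, k02, k03, k12, k13, k20, k30, k21, k31, w00, w01, w11, w22, w23, w33, -mul_eq_zero, -neg_eq_zero, -zero_eq_mul, -zero_eq_neg] at h0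
    linear_combination (1) * h0
  replace R6e1 := (mul_eq_zero.mp R6e1).resolve_left hδ
  have R6e2 : δ * ((-1) * f ((Sum.inr (Sum.inl 0)), (Sum.inr (Sum.inl 1)), (Sum.inr (Sum.inl 3)))) = 0 := by
    have h0 := E (Sum.inr (Sum.inl 0)) (Sum.inr (Sum.inl 1)) (Sum.inr (Sum.inl 1)) (Sum.inr (Sum.inr 2))
    simp [Fintype.sum_sum_type, Fin.sum_univ_four, Fin.sum_univ_three, cG, G0, hu, hu', se, s10, s32, k02, k03, k12, k13, k20, k30, k21, k31, w00, w01, w11, w22, w23, w33, -mul_eq_zero, -neg_eq_zero, -zero_eq_mul, -zero_eq_neg] at h0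
    linear_combination (1) * h0
  replace R6e2 := (mul_eq_zero.mp R6e2).resolve_left hδ
  have R7e0 : δ * ((1) * f ((Sum.inr (Sum.inl 2)), (Sum.inr (Sum.inl 3)), (Sum.inr (Sum.inl 0)))) = 0 := by
    have h0 := E (Sum.inr (Sum.inl 2)) (Sum.inr (Sum.inl 2)) (Sum.inr (Sum.inl 3)) (Sum.inr (Sum.inr 0))
    simp [Fintype.sum_sum_type, Fin.sum_univ_four, Fin.sum_univ_three, cG, G0, hu, hu', se, s10, s32, k02, k03, k12, k13, k20, k30, k21, k31, w00, w01, w11, w22, w23, w33, -mul_eq_zero, -neg_eq_zero, -zero_eq_mul, -zero_eq_neg] at h0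
    linear_combination (1) * h0
  replace R7e0 := (mul_eq_zero.mp R7e0).resolve_left hδ
  have R7e1 : δ * ((-1) * f ((Sum.inr (Sum.inl 2)), (Sum.inr (Sum.inl 3)), (Sum.inr (Sum.inl 1))) + (-1) * f ((Sum.inr (Sum.inl 2)), (Sum.inr (Sum.inl 2)), (Sum.inr (Sum.inl 0)))) = 0 := by
    have h0 := E (Sum.inr (Sum.inl 2)) (Sum.inr (Sum.inl 2)) (Sum.inr (Sum.inl 3)) (Sum.inr (Sum.inr 1))
    simp [Fintype.sum_sum_type, Fin.sum_univ_four, Fin.sum_univ_three, cG, G0, hu, hu', se, s10, s32, k02, k03, k12, k13, k20, k30, k21, k31, w00, w01, w11, w22, w23, w33, -mul_eq_zero, -neg_eq_zero, -zero_eq_mul, -zero_eq_neg] at h0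
    linear_combination (1) * h0
  replace R7e1 := (mul_eq_zero.mp R7e1).resolve_left hδ
  have R7e2 : δ * ((-1) * f ((Sum.inr (Sum.inl 2)), (Sum.inr (Sum.inl 2)), (Sum.inr (Sum.inl 1)))) = 0 := by
    have h0 := E (Sum.inr (Sum.inl 2)) (Sum.inr (Sum.inl 2)) (Sum.inr (Sum.inl 3)) (Sum.inr (Sum.inr 2))
    simp [Fintype.sum_sum_type, Fin.sum_univ_four, Fin.sum_univ_three, cG, G0, hu, hu', se, s10, s32, k02, k03, k12, k13, k20, k30, k21, k31, w00, w01, w11, w22, w23, w33, -mul_eq_zero, -neg_eq_zero, -zero_eq_mul, -zero_eq_neg] at h0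
    linear_combination (1) * h0
  replace R7e2 := (mul_eq_zero.mp R7e2).resolve_left hδ
  have R8e0 : δ * ((1) * f ((Sum.inr (Sum.inl 3)), (Sum.inr (Sum.inl 3)), (Sum.inr (Sum.inl 0)))) = 0 := by
    have h0 := E (Sum.inr (Sum.inl 2)) (Sum.inr (Sum.inl 3)) (Sum.inr (Sum.inl 3)) (Sum.inr (Sum.inr 0))
    simp [Fintype.sum_sum_type, Fin.sum_univ_four, Fin.sum_univ_three, cG, G0, hu, hu', se, s10, s32, k02, k03, k12, k13, k20, k30, k21, k31, w00, w01, w11, w22, w23, w33, -mul_eq_zero, -neg_eq_zero, -zero_eq_mul, -zero_eq_neg] at h0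
    linear_combination (1) * h0
  replace R8e0 := (mul_eq_zero.mp R8e0).resolve_left hδ
  have R8e1 : δ * ((-1) * f ((Sum.inr (Sum.inl 3)), (Sum.inr (Sum.inl 3)), (Sum.inr (Sum.inl 1))) + (-1) * f ((Sum.inr (Sum.inl 2)), (Sum.inr (Sum.inl 3)), (Sum.inr (Sum.inl 0)))) = 0 := by
    have h0 := E (Sum.inr (Sum.inl 2)) (Sum.inr (Sum.inl 3)) (Sum.inr (Sum.inl 3)) (Sum.inr (Sum.inr 1))
    simp [Fintype.sum_sum_type, Fin.sum_univ_four, Fin.sum_univ_three, cG, G0, hu, hu', se, s10, s32, k02, k03, k12, k13, k20, k30, k21, k31, w00, w01, w11, w22, w23, w33, -mul_eq_zero, -neg_eq_zero, -zero_eq_mul, -zero_eq_neg] at h0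
    linear_combination (1) * h0
  replace R8e1 := (mul_eq_zero.mp R8e1).resolve_left hδ
  have R8e2 : δ * ((-1) * f ((Sum.inr (Sum.inl 2)), (Sum.inr (Sum.inl 3)), (Sum.inr (Sum.inl 1)))) = 0 := by
    have h0 := E (Sum.inr (Sum.inl 2)) (Sum.inr (Sum.inl 3)) (Sum.inr (Sum.inl 3)) (Sum.inr (Sum.inr 2))
    simp [Fintype.sum_sum_type, Fin.sum_univ_four, Fin.sum_univ_three, cG, G0, hu, hu', se, s10, s32, k02, k03, k12, k13, k20, k30, k21, k31, w00, w01, w11, w22, w23, w33, -mul_eq_zero, -neg_eq_zero, -zero_eq_mul, -zero_eq_neg] at h0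
    linear_combination (1) * h0
  replace R8e2 := (mul_eq_zero.mp R8e2).resolve_left hδ
  have F00u : f ((Sum.inr (Sum.inl 0)), (Sum.inr (Sum.inl 0)), (Sum.inl ())) = 0 := by linear_combination (1) * R1z3
  have F00z0 : f ((Sum.inr (Sum.inl 0)), (Sum.inr (Sum.inl 0)), (Sum.inr (Sum.inl 0))) = 0 := by linear_combination (1) * R1e1 + (1) * R2e2
  have F00z1 : f ((Sum.inr (Sum.inl 0)), (Sum.inr (Sum.inl 0)), (Sum.inr (Sum.inl 1))) = 0 := by linear_combination (1) * R1e2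
  have F00z2 : f ((Sum.inr (Sum.inl 0)), (Sum.inr (Sum.inl 0)), (Sum.inr (Sum.inl 2))) = 0 := by linear_combination (1) * R5e1 + (1) * R6e2
  have F00z3 : f ((Sum.inr (Sum.inl 0)), (Sum.inr (Sum.inl 0)), (Sum.inr (Sum.inl 3))) = 0 := by linear_combination (-1) * R5e2
  have F00 : ∀ l, f ((Sum.inr (Sum.inl 0)), (Sum.inr (Sum.inl 0)), l) = 0 := by
    rintro (⟨⟩ | l | l)
    · exact F00u
    · fin_cases l
      · exact F00z0
      · exact F00z1
      · exact F00z2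
      · exact F00z3
    · exact w00 l
  have F01u : f ((Sum.inr (Sum.inl 0)), (Sum.inr (Sum.inl 1)), (Sum.inl ())) = 0 := by linear_combination (1) * R1z2
  have F01z0 : f ((Sum.inr (Sum.inl 0)), (Sum.inr (Sum.inl 1)), (Sum.inr (Sum.inl 0))) = 0 := by linear_combination (1) * R1e0
  have F01z1 : f ((Sum.inr (Sum.inl 0)), (Sum.inr (Sum.inl 1)), (Sum.inr (Sum.inl 1))) = 0 := by linear_combination (1) * R2e2
  have F01z2 : f ((Sum.inr (Sum.inl 0)), (Sum.inr (Sum.inl 1)), (Sum.inr (Sum.inl 2))) = 0 := by linear_combination (1) * R5e0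
  have F01z3 : f ((Sum.inr (Sum.inl 0)), (Sum.inr (Sum.inl 1)), (Sum.inr (Sum.inl 3))) = 0 := by linear_combination (-1) * R6e2
  have F01 : ∀ l, f ((Sum.inr (Sum.inl 0)), (Sum.inr (Sum.inl 1)), l) = 0 := by
    rintro (⟨⟩ | l | l)
    · exact F01u
    · fin_cases l
      · exact F01z0
      · exact F01z1
      · exact F01z2
      · exact F01z3
    · exact w01 l
  have F11u : f ((Sum.inr (Sum.inl 1)), (Sum.inr (Sum.inl 1)), (Sum.inl ())) = 0 := by linear_combination (1) * R2z2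
  have F11z0 : f ((Sum.inr (Sum.inl 1)), (Sum.inr (Sum.inl 1)), (Sum.inr (Sum.inl 0))) = 0 := by linear_combination (1) * R2e0
  have F11z1 : f ((Sum.inr (Sum.inl 1)), (Sum.inr (Sum.inl 1)), (Sum.inr (Sum.inl 1))) = 0 := by linear_combination (-1) * R2e1 + (1) * R1e0
  have F11z2 : f ((Sum.inr (Sum.inl 1)), (Sum.inr (Sum.inl 1)), (Sum.inr (Sum.inl 2))) = 0 := by linear_combination (1) * R6e0
  have F11z3 : f ((Sum.inr (Sum.inl 1)), (Sum.inr (Sum.inl 1)), (Sum.inr (Sum.inl 3))) = 0 := by linear_combination (1) * R6e1 + (-1) * R5e0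
  have F11 : ∀ l, f ((Sum.inr (Sum.inl 1)), (Sum.inr (Sum.inl 1)), l) = 0 := by
    rintro (⟨⟩ | l | l)
    · exact F11u
    · fin_cases l
      · exact F11z0
      · exact F11z1
      · exact F11z2
      · exact F11z3
    · exact w11 l
  have F22u : f ((Sum.inr (Sum.inl 2)), (Sum.inr (Sum.inl 2)), (Sum.inl ())) = 0 := by linear_combination (1) * R3z1
  have F22z0 : f ((Sum.inr (Sum.inl 2)), (Sum.inr (Sum.inl 2)), (Sum.inr (Sum.inl 0))) = 0 := by linear_combination (-1) * R7e1 + (1) * R8e2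
  have F22z1 : f ((Sum.inr (Sum.inl 2)), (Sum.inr (Sum.inl 2)), (Sum.inr (Sum.inl 1))) = 0 := by linear_combination (-1) * R7e2
  have F22z2 : f ((Sum.inr (Sum.inl 2)), (Sum.inr (Sum.inl 2)), (Sum.inr (Sum.inl 2))) = 0 := by linear_combination (-1) * R3e1 + (1) * R4e2
  have F22z3 : f ((Sum.inr (Sum.inl 2)), (Sum.inr (Sum.inl 2)), (Sum.inr (Sum.inl 3))) = 0 := by linear_combination (1) * R3e2
  have F22 : ∀ l, f ((Sum.inr (Sum.inl 2)), (Sum.inr (Sum.inl 2)), l) = 0 := by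
    rintro (⟨⟩ | l | l)
    · exact F22u
    · fin_cases l
      · exact F22z0
      · exact F22z1
      · exact F22z2
      · exact F22z3
    · exact w22 l
  have F23u : f ((Sum.inr (Sum.inl 2)), (Sum.inr (Sum.inl 3)), (Sum.inl ())) = 0 := by linear_combination (1) * R3z0
  have F23z0 : f ((Sum.inr (Sum.inl 2)), (Sum.inr (Sum.inl 3)), (Sum.inr (Sum.inl 0))) = 0 := by linear_combination (1) * R7e0
  have F23z1 : f ((Sum.inr (Sum.inl 2)), (Sum.inr (Sum.inl 3)), (Sum.inr (Sum.inl 1))) = 0 := by linear_combination (-1) * R8e2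
  have F23z2 : f ((Sum.inr (Sum.inl 2)), (Sum.inr (Sum.inl 3)), (Sum.inr (Sum.inl 2))) = 0 := by linear_combination (1) * R3e0
  have F23z3 : f ((Sum.inr (Sum.inl 2)), (Sum.inr (Sum.inl 3)), (Sum.inr (Sum.inl 3))) = 0 := by linear_combination (1) * R4e2
  have F23 : ∀ l, f ((Sum.inr (Sum.inl 2)), (Sum.inr (Sum.inl 3)), l) = 0 := by
    rintro (⟨⟩ | l | l)
    · exact F23u
    · fin_cases l
      · exact F23z0
      · exact F23z1
      · exact F23z2
      · exact F23z3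
    · exact w23 l
  have F33u : f ((Sum.inr (Sum.inl 3)), (Sum.inr (Sum.inl 3)), (Sum.inl ())) = 0 := by linear_combination (1) * R4z0
  have F33z0 : f ((Sum.inr (Sum.inl 3)), (Sum.inr (Sum.inl 3)), (Sum.inr (Sum.inl 0))) = 0 := by linear_combination (1) * R8e0
  have F33z1 : f ((Sum.inr (Sum.inl 3)), (Sum.inr (Sum.inl 3)), (Sum.inr (Sum.inl 1))) = 0 := by linear_combination (-1) * R8e1 + (-1) * R7e0
  have F33z2 : f ((Sum.inr (Sum.inl 3)), (Sum.inr (Sum.inl 3)), (Sum.inr (Sum.inl 2))) = 0 := by linear_combination (1) * R4e0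
  have F33z3 : f ((Sum.inr (Sum.inl 3)), (Sum.inr (Sum.inl 3)), (Sum.inr (Sum.inl 3))) = 0 := by linear_combination (1) * R4e1 + (1) * R3e0
  have F33 : ∀ l, f ((Sum.inr (Sum.inl 3)), (Sum.inr (Sum.inl 3)), l) = 0 := by
    rintro (⟨⟩ | l | l)
    · exact F33u
    · fin_cases l
      · exact F33z0
      · exact F33z1
      · exact F33z2
      · exact F33z3
    · exact w33 l
  have H00 : ∀ l, f ((Sum.inr (Sum.inl 0)), (Sum.inr (Sum.inr 0)), l) = 0 := by
    intro l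
    have h := E (Sum.inr (Sum.inl 0)) (Sum.inr (Sum.inl 0)) (Sum.inr (Sum.inl 2)) l
    simp [Fintype.sum_sum_type, Fin.sum_univ_four, Fin.sum_univ_three, cG, G0, hu, hu', se, s10, s32, F00, F01, F11, F22, F23, F33, k02, k03, k12, k13, k20, k30, k21, k31, -mul_eq_zero, -neg_eq_zero, -zero_eq_mul, -zero_eq_neg] at h
    have h' : δ * f ((Sum.inr (Sum.inl 0)), (Sum.inr (Sum.inr 0)), l) = 0 := by linear_combination h
    exact (mul_eq_zero.mp h').resolve_left hδ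
  have H10 : ∀ l, f ((Sum.inr (Sum.inl 0)), (Sum.inr (Sum.inr 1)), l) = 0 := by
    intro l
    have h := E (Sum.inr (Sum.inl 0)) (Sum.inr (Sum.inl 0)) (Sum.inr (Sum.inl 3)) l
    simp [Fintype.sum_sum_type, Fin.sum_univ_four, Fin.sum_univ_three, cG, G0, hu, hu', se, s10, s32, F00, F01, F11, F22, F23, F33, k02, k03, k12, k13, k20, k30, k21, k31, -mul_eq_zero, -neg_eq_zero, -zero_eq_mul, -zero_eq_neg] at h
    have h' : δ * f ((Sum.inr (Sum.inl 0)), (Sum.inr (Sum.inr 1)), l) = 0 := by linear_combination h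
    exact (mul_eq_zero.mp h').resolve_left hδ
  have H20 : ∀ l, f ((Sum.inr (Sum.inl 0)), (Sum.inr (Sum.inr 2)), l) = 0 := by
    intro l
    have h := E (Sum.inr (Sum.inl 0)) (Sum.inr (Sum.inl 1)) (Sum.inr (Sum.inl 3)) l
    simp [Fintype.sum_sum_type, Fin.sum_univ_four, Fin.sum_univ_three, cG, G0, hu, hu', se, s10, s32, F00, F01, F11, F22, F23, F33, k02, k03, k12, k13, k20, k30, k21, k31, -mul_eq_zero, -neg_eq_zero, -zero_eq_mul, -zero_eq_neg] at h
    have h' : δ * f ((Sum.inr (Sum.inl 0)), (Sum.inr (Sum.inr 2)), l) = 0 := by linear_combination h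
    exact (mul_eq_zero.mp h').resolve_left hδ
  have H01 : ∀ l, f ((Sum.inr (Sum.inl 1)), (Sum.inr (Sum.inr 0)), l) = 0 := by
    intro l
    have h := E (Sum.inr (Sum.inl 1)) (Sum.inr (Sum.inl 0)) (Sum.inr (Sum.inl 2)) l
    simp [Fintype.sum_sum_type, Fin.sum_univ_four, Fin.sum_univ_three, cG, G0, hu, hu', se, s10, s32, F00, F01, F11, F22, F23, F33, k02, k03, k12, k13, k20, k30, k21, k31, -mul_eq_zero, -neg_eq_zero, -zero_eq_mul, -zero_eq_neg] at h
    have h' : δ * f ((Sum.inr (Sum.inl 1)), (Sum.inr (Sum.inr 0)), l) = 0 := by linear_combination h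
    exact (mul_eq_zero.mp h').resolve_left hδ
  have H11 : ∀ l, f ((Sum.inr (Sum.inl 1)), (Sum.inr (Sum.inr 1)), l) = 0 := by
    intro l
    have h := E (Sum.inr (Sum.inl 1)) (Sum.inr (Sum.inl 0)) (Sum.inr (Sum.inl 3)) l
    simp [Fintype.sum_sum_type, Fin.sum_univ_four, Fin.sum_univ_three, cG, G0, hu, hu', se, s10, s32, F00, F01, F11, F22, F23, F33, k02, k03, k12, k13, k20, k30, k21, k31, -mul_eq_zero, -neg_eq_zero, -zero_eq_mul, -zero_eq_neg] at h
    have h' : δ * f ((Sum.inr (Sum.inl 1)), (Sum.inr (Sum.inr 1)), l) = 0 := by linear_combination h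
    exact (mul_eq_zero.mp h').resolve_left hδ
  have H21 : ∀ l, f ((Sum.inr (Sum.inl 1)), (Sum.inr (Sum.inr 2)), l) = 0 := by
    intro l
    have h := E (Sum.inr (Sum.inl 1)) (Sum.inr (Sum.inl 1)) (Sum.inr (Sum.inl 3)) l
    simp [Fintype.sum_sum_type, Fin.sum_univ_four, Fin.sum_univ_three, cG, G0, hu, hu', se, s10, s32, F00, F01, F11, F22, F23, F33, k02, k03, k12, k13, k20, k30, k21, k31, -mul_eq_zero, -neg_eq_zero, -zero_eq_mul, -zero_eq_neg] at h
    have h' : δ * f ((Sum.inr (Sum.inl 1)), (Sum.inr (Sum.inr 2)), l) = 0 := by linear_combination h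
    exact (mul_eq_zero.mp h').resolve_left hδ
  have H02 : ∀ l, f ((Sum.inr (Sum.inl 2)), (Sum.inr (Sum.inr 0)), l) = 0 := by
    intro l
    have h := E (Sum.inr (Sum.inl 2)) (Sum.inr (Sum.inl 2)) (Sum.inr (Sum.inl 0)) l
    simp [Fintype.sum_sum_type, Fin.sum_univ_four, Fin.sum_univ_three, cG, G0, hu, hu', se, s10, s32, F00, F01, F11, F22, F23, F33, k02, k03, k12, k13, k20, k30, k21, k31, -mul_eq_zero, -neg_eq_zero, -zero_eq_mul, -zero_eq_neg] at h
    have h' : δ * f ((Sum.inr (Sum.inl 2)), (Sum.inr (Sum.inr 0)), l) = 0 := by linear_combination h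
    exact (mul_eq_zero.mp h').resolve_left hδ
  have H12 : ∀ l, f ((Sum.inr (Sum.inl 2)), (Sum.inr (Sum.inr 1)), l) = 0 := by
    intro l
    have h := E (Sum.inr (Sum.inl 2)) (Sum.inr (Sum.inl 3)) (Sum.inr (Sum.inl 0)) l
    simp [Fintype.sum_sum_type, Fin.sum_univ_four, Fin.sum_univ_three, cG, G0, hu, hu', se, s10, s32, F00, F01, F11, F22, F23, F33, k02, k03, k12, k13, k20, k30, k21, k31, -mul_eq_zero, -neg_eq_zero, -zero_eq_mul, -zero_eq_neg] at h
    have h' : δ * f ((Sum.inr (Sum.inl 2)), (Sum.inr (Sum.inr 1)), l) = 0 := by linear_combination h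
    exact (mul_eq_zero.mp h').resolve_left hδ
  have H22 : ∀ l, f ((Sum.inr (Sum.inl 2)), (Sum.inr (Sum.inr 2)), l) = 0 := by
    intro l
    have h := E (Sum.inr (Sum.inl 2)) (Sum.inr (Sum.inl 3)) (Sum.inr (Sum.inl 1)) l
    simp [Fintype.sum_sum_type, Fin.sum_univ_four, Fin.sum_univ_three, cG, G0, hu, hu', se, s10, s32, F00, F01, F11, F22, F23, F33, k02, k03, k12, k13, k20, k30, k21, k31, -mul_eq_zero, -neg_eq_zero, -zero_eq_mul, -zero_eq_neg] at h
    have h' : δ * f ((Sum.inr (Sum.inl 2)), (Sum.inr (Sum.inr 2)), l) = 0 := by linear_combination h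
    exact (mul_eq_zero.mp h').resolve_left hδ
  have H03 : ∀ l, f ((Sum.inr (Sum.inl 3)), (Sum.inr (Sum.inr 0)), l) = 0 := by
    intro l
    have h := E (Sum.inr (Sum.inl 3)) (Sum.inr (Sum.inl 2)) (Sum.inr (Sum.inl 0)) l
    simp [Fintype.sum_sum_type, Fin.sum_univ_four, Fin.sum_univ_three, cG, G0, hu, hu', se, s10, s32, F00, F01, F11, F22, F23, F33, k02, k03, k12, k13, k20, k30, k21, k31, -mul_eq_zero, -neg_eq_zero, -zero_eq_mul, -zero_eq_neg] at h
    have h' : δ * f ((Sum.inr (Sum.inl 3)), (Sum.inr (Sum.inr 0)), l) = 0 := by linear_combination h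
    exact (mul_eq_zero.mp h').resolve_left hδ
  have H13 : ∀ l, f ((Sum.inr (Sum.inl 3)), (Sum.inr (Sum.inr 1)), l) = 0 := by
    intro l
    have h := E (Sum.inr (Sum.inl 3)) (Sum.inr (Sum.inl 3)) (Sum.inr (Sum.inl 0)) l
    simp [Fintype.sum_sum_type, Fin.sum_univ_four, Fin.sum_univ_three, cG, G0, hu, hu', se, s10, s32, F00, F01, F11, F22, F23, F33, k02, k03, k12, k13, k20, k30, k21, k31, -mul_eq_zero, -neg_eq_zero, -zero_eq_mul, -zero_eq_neg] at h
    have h' : δ * f ((Sum.inr (Sum.inl 3)), (Sum.inr (Sum.inr 1)), l) = 0 := by linear_combination h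
    exact (mul_eq_zero.mp h').resolve_left hδ
  have H23 : ∀ l, f ((Sum.inr (Sum.inl 3)), (Sum.inr (Sum.inr 2)), l) = 0 := by
    intro l
    have h := E (Sum.inr (Sum.inl 3)) (Sum.inr (Sum.inl 3)) (Sum.inr (Sum.inl 1)) l
    simp [Fintype.sum_sum_type, Fin.sum_univ_four, Fin.sum_univ_three, cG, G0, hu, hu', se, s10, s32, F00, F01, F11, F22, F23, F33, k02, k03, k12, k13, k20, k30, k21, k31, -mul_eq_zero, -neg_eq_zero, -zero_eq_mul, -zero_eq_neg] at h
    have h' : δ * f ((Sum.inr (Sum.inl 3)), (Sum.inr (Sum.inr 2)), l) = 0 := by linear_combination h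
    exact (mul_eq_zero.mp h').resolve_left hδ
  have HH : ∀ (c : Fin 4) (s : Fin 3) l, f (Sum.inr (Sum.inl c), Sum.inr (Sum.inr s), l) = 0 := by
    intro c s l
    fin_cases c <;> fin_cases s
    · exact H00 l
    · exact H10 l
    · exact H20 l
    · exact H01 l
    · exact H11 l
    · exact H21 l
    · exact H02 l
    · exact H12 l
    · exact H22 l
    · exact H03 l
    · exact H13 l
    · exact H23 l
  have EE0 : ∀ t l, f ((Sum.inr (Sum.inr 0)), Sum.inr (Sum.inr t), l) = 0 := by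
    intro t l
    have h := E (Sum.inr (Sum.inl 0)) (Sum.inr (Sum.inl 2)) (Sum.inr (Sum.inr t)) l
    simp [Fintype.sum_sum_type, Fin.sum_univ_four, Fin.sum_univ_three, cG, G0, hu, hu', HH, F00, F01, F11, F22, F23, F33, k02, k03, k12, k13, k20, k30, k21, k31, -mul_eq_zero, -neg_eq_zero, -zero_eq_mul, -zero_eq_neg] at h
    have h' : δ * f ((Sum.inr (Sum.inr 0)), Sum.inr (Sum.inr t), l) = 0 := by linear_combination -h
    exact (mul_eq_zero.mp h').resolve_left hδ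
  have EE1 : ∀ t l, f ((Sum.inr (Sum.inr 1)), Sum.inr (Sum.inr t), l) = 0 := by
    intro t l
    have h := E (Sum.inr (Sum.inl 0)) (Sum.inr (Sum.inl 3)) (Sum.inr (Sum.inr t)) l
    simp [Fintype.sum_sum_type, Fin.sum_univ_four, Fin.sum_univ_three, cG, G0, hu, hu', HH, F00, F01, F11, F22, F23, F33, k02, k03, k12, k13, k20, k30, k21, k31, -mul_eq_zero, -neg_eq_zero, -zero_eq_mul, -zero_eq_neg] at h
    have h' : δ * f ((Sum.inr (Sum.inr 1)), Sum.inr (Sum.inr t), l) = 0 := by linear_combination -h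
    exact (mul_eq_zero.mp h').resolve_left hδ
  have EE2 : ∀ t l, f ((Sum.inr (Sum.inr 2)), Sum.inr (Sum.inr t), l) = 0 := by
    intro t l
    have h := E (Sum.inr (Sum.inl 1)) (Sum.inr (Sum.inl 3)) (Sum.inr (Sum.inr t)) l
    simp [Fintype.sum_sum_type, Fin.sum_univ_four, Fin.sum_univ_three, cG, G0, hu, hu', HH, F00, F01, F11, F22, F23, F33, k02, k03, k12, k13, k20, k30, k21, k31, -mul_eq_zero, -neg_eq_zero, -zero_eq_mul, -zero_eq_neg] at h
    have h' : δ * f ((Sum.inr (Sum.inr 2)), Sum.inr (Sum.inr t), l) = 0 := by linear_combination -h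
    exact (mul_eq_zero.mp h').resolve_left hδ
  have EE : ∀ (s t : Fin 3) l, f (Sum.inr (Sum.inr s), Sum.inr (Sum.inr t), l) = 0 := by
    intro s t l
    fin_cases s
    · exact EE0 t l
    · exact EE1 t l
    · exact EE2 t l
  have F10 : ∀ l, f (Sum.inr (Sum.inl 1), Sum.inr (Sum.inl 0), l) = 0 := fun l => by rw [s10, F01]
  have F32 : ∀ l, f (Sum.inr (Sum.inl 3), Sum.inr (Sum.inl 2), l) = 0 := fun l => by rw [s32, F23]
  have ZZ : ∀ (a b : Fin 4) l, f (Sum.inr (Sum.inl a), Sum.inr (Sum.inl b), l) = 0 := by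
    intro a b l
    fin_cases a <;> fin_cases b
    · exact F00 l
    · exact F01 l
    · exact k02 l
    · exact k03 l
    · exact F10 l
    · exact F11 l
    · exact k12 l
    · exact k13 l
    · exact k20 l
    · exact k21 l
    · exact F22 l
    · exact F23 l
    · exact k30 l
    · exact k31 l
    · exact F32 l
    · exact F33 l
  funext p
  obtain ⟨x, y, l⟩ := p
  rcases x with ⟨⟩ | a | s
  · exact hu y l
  · rcases y with ⟨⟩ | b | t
    · exact hu' _ l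
    · exact ZZ a b l
    · exact HH a t l
  · rcases y with ⟨⟩ | b | t
    · exact hu' _ l
    · rw [se]; exact HH b s l
    · exact EE s t l

/-- the kept coordinates number `58` -/
theorem finrank_ker_le (δ : K) (hδ : δ ≠ 0) :
    finrank K (LinearMap.ker (cocMat (cG (fun a b s => δ * G0 K a b s))).mulVecLin) ≤ 58 := by
  let g : LinearMap.ker (cocMat (cG (fun a b s => δ * G0 K a b s))).mulVecLin →ₗ[K]
      (Ix ⊕ ((Fin 2 × Fin 2) × Ix) ⊕ (Fin 6 × Fin 3) → K) :=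
    (LinearMap.funLeft K K keep) ∘ₗ Submodule.subtype _
  have hg : Function.Injective g := by
    refine (injective_iff_map_eq_zero _).mpr ?_
    rintro ⟨f, hf⟩ h
    apply Subtype.ext
    rw [LinearMap.mem_ker, Matrix.mulVecLin_apply] at hf
    exact eq_zero_of_keep δ hδ f hf (fun t => congrFun h t)
  have := LinearMap.finrank_le_finrank_of_injective hg
  rw [Module.finrank_fintype_fun_eq_card] at this
  simpa using this

end

end Pool.Agent.H349R3
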