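import Pool.Agent.H349R3.Degen
import Pool.Agent.H349R3.Defs

/-! The fibres of linear projections of the intersection of seven diagonal quadrics. -/

set_option maxHeartbeats 4000000
set_option linter.unusedSimpArgs false

namespace Pool.Agent.H349R3

open Matrix Module MvPolynomial

/-- the seven diagonal quadrics `∑ i, i ^ j x_i ^ 2`, `j = 0, …, 6` -/
noncomputable def Qd (N : ℕ) (j : Fin 7) : MvPolynomial (Fin (N + 1)) ℂ :=
  ∑ i : Fin (N + 1), C (((i : ℕ) : ℂ) ^ (j : ℕ)) * X i ^ 2

/-- the ideal generated by the seven quadrics -/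
noncomputable def IX (N : ℕ) : Ideal (MvPolynomial (Fin (N + 1)) ℂ) :=
  Ideal.span (Set.range (Qd N))

/-- the restrictions of the seven quadrics to the column space of a matrix -/
def Sf {N : ℕ} {R : Type*} [CommRing R] (M : Matrix (Fin (N + 1)) (Fin 4) R) :
    Fin 7 → Fin 4 → Fin 4 → R :=
  fun j a b => ∑ i : Fin (N + 1), ((i : ℕ) : R) ^ (j : ℕ) * M i a * M i b

theorem Sf_symm {N : ℕ} {R : Type*} [CommRing R] (M : Matrix (Fin (N + 1)) (Fin 4) R) (j : Fin 7)
    (a b : Fin 4) : Sf M j a b = Sf M j b a := by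
  unfold Sf
  exact Finset.sum_congr rfl fun i _ => by ring

/-- column space -/
def colL {N : ℕ} (M : Matrix (Fin (N + 1)) (Fin 4) ℂ) : Submodule ℂ (Fin (N + 1) → ℂ) :=
  Submodule.span ℂ (Set.range fun a i => M i a)

theorem exists_leftInv {N : ℕ} {M : Matrix (Fin (N + 1)) (Fin 4) ℂ}
    (hM : LinearIndependent ℂ (fun a i => M i a)) : ∃ P : Matrix (Fin 4) (Fin (N + 1)) ℂ,
      P * M = 1 := by
  classical
  have hinj : Function.Injective M.mulVec := by
    rw [Matrix.mulVec_injective_iff]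
    exact hM
  obtain ⟨g, hg⟩ := LinearMap.exists_leftInverse_of_injective M.mulVecLin
    (LinearMap.ker_eq_bot.mpr hinj)
  refine ⟨LinearMap.toMatrix' g, ?_⟩
  have h1 := congrArg LinearMap.toMatrix' hg
  rw [LinearMap.toMatrix'_comp, ← Matrix.toLin'_apply', LinearMap.toMatrix'_toLin',
    LinearMap.toMatrix'_id] at h1
  exact h1

section Fib

variable {N : ℕ} (M : Matrix (Fin (N + 1)) (Fin 4) ℂ) (P : Matrix (Fin 4) (Fin (N + 1)) ℂ)
  (v : Fin (N + 1) → ℂ)

/-- parameters on the fibre -/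
noncomputable def zf (a : Fin 4) : Fibre (IX N) (colL M) v :=
  Ideal.Quotient.mk _ (∑ i, C (P a i) * (X i - C (v i)))

variable {M P}

theorem mk_X (hP : P * M = 1) (i : Fin (N + 1)) :
    (Ideal.Quotient.mk (IX N ⊔ affineIdeal (colL M) v) (X i) : Fibre (IX N) (colL M) v) =
      algebraMap ℂ _ (v i) + ∑ a, algebraMap ℂ _ (M i a) * zf M P v a := by
  have h1 : X i - (C (v i) + ∑ a, C (M i a) * (∑ k, C (P a k) * (X k - C (v k)))) ∈
      IX N ⊔ affineIdeal (colL M) v := by
    refine Ideal.mem_sup_right (Ideal.subset_span ⟨fun k => ((1 : Matrix (Fin (N + 1)) (Fin (N + 1)) ℂ) - M * P) i k, ?_, ?_⟩)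
    · intro l hl
      have h2 : (1 - M * P) * M = 0 := by
        rw [Matrix.sub_mul, Matrix.mul_assoc, hP, Matrix.one_mul, Matrix.mul_one, sub_self]
      induction hl using Submodule.span_induction with
      | mem x hx =>
        obtain ⟨a, rfl⟩ := hx
        have := congrFun (congrFun h2 i) a
        rwa [Matrix.mul_apply] at this
      | zero => simp
      | add x y _ _ hx hy =>
        simp only [Pi.add_apply, mul_add, Finset.sum_add_distrib, hx, hy, add_zero]
      | smul c x _ hx =>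
        simp only [Pi.smul_apply, smul_eq_mul]
        have : ∀ k, ((1 : Matrix (Fin (N + 1)) (Fin (N + 1)) ℂ) - M * P) i k * (c * x k)
            = c * (((1 : Matrix (Fin (N + 1)) (Fin (N + 1)) ℂ) - M * P) i k * x k) := fun k => by ring
        simp only [this, ← Finset.mul_sum, hx, mul_zero]
    · simp only [Matrix.sub_apply, Matrix.mul_apply, map_sub, sub_mul, Finset.sum_sub_distrib,
        map_sum, map_mul, Finset.sum_mul, Finset.mul_sum]
      have e1 : ∑ k, C ((1 : Matrix (Fin (N + 1)) (Fin (N + 1)) ℂ) i k) * (X k - C (v k))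
          = X i - C (v i) := by
        rw [Finset.sum_eq_single i]
        · simp
        · intro k _ hk
          rw [Matrix.one_apply_ne' hk]; simp
        · simp
      rw [e1, Finset.sum_comm]
      simp only [mul_assoc]
      ring
  have h2 := Ideal.Quotient.eq_zero_iff_mem.mpr h1
  rw [map_sub, sub_eq_zero] at h2
  rw [h2, map_add, map_sum]
  rfl

theorem adjoin_zf (hP : P * M = 1) : Algebra.adjoin ℂ (Set.range (zf M P v)) = ⊤ := by
  rw [eq_top_iff]
  intro x _
  obtain ⟨f, rfl⟩ := Ideal.Quotient.mk_surjective x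
  induction f using MvPolynomial.induction_on with
  | C c => exact Subalgebra.algebraMap_mem _ c
  | add p q hp hq =>
    rw [map_add]
    exact Subalgebra.add_mem _ (hp trivial) (hq trivial)
  | mul_X p i hp =>
    rw [map_mul]
    refine Subalgebra.mul_mem _ (hp trivial) ?_
    rw [mk_X v hP i]
    refine Subalgebra.add_mem _ (Subalgebra.algebraMap_mem _ _) (Subalgebra.sum_mem _ fun a _ =>
      Subalgebra.mul_mem _ (Subalgebra.algebraMap_mem _ _) (Algebra.subset_adjoin ⟨a, rfl⟩))

theorem rel_zf (hP : P * M = 1) (j : Fin 7) :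
    ∑ a, ∑ b, Sf M j a b • (zf M P v a * zf M P v b) ∈
      (F1 (zf M P v) : Submodule ℂ (Fibre (IX N) (colL M) v)) := by
  have h0 : (Ideal.Quotient.mk (IX N ⊔ affineIdeal (colL M) v) (Qd N j) :
      Fibre (IX N) (colL M) v) = 0 :=
    Ideal.Quotient.eq_zero_iff_mem.mpr (Ideal.mem_sup_left (Ideal.subset_span ⟨j, rfl⟩))
  have h1 : ∑ i : Fin (N + 1), algebraMap ℂ (Fibre (IX N) (colL M) v) (((i : ℕ) : ℂ) ^ (j : ℕ)) *
      (algebraMap ℂ _ (v i) + ∑ a, algebraMap ℂ _ (M i a) * zf M P v a) ^ 2 = 0 := by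
    rw [← h0]
    unfold Qd
    rw [map_sum]
    refine Finset.sum_congr rfl fun i _ => ?_
    rw [map_mul (Ideal.Quotient.mk _), map_pow (Ideal.Quotient.mk _), mk_X v hP i]
    rfl
  have h2 : ∑ a, ∑ b, Sf M j a b • (zf M P v a * zf M P v b) =
      - (∑ i : Fin (N + 1), ((((i : ℕ) : ℂ) ^ (j : ℕ) * v i ^ 2) • (1 : Fibre (IX N) (colL M) v)
        + ∑ a, (2 * ((i : ℕ) : ℂ) ^ (j : ℕ) * v i * M i a) • zf M P v a)) := by
    rw [eq_neg_iff_add_eq_zero, ← h1]
    have h3 : ∑ a, ∑ b, Sf M j a b • (zf M P v a * zf M P v b) =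
        ∑ i : Fin (N + 1), ∑ a, ∑ b, (((i : ℕ) : ℂ) ^ (j : ℕ) * M i a * M i b) •
          (zf M P v a * zf M P v b) := by
      have h4 : ∀ a b, Sf M j a b • (zf M P v a * zf M P v b) =
          ∑ i : Fin (N + 1), (((i : ℕ) : ℂ) ^ (j : ℕ) * M i a * M i b) •
            (zf M P v a * zf M P v b) := fun a b => by rw [Sf, Finset.sum_smul]
      simp only [h4]
      rw [Finset.sum_congr rfl fun a _ => Finset.sum_comm]
      exact Finset.sum_comm
    rw [h3, ← Finset.sum_add_distrib]
    refine Finset.sum_congr rfl fun i _ => ?_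
    rw [pow_two (algebraMap ℂ _ (v i) + _)]
    simp only [Algebra.smul_def, map_mul, map_pow, map_natCast, map_ofNat, mul_one,
      Fin.sum_univ_four]
    ring
  rw [h2]
  refine Submodule.neg_mem _ (Submodule.sum_mem _ fun i _ => Submodule.add_mem _
    (Submodule.smul_mem _ _ (one_mem_F1 _)) (Submodule.sum_mem _ fun a _ =>
      Submodule.smul_mem _ _ (z_mem_F1 _ a)))

end Fib

end Pool.Agent.H349R3
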