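import Pool.Agent.H349R3.PolyFib

/-! The special fibres have length eight. -/

set_option maxHeartbeats 4000000
set_option linter.unusedSimpArgs false

namespace Pool.Agent.H349R3

open Matrix Module MvPolynomial

section

variable {N : ℕ} (M : Matrix (Fin (N + 1)) (Fin 4) ℂ)

/-- the restricted quadrics -/
noncomputable def qr (j : Fin 7) : MvPolynomial (Fin 4) ℂ := ∑ a, ∑ b, C (Sf M j a b) * (X a * X b)

/-- their ideal -/
noncomputable def Jr : Ideal (MvPolynomial (Fin 4) ℂ) := Ideal.span (Set.range (qr M))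

variable {M}

theorem eval_pderiv2_XX (a b p q : Fin 4) :
    eval (0 : Fin 4 → ℂ) (pderiv a (pderiv b (X p * X q : MvPolynomial (Fin 4) ℂ))) =
      (if b = p ∧ a = q then 1 else 0) + (if b = q ∧ a = p then 1 else 0) := by
  have h : ∀ b p : Fin 4, pderiv b (X p : MvPolynomial (Fin 4) ℂ) = C (if b = p then 1 else 0) := by
    intro b p
    rw [pderiv_X, Pi.single_apply]
    by_cases h1 : p = b
    · rw [if_pos h1, if_pos h1.symm, map_one]
    · rw [if_neg h1, if_neg (Ne.symm h1), map_zero]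
  simp only [Derivation.leibniz, h, smul_eq_mul, map_add, map_mul, eval_X, Pi.zero_apply,
    zero_mul, add_zero, zero_add, pderiv_C, mul_zero, eval_C]
  split_ifs <;> simp_all

theorem Jr_props (f : MvPolynomial (Fin 4) ℂ) (hf : f ∈ Jr M) :
    eval (0 : Fin 4 → ℂ) f = 0 ∧ (∀ a, eval (0 : Fin 4 → ℂ) (pderiv a f) = 0) ∧
      ∃ β : Fin 7 → ℂ, ∀ a b, eval (0 : Fin 4 → ℂ) (pderiv a (pderiv b f)) =
        ∑ j, β j * (2 * Sf M j a b) := by
  induction hf using Submodule.span_induction with
  | mem x hx =>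
    obtain ⟨j, rfl⟩ := hx
    refine ⟨by simp [qr], fun a => ?_, Pi.single j 1, fun a b => ?_⟩
    · simp only [qr, map_sum, Derivation.leibniz, smul_eq_mul, map_add, map_mul, eval_X,
        Pi.zero_apply, zero_mul, mul_zero, add_zero, Finset.sum_const_zero]
    · rw [Finset.sum_eq_single j (by intro k _ hk; rw [Pi.single_eq_of_ne hk, zero_mul])
        (by simp), Pi.single_eq_same, one_mul]
      have h1 : ∀ p q, eval (0 : Fin 4 → ℂ) (pderiv a (pderiv b (C (Sf M j p q) * (X p * X q)))) =
          Sf M j p q * ((if b = p ∧ a = q then 1 else 0) + (if b = q ∧ a = p then 1 else 0)) := by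
        intro p q
        rw [pderiv_C_mul, pderiv_C_mul, map_mul, eval_C, eval_pderiv2_XX]
      simp only [qr, map_sum, h1, mul_add, Finset.sum_add_distrib, mul_ite, mul_one, mul_zero,
        ite_and]
      simp [Sf_symm M j b a, two_mul, Finset.sum_ite_irrel]
  | zero => exact ⟨by simp, by simp, 0, by simp⟩
  | add x y _ _ hx hy =>
    obtain ⟨hx1, hx2, β, hx3⟩ := hx
    obtain ⟨hy1, hy2, γ, hy3⟩ := hy
    refine ⟨by rw [map_add, hx1, hy1, add_zero], fun a => by rw [map_add, map_add, hx2, hy2, add_zero],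
      β + γ, fun a b => ?_⟩
    rw [map_add, map_add, map_add, hx3, hy3, ← Finset.sum_add_distrib]
    exact Finset.sum_congr rfl fun j _ => by rw [Pi.add_apply]; ring
  | smul h x _ hx =>
    obtain ⟨hx1, hx2, β, hx3⟩ := hx
    refine ⟨by rw [smul_eq_mul, map_mul, hx1, mul_zero], fun a => ?_,
      fun j => eval 0 h * β j, fun a b => ?_⟩
    · rw [smul_eq_mul, Derivation.leibniz, smul_eq_mul, smul_eq_mul, map_add, map_mul, map_mul, hx1,
        hx2, mul_zero, zero_mul, add_zero]
    · simp only [smul_eq_mul, Derivation.leibniz, map_add, map_mul, hx1, hx2, hx3, mul_zero,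
        zero_mul, add_zero, zero_add, Finset.mul_sum]
      exact Finset.sum_congr rfl fun j _ => by ring

variable (v : Fin (N + 1) → ℂ)

/-- substitution -/
noncomputable def subst (M : Matrix (Fin (N + 1)) (Fin 4) ℂ) (v : Fin (N + 1) → ℂ) :
    MvPolynomial (Fin (N + 1)) ℂ →ₐ[ℂ] MvPolynomial (Fin 4) ℂ :=
  aeval fun i => C (v i) + ∑ a, C (M i a) * X a

theorem subst_mem (hv1 : ∀ j : Fin 7, ∑ i : Fin (N + 1), ((i : ℕ) : ℂ) ^ (j : ℕ) * v i ^ 2 = 0)
    (hv2 : ∀ (j : Fin 7) (a : Fin 4), ∑ i : Fin (N + 1), ((i : ℕ) : ℂ) ^ (j : ℕ) * v i * M i a = 0)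
    (f : MvPolynomial (Fin (N + 1)) ℂ) (hf : f ∈ IX N ⊔ affineIdeal (colL M) v) :
    subst M v f ∈ Jr M := by
  have h1 : IX N ⊔ affineIdeal (colL M) v ≤ (Jr M).comap (subst M v) := by
    refine sup_le (Ideal.span_le.mpr ?_) (Ideal.span_le.mpr ?_)
    · rintro _ ⟨j, rfl⟩
      have h2 : subst M v (Qd N j) = qr M j := by
        have h3 : subst M v (Qd N j) = ∑ i : Fin (N + 1), (C (((i : ℕ) : ℂ) ^ (j : ℕ) * v i ^ 2)
            + ∑ a, C (2 * (((i : ℕ) : ℂ) ^ (j : ℕ) * v i * M i a)) * X a
            + ∑ a, ∑ b, C (((i : ℕ) : ℂ) ^ (j : ℕ) * M i a * M i b) * (X a * X b)) := by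
          simp only [subst, Qd, map_sum, map_mul, map_pow, aeval_X, aeval_C, algebraMap_eq]
          refine Finset.sum_congr rfl fun i _ => ?_
          simp only [Fin.sum_univ_four, map_ofNat]
          ring
        rw [h3, Finset.sum_add_distrib, Finset.sum_add_distrib]
        have e1 : ∑ i : Fin (N + 1), (C (((i : ℕ) : ℂ) ^ (j : ℕ) * v i ^ 2) :
            MvPolynomial (Fin 4) ℂ) = 0 := by
          rw [← map_sum, hv1, map_zero]
        have e2 : ∑ i : Fin (N + 1), ∑ a, (C (2 * (((i : ℕ) : ℂ) ^ (j : ℕ) * v i * M i a)) * X a :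
            MvPolynomial (Fin 4) ℂ) = 0 := by
          rw [Finset.sum_comm]
          refine Finset.sum_eq_zero fun a _ => ?_
          rw [← Finset.sum_mul, ← map_sum, ← Finset.mul_sum, hv2, mul_zero, map_zero, zero_mul]
        rw [e1, e2, zero_add, zero_add]
        unfold qr Sf
        simp only [map_sum, Finset.sum_mul]
        rw [Finset.sum_comm]
        exact Finset.sum_congr rfl fun a _ => Finset.sum_comm
      rw [SetLike.mem_coe, Ideal.mem_comap, h2]
      exact Ideal.subset_span ⟨j, rfl⟩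
    · rintro _ ⟨c, hc, rfl⟩
      have h2 : subst M v (∑ i, C (c i) * (X i - C (v i))) = 0 := by
        have h3 : subst M v (∑ i, C (c i) * (X i - C (v i))) =
            ∑ a, C (∑ i, c i * M i a) * X a := by
          simp only [subst, map_sum, map_mul, map_sub, aeval_X, aeval_C, algebraMap_eq,
            add_sub_cancel_left, Finset.mul_sum, Finset.sum_mul]
          rw [Finset.sum_comm]
          exact Finset.sum_congr rfl fun a _ => Finset.sum_congr rfl fun i _ => by ring
        rw [h3]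
        refine Finset.sum_eq_zero fun a _ => ?_
        rw [hc _ (Submodule.subset_span ⟨a, rfl⟩), map_zero, zero_mul]
      rw [SetLike.mem_coe, Ideal.mem_comap, h2]
      exact Ideal.zero_mem _
  exact h1 hf

end

end Pool.Agent.H349R3
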