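import Pool.Agent.H349R3.VarD
import Pool.Agent.H349R3.Centre

/-!
Smooth projective varieties, general linear subspaces, and smoothability: short definitions,
and the result for the intersection of seven diagonal quadrics in these terms.
-/

namespace Pool.Agent.H349R3

open MvPolynomial Module

/-- The type of ideals of the polynomial ring `ℂ[x_0, …, x_N]`. -/
abbrev PIdeal (N : ℕ) : Type := Ideal (MvPolynomial (Fin (N + 1)) ℂ)

/-- The type of linear subspaces of `ℂ^{N+1}`. -/
abbrev Sub (N : ℕ) : Type := Submodule ℂ (Fin (N + 1) → ℂ)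

/-- `I` is a homogeneous ideal: it contains the homogeneous components of its elements. -/
def IsHomog {N : ℕ} (I : PIdeal N) : Prop :=
  ∀ f ∈ I, ∀ d : ℕ, homogeneousComponent d f ∈ I

/-- The Krull dimension of `ℂ[x_0, …, x_N] / I` is `d`. -/
def HasDim {N : ℕ} (I : PIdeal N) (d : ℕ) : Prop :=
  ringKrullDim (MvPolynomial (Fin (N + 1)) ℂ ⧸ I) = d

/-- The linear span of the gradients at the point `x` of all elements of `I`. -/
def gradSpan {N : ℕ} (I : PIdeal N) (x : Fin (N + 1) → ℂ) : Sub N :=
  Submodule.span ℂ ((fun f => grad f x) '' {f | f ∈ I})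

/-- At every nonzero point of the affine cone defined by `I` the gradients of the elements of `I`
span a space of dimension `c`. -/
def JacobianCriterion {N : ℕ} (I : PIdeal N) (c : ℕ) : Prop :=
  ∀ x ∈ cone I, x ≠ 0 → finrank ℂ (gradSpan I x) = c

/-- `I` is the homogeneous ideal of a smooth irreducible projective variety `X ⊆ ℙ^N` of dimension
`n ≤ N`: it is a homogeneous prime ideal, the homogeneous coordinate ring `ℂ[x_0, …, x_N] / I` has
Krull dimension `n + 1`, and the Jacobian criterion holds at every point of `X`: the gradients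
at the point of the elements of `I` span a space of dimension `N - n`. -/
structure IsSmoothVariety {N : ℕ} (n : ℕ) (I : PIdeal N) : Prop where
  le : n ≤ N
  homog : IsHomog I
  prime : I.IsPrime
  dim : HasDim I (n + 1)
  smooth : JacobianCriterion I (N - n)

/-- `Λ = ℙ(L)` does not meet the subscheme `X ⊆ ℙ^N` defined by `I`. -/
def NotMeets {N : ℕ} (I : PIdeal N) (L : Sub N) : Prop :=
  ∀ x ∈ cone I, x ∈ L → x = 0

/-- The fibre over `[v] ∈ ℙ(ℂ^{N+1} / L)` of the linear projection of the variety `X` defined by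
`I` with centre `Λ = ℙ(L)` has length `k`: its coordinate ring has dimension `k` over `ℂ`. -/
def HasLength {N : ℕ} (I : PIdeal N) (L : Sub N) (v : Fin (N + 1) → ℂ) (k : ℕ) : Prop :=
  finrank ℂ (Fibre I L v) = k

open TensorProduct in
/-- `B` is finite and flat over the domain `R`, and its generic fibre `Frac(R) ⊗ B` is reduced. -/
def IsGenericallyReduced (R B : Type) [CommRing R] [IsDomain R] [CommRing B] [Algebra R B] :
    Prop :=
  Module.Finite R B ∧ Module.Flat R B ∧ IsReduced (FractionRing R ⊗[R] B)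

/-- The ideal `𝔪 B` of `B` generated by the kernel `𝔪` of `φ : R → ℂ`. -/
def specialIdeal {R : Type} [CommRing R] [Algebra ℂ R] (φ : R →ₐ[ℂ] ℂ) (B : Type) [CommRing B]
    [Algebra R B] : Ideal B :=
  (RingHom.ker φ).map (algebraMap R B)

/-- `F` is isomorphic over `ℂ` to the special fibre `B / 𝔪 B`, `𝔪 = ker φ`: there is a surjective
ring homomorphism `π : B → F` with kernel `𝔪 B`, compatible with the maps from `ℂ`. -/
def IsSpecialFibre {R : Type} [CommRing R] [Algebra ℂ R] (φ : R →ₐ[ℂ] ℂ) (B : Type) [CommRing B]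
    [Algebra R B] (F : Type) [CommRing F] [Algebra ℂ F] : Prop :=
  ∃ π : B →+* F, Function.Surjective π ∧ RingHom.ker π = specialIdeal φ B ∧
    ∀ c : ℂ, π (algebraMap R B (algebraMap ℂ R c)) = algebraMap ℂ F c

/-- The finite scheme `Spec F` over `ℂ` is smoothable: it is a flat limit of reduced finite
schemes. That is, there are a local domain `R` over `ℂ` with residue field `ℂ` (the residue map
is `φ`), and a finite flat `R`-algebra `B` whose generic fibre `Frac(R) ⊗ B` is reduced and whose
special fibre is isomorphic to `F` over `ℂ`. -/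
def Smoothable (F : Type) [CommRing F] [Algebra ℂ F] : Prop :=
  ∃ (R : Type) (_ : CommRing R) (_ : IsDomain R) (_ : IsLocalRing R) (_ : Algebra ℂ R)
    (φ : R →ₐ[ℂ] ℂ) (B : Type) (_ : CommRing B) (_ : Algebra R B),
    IsGenericallyReduced R B ∧ IsSpecialFibre φ B F

/-- The fibre over `[v]` of the linear projection of `X` with centre `ℙ(L)` is smoothable. -/
def SmoothableFibre {N : ℕ} (I : PIdeal N) (L : Sub N) (v : Fin (N + 1) → ℂ) : Prop :=
  Smoothable (Fibre I L v)

/-- `P L` holds for a general `r`-dimensional linear subspace `L` of `ℂ^{N+1}`, i.e. for all `L` in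
a dense open subset of the Grassmannian: there is a nonzero polynomial `D` in the entries of an
`(N+1) × r` matrix such that `P` holds for the column space of every matrix `M` with linearly
independent columns and `D(M) ≠ 0`. -/
def ForGeneral (N r : ℕ) (P : Sub N → Prop) : Prop :=
  ∃ D : MvPolynomial (Fin (N + 1) × Fin r) ℂ, D ≠ 0 ∧
    ∀ M : Matrix (Fin (N + 1)) (Fin r) ℂ, LinearIndependent ℂ (fun a i => M i a) →
      eval (fun p => M p.1 p.2) D ≠ 0 → P (Submodule.span ℂ (Set.range fun a i => M i a))

theorem isSmoothable_of_smoothable {F : Type} [CommRing F] [Algebra ℂ F] (h : Smoothable F) :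
    IsSmoothable F := by
  obtain ⟨R, i1, i2, i3, i4, φ, B, i5, i6, ⟨h1, h2, h3⟩, π, h4, h5, h6⟩ := h
  refine ⟨R, i1, i2, i3, i4, φ, B, i5, i6, h1, h2, h3,
    (Ideal.quotEquivOfEq h5.symm).trans (RingHom.quotientKerEquivOfSurjective h4), fun c => ?_⟩
  exact h6 c

theorem final (n : ℕ) (hn : 28 ≤ n) :
    ∃ I : PIdeal (n + 7), IsSmoothVariety n I ∧
      ForGeneral (n + 7) 4 fun L =>
        NotMeets I L ∧ (∃ v, v ∉ L ∧ HasLength I L v 8) ∧
        ∀ v, v ∉ L → HasLength I L v 8 → ¬ SmoothableFibre I L v := by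
  refine ⟨IX (n + 7), ?_, ?_⟩
  · have h := isSmoothProjectiveVariety n (by omega)
    refine ⟨by omega, h.isHomogeneous, h.isPrime, ?_, ?_⟩
    · show ringKrullDim _ = ((n + 1 : ℕ) : WithBot ℕ∞)
      rw [h.dim]
      push_cast
      rfl
    · intro x hx hx0
      have h1 := h.smooth x hx hx0
      show finrank ℂ (Submodule.span ℂ ((fun f => grad f x) '' {f | f ∈ IX (n + 7)})) = n + 7 - n
      have h2 : finrank ℂ (Submodule.span ℂ ((fun f => grad f x) '' {f | f ∈ IX (n + 7)})) + n =
        n + 7 := h1
      omega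
  · obtain ⟨D, hD, h⟩ := forGeneral (N := n + 7) (by omega)
    refine ⟨D, hD, fun M hM hM2 => ?_⟩
    obtain ⟨h1, h2, h3⟩ := h M hM hM2
    exact ⟨h1, h2, fun v hv hv8 hs => h3 v hv hv8 (isSmoothable_of_smoothable hs)⟩

end Pool.Agent.H349R3
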