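import Pool.Agent.H349R3.PolyFib
import Pool.Agent.H349R3.Kummer

/-! The intersection of the seven quadrics is smooth. -/

set_option maxHeartbeats 4000000
set_option linter.unusedSimpArgs false

namespace Pool.Agent.H349R3

open Module MvPolynomial

section Smooth

variable {N : ℕ}

theorem eval_eq_sum7 (p : Polynomial ℂ) (hp : p.natDegree < 7) (t : ℂ) :
    p.eval t = ∑ j : Fin 7, p.coeff j * t ^ (j : ℕ) := by
  rw [Polynomial.eval_eq_sum_range' hp, Finset.sum_range]

/-- all diagonal quadrics `∑ p(i) x_i ^ 2` with `p` of degree at most six are in the ideal -/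
theorem diag_mem (p : Polynomial ℂ) (hp : p.natDegree < 7) :
    (∑ i : Fin (N + 1), C (p.eval ((i : ℕ) : ℂ)) * X i ^ 2 : MvPolynomial (Fin (N + 1)) ℂ) ∈ IX N := by
  have h1 : (∑ i : Fin (N + 1), C (p.eval ((i : ℕ) : ℂ)) * X i ^ 2 :
      MvPolynomial (Fin (N + 1)) ℂ) = ∑ j : Fin 7, C (p.coeff j) * Qd N j := by
    unfold Qd
    simp only [Finset.mul_sum]
    rw [Finset.sum_comm]
    refine Finset.sum_congr rfl fun i _ => ?_
    rw [eval_eq_sum7 p hp, map_sum, Finset.sum_mul]
    refine Finset.sum_congr rfl fun j _ => ?_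
    rw [map_mul]; ring
  rw [h1]
  exact Ideal.sum_mem _ fun j _ => Ideal.mul_mem_left _ _ (Ideal.subset_span ⟨j, rfl⟩)

theorem grad_Qd (j : Fin 7) (x : Fin (N + 1) → ℂ) :
    grad (Qd N j) x = fun i : Fin (N + 1) => 2 * ((i : ℕ) : ℂ) ^ (j : ℕ) * x i := by
  funext i
  unfold grad Qd
  rw [map_sum, map_sum]
  rw [Finset.sum_eq_single i]
  · rw [pderiv_C_mul, Derivation.leibniz_pow, pderiv_X_self]
    simp
    ring
  · intro k _ hk
    rw [pderiv_C_mul, Derivation.leibniz_pow, pderiv_X_of_ne hk]
    simp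
  · simp

theorem span_grad (x : Fin (N + 1) → ℂ) (hx : x ∈ cone (IX N)) :
    Submodule.span ℂ ((fun f => grad f x) '' (IX N : Set (MvPolynomial (Fin (N + 1)) ℂ))) =
      Submodule.span ℂ (Set.range fun j : Fin 7 => grad (Qd N j) x) := by
  apply le_antisymm
  · refine Submodule.span_le.mpr ?_
    rintro _ ⟨f, hf, rfl⟩
    rw [SetLike.mem_coe, IX] at hf
    have h0 : ∀ f ∈ IX N, eval x f = 0 := hx
    show grad f x ∈ _
    induction hf using Submodule.span_induction with
    | mem f hf =>
      obtain ⟨j, rfl⟩ := hf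
      exact Submodule.subset_span ⟨j, rfl⟩
    | zero =>
      have : grad (0 : MvPolynomial (Fin (N + 1)) ℂ) x = 0 := by funext i; simp [grad]
      rw [this]; exact Submodule.zero_mem _
    | add f g _ _ hf hg =>
      have : grad (f + g) x = grad f x + grad g x := by funext i; simp [grad]
      rw [this]; exact Submodule.add_mem _ hf hg
    | smul h f hfI hf =>
      have : grad (h • f) x = eval x h • grad f x := by
        funext i
        simp only [grad, smul_eq_mul, Derivation.leibniz, map_add, map_mul, Pi.smul_apply]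
        rw [h0 f hfI, zero_mul, add_zero]
      rw [this]; exact Submodule.smul_mem _ _ hf
  · refine Submodule.span_mono ?_
    rintro _ ⟨j, rfl⟩
    exact ⟨Qd N j, Ideal.subset_span ⟨j, rfl⟩, rfl⟩

theorem linInd_grad (x : Fin (N + 1) → ℂ) (hx : x ∈ cone (IX N)) (hx0 : x ≠ 0) :
    LinearIndependent ℂ (fun j : Fin 7 => grad (Qd N j) x) := by
  classical
  rw [Fintype.linearIndependent_iff]
  intro c hc
  let p : Polynomial ℂ := ∑ j : Fin 7, Polynomial.C (c j) * Polynomial.X ^ (j : ℕ)
  have hpc : ∀ j : Fin 7, p.coeff j = c j := by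
    intro j
    simp only [p, Polynomial.finsetSum_coeff, Polynomial.coeff_C_mul, Polynomial.coeff_X_pow]
    rw [Finset.sum_eq_single j]
    · simp
    · intro k _ hk
      rw [if_neg (by intro h; exact hk (Fin.ext h.symm)), mul_zero]
    · simp
  have hpd : p.natDegree < 7 := by
    have : p.natDegree ≤ 6 := by
      refine Polynomial.natDegree_sum_le_of_forall_le _ _ fun j _ => ?_
      refine (Polynomial.natDegree_C_mul_X_pow_le _ _).trans ?_
      have := j.2
      omega
    omega
  have hpx : ∀ i : Fin (N + 1), p.eval ((i : ℕ) : ℂ) * x i = 0 := by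
    intro i
    have h1 := congrFun hc i
    simp only [Finset.sum_apply, Pi.smul_apply, grad_Qd, smul_eq_mul, Pi.zero_apply] at h1
    rw [eval_eq_sum7 p hpd, Finset.sum_mul]
    have h2 : ∑ j : Fin 7, p.coeff j * ((i : ℕ) : ℂ) ^ (j : ℕ) * x i =
        (∑ j : Fin 7, c j * (2 * ((i : ℕ) : ℂ) ^ (j : ℕ) * x i)) / 2 := by
      rw [Finset.sum_div]
      refine Finset.sum_congr rfl fun j _ => ?_
      rw [hpc]; ring
    rw [h2, h1, zero_div]
  by_cases hp0 : p = 0
  · intro j
    rw [← hpc, hp0, Polynomial.coeff_zero]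
  · exfalso
    let T : Finset (Fin (N + 1)) := Finset.univ.filter fun i => x i ≠ 0
    have hinj : Function.Injective (fun i : Fin (N + 1) => ((i : ℕ) : ℂ)) := by
      intro a b hab
      have h : ((a : ℕ) : ℂ) = ((b : ℕ) : ℂ) := hab
      exact Fin.ext (by exact_mod_cast h)
    have hT : T.card ≤ 6 := by
      have h1 : (T.image fun i : Fin (N + 1) => ((i : ℕ) : ℂ)) ⊆ p.roots.toFinset := by
        intro y hy
        rw [Finset.mem_image] at hy
        obtain ⟨i, hi, rfl⟩ := hy
        rw [Multiset.mem_toFinset, Polynomial.mem_roots hp0, Polynomial.IsRoot.def]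
        exact (mul_eq_zero.mp (hpx i)).resolve_right (Finset.mem_filter.mp hi).2
      have h2 := Finset.card_le_card h1
      rw [Finset.card_image_of_injective _ hinj] at h2
      have h3 := (Multiset.toFinset_card_le p.roots).trans (Polynomial.card_roots' p)
      omega
    obtain ⟨i0, hi0⟩ : ∃ i, x i ≠ 0 := by
      by_contra hcon
      push Not at hcon
      exact hx0 (funext hcon)
    have hi0T : i0 ∈ T := Finset.mem_filter.mpr ⟨Finset.mem_univ _, hi0⟩
    let q : Polynomial ℂ := ∏ i ∈ T.erase i0, (Polynomial.X - Polynomial.C ((i : ℕ) : ℂ))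
    have hqd : q.natDegree < 7 := by
      have h1 : q.natDegree = (T.erase i0).card :=
        Polynomial.natDegree_finsetProd_X_sub_C_eq_card _ _
      rw [h1, Finset.card_erase_of_mem hi0T]
      omega
    have h1 := hx _ (diag_mem (N := N) q hqd)
    simp only [map_sum, map_mul, map_pow, eval_C, eval_X] at h1
    rw [Finset.sum_eq_single i0] at h1
    · rcases mul_eq_zero.mp h1 with h2 | h2
      · rw [Polynomial.eval_prod, Finset.prod_eq_zero_iff] at h2
        obtain ⟨i, hi, h3⟩ := h2
        rw [Polynomial.eval_sub, Polynomial.eval_X, Polynomial.eval_C, sub_eq_zero] at h3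
        exact (Finset.ne_of_mem_erase hi) (hinj h3).symm
      · exact hi0 (pow_eq_zero_iff (two_ne_zero) |>.mp h2)
    · intro i _ hi
      by_cases hiT : i ∈ T
      · have : q.eval ((i : ℕ) : ℂ) = 0 := by
          rw [Polynomial.eval_prod]
          refine Finset.prod_eq_zero (Finset.mem_erase.mpr ⟨hi, hiT⟩) ?_
          simp
        rw [this, zero_mul]
      · have : x i = 0 := by
          by_contra hne
          exact hiT (Finset.mem_filter.mpr ⟨Finset.mem_univ _, hne⟩)
        rw [this]; simp
    · simp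

theorem smooth_IX (x : Fin (N + 1) → ℂ) (hx : x ∈ cone (IX N)) (hx0 : x ≠ 0) :
    finrank ℂ (Submodule.span ℂ ((fun f => grad f x) '' (IX N : Set (MvPolynomial (Fin (N + 1)) ℂ))))
      = 7 := by
  rw [span_grad x hx, finrank_span_eq_card (linInd_grad x hx hx0)]
  simp

end Smooth

section Hom

attribute [local instance] MvPolynomial.gradedAlgebra

theorem homogeneous_IX (N : ℕ) (f : MvPolynomial (Fin (N + 1)) ℂ) (hf : f ∈ IX N) (d : ℕ) :
    homogeneousComponent d f ∈ IX N := by
  have h1 : (IX N).IsHomogeneous (homogeneousSubmodule (Fin (N + 1)) ℂ) := by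
    refine Ideal.homogeneous_span _ _ ?_
    rintro _ ⟨j, rfl⟩
    refine ⟨2, ?_⟩
    rw [mem_homogeneousSubmodule]
    unfold Qd
    refine IsHomogeneous.sum _ _ _ fun i _ => ?_
    exact (isHomogeneous_C_mul_X_pow _ _ _)
  have h2 := h1 d hf
  have h3 : ((DirectSum.decompose (homogeneousSubmodule (Fin (N + 1)) ℂ) f) d :
      MvPolynomial (Fin (N + 1)) ℂ) = homogeneousComponent d f :=
    MvPolynomial.decomposition.decompose'_apply f d
  rwa [h3] at h2

end Hom

end Pool.Agent.H349R3
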