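import Pool.Agent.H349R3.VarA

/-! The coefficients of the seven quadrics after elimination. -/

set_option maxHeartbeats 4000000
set_option linter.unusedSimpArgs false

namespace Pool.Agent.H349R3

open Module MvPolynomial

/-- the nodes -/
noncomputable def nod (i : Fin 7) : ℂ := ((i : ℕ) : ℂ)

theorem nod_inj : Function.Injective nod := by
  intro a b hab
  have h : ((a : ℕ) : ℂ) = ((b : ℕ) : ℂ) := hab
  exact Fin.ext (by exact_mod_cast h)

/-- the Lagrange basis polynomials -/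
noncomputable def ell (i : Fin 7) : Polynomial ℂ := Lagrange.basis Finset.univ nod i

theorem ell_self (i : Fin 7) : (ell i).eval (nod i) = 1 :=
  Lagrange.eval_basis_self nod_inj.injOn (Finset.mem_univ i)

theorem ell_ne {i j : Fin 7} (h : i ≠ j) : (ell i).eval (nod j) = 0 :=
  Lagrange.eval_basis_of_ne h (Finset.mem_univ j)

theorem ell_deg (i : Fin 7) : (ell i).natDegree < 7 := by
  have := Lagrange.natDegree_basis (s := Finset.univ) nod_inj.injOn (Finset.mem_univ i)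
  rw [ell, this]
  simp

theorem sum_ell (j : Fin 7) (t : ℂ) :
    ∑ i : Fin 7, nod i ^ (j : ℕ) * (ell i).eval t = t ^ (j : ℕ) := by
  have h := Lagrange.eq_interpolate (s := (Finset.univ : Finset (Fin 7))) (v := nod)
    (f := (Polynomial.X ^ (j : ℕ) : Polynomial ℂ)) nod_inj.injOn (by
      rw [Polynomial.degree_X_pow]
      simp only [Finset.card_univ, Fintype.card_fin]
      exact_mod_cast j.2)
  have h2 := congrArg (Polynomial.eval t) h
  rw [Lagrange.interpolate_apply, Polynomial.eval_finsetSum] at h2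
  simp only [Polynomial.eval_mul, Polynomial.eval_C, Polynomial.eval_pow, Polynomial.eval_X] at h2
  exact h2.symm

/-- the product formula -/
theorem ell_mul (i : Fin 7) (t : ℂ) :
    (ell i).eval t * (t - nod i) =
      (∏ j ∈ Finset.univ.erase i, (nod i - nod j)⁻¹) * ∏ j : Fin 7, (t - nod j) := by
  rw [ell, Lagrange.basis, Polynomial.eval_prod]
  rw [← Finset.prod_erase_mul _ _ (Finset.mem_univ i), ← mul_assoc, ← Finset.prod_mul_distrib]
  congr 1
  refine Finset.prod_congr rfl fun j _ => ?_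
  simp [Lagrange.basisDivisor]

/-- the coefficients -/
noncomputable def wc (i : Fin 7) (k : ℕ) : ℂ := - (ell i).eval (((7 + k : ℕ) : ℂ))

theorem t_sub_ne (k : ℕ) (j : Fin 7) : (((7 + k : ℕ) : ℂ)) - nod j ≠ 0 := by
  rw [sub_ne_zero]
  intro h
  have h' : ((7 + k : ℕ) : ℂ) = ((j : ℕ) : ℂ) := h
  have h2 : 7 + k = (j : ℕ) := by exact_mod_cast h'
  have := j.2
  omega

theorem cst_ne (i : Fin 7) : (∏ j ∈ Finset.univ.erase i, (nod i - nod j)⁻¹) ≠ 0 := by
  rw [Finset.prod_ne_zero_iff]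
  intro j hj
  exact inv_ne_zero (sub_ne_zero.mpr fun h => (Finset.ne_of_mem_erase hj) (nod_inj h).symm)

theorem wc_mul (i : Fin 7) (k : ℕ) : wc i k * (((7 + k : ℕ) : ℂ) - nod i) =
    - ((∏ j ∈ Finset.univ.erase i, (nod i - nod j)⁻¹) * ∏ j : Fin 7, (((7 + k : ℕ) : ℂ) - nod j)) := by
  rw [← ell_mul, wc]; ring

theorem wc_ne (i : Fin 7) (k : ℕ) : wc i k ≠ 0 := by
  intro h
  have h1 := wc_mul i k
  rw [h, zero_mul, eq_comm, neg_eq_zero] at h1
  rcases mul_eq_zero.mp h1 with h2 | h2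
  · exact cst_ne i h2
  · rw [Finset.prod_eq_zero_iff] at h2
    obtain ⟨j, _, hj⟩ := h2
    exact t_sub_ne k j hj

/-- the two by two minors do not vanish -/
theorem wc_minor {i i' : Fin 7} (h : i ≠ i') : wc i 0 * wc i' 1 ≠ wc i' 0 * wc i 1 := by
  intro heq
  have a0 := wc_mul i 0
  have a1 := wc_mul i 1
  have b0 := wc_mul i' 0
  have b1 := wc_mul i' 1
  have hw := wc_ne i 0
  set ci := ∏ j ∈ Finset.univ.erase i, (nod i - nod j)⁻¹ with hci
  set ci' := ∏ j ∈ Finset.univ.erase i', (nod i' - nod j)⁻¹ with hci'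
  set n0 := ∏ j : Fin 7, (((7 + 0 : ℕ) : ℂ) - nod j) with hn0
  set n1 := ∏ j : Fin 7, (((7 + 1 : ℕ) : ℂ) - nod j) with hn1
  have c1 : ci ≠ 0 := cst_ne i
  have c2 : ci' ≠ 0 := cst_ne i'
  have m0 : n0 ≠ 0 := Finset.prod_ne_zero_iff.mpr fun j _ => t_sub_ne 0 j
  have m1 : n1 ≠ 0 := Finset.prod_ne_zero_iff.mpr fun j _ => t_sub_ne 1 j
  -- multiply
  have key : (ci * n0) * (ci' * n1) * ((((7 + 1 : ℕ) : ℂ) - nod i) * (((7 + 0 : ℕ) : ℂ) - nod i'))
      = (ci' * n0) * (ci * n1) * ((((7 + 0 : ℕ) : ℂ) - nod i) * (((7 + 1 : ℕ) : ℂ) - nod i')) := by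
    have e0 : ci * n0 = - (wc i 0 * (((7 + 0 : ℕ) : ℂ) - nod i)) := by rw [a0]; ring
    have e1 : ci * n1 = - (wc i 1 * (((7 + 1 : ℕ) : ℂ) - nod i)) := by rw [a1]; ring
    have f0 : ci' * n0 = - (wc i' 0 * (((7 + 0 : ℕ) : ℂ) - nod i')) := by rw [b0]; ring
    have f1 : ci' * n1 = - (wc i' 1 * (((7 + 1 : ℕ) : ℂ) - nod i')) := by rw [b1]; ring
    rw [e0, e1, f0, f1]
    linear_combination ((((7 + 0 : ℕ) : ℂ) - nod i)) * (((7 + 1 : ℕ) : ℂ) - nod i') *
      ((((7 + 1 : ℕ) : ℂ) - nod i) * (((7 + 0 : ℕ) : ℂ) - nod i')) * heq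
  have key2 : ((((7 + 1 : ℕ) : ℂ) - nod i) * (((7 + 0 : ℕ) : ℂ) - nod i'))
      = ((((7 + 0 : ℕ) : ℂ) - nod i) * (((7 + 1 : ℕ) : ℂ) - nod i')) := by
    have hne : ci * ci' * n0 * n1 ≠ 0 := mul_ne_zero (mul_ne_zero (mul_ne_zero c1 c2) m0) m1
    apply mul_left_cancel₀ hne
    linear_combination key
  apply h
  apply nod_inj
  push_cast at key2
  linear_combination key2

end Pool.Agent.H349R3
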