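import Pool.Agent.H349R3.VarB
import Pool.Agent.Helper834.EC.Dim1

/-! The seven quadrics define a prime ideal. -/

set_option maxHeartbeats 4000000
set_option linter.unusedSimpArgs false

namespace Pool.Agent.H349R3

open Module MvPolynomial

/-- splitting the variables -/
def eqv (n : ℕ) : Fin 7 ⊕ Fin (n + 1) ≃ Fin (n + 7 + 1) :=
  finSumFinEquiv.trans (finCongr (by omega))

theorem eqv_inl {n : ℕ} (i : Fin 7) : ((eqv n (Sum.inl i) : Fin (n + 7 + 1)) : ℕ) = i := by
  simp [eqv]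

theorem eqv_inr {n : ℕ} (k : Fin (n + 1)) :
    ((eqv n (Sum.inr k) : Fin (n + 7 + 1)) : ℕ) = 7 + k := by
  simp [eqv, add_comm]

theorem sum_eqv {n : ℕ} {A : Type*} [AddCommMonoid A] (F : Fin (n + 7 + 1) → A) :
    ∑ m, F m = ∑ i : Fin 7, F (eqv n (Sum.inl i)) + ∑ k : Fin (n + 1), F (eqv n (Sum.inr k)) := by
  rw [← (eqv n).sum_comp, Fintype.sum_sum_type]

/-- the quadrics giving the squares of the first seven variables -/
noncomputable def gq (n : ℕ) (i : Fin 7) : MvPolynomial (Fin (n + 1)) ℂ :=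
  ∑ k : Fin (n + 1), C (wc i k) * X k ^ 2

/-- the inclusion of the last variables -/
noncomputable def inc (n : ℕ) : MvPolynomial (Fin (n + 1)) ℂ →ₐ[ℂ] MvPolynomial (Fin (n + 7 + 1)) ℂ :=
  rename fun k => eqv n (Sum.inr k)

theorem sq_mem (n : ℕ) (i : Fin 7) :
    (X (eqv n (Sum.inl i)) ^ 2 - inc n (gq n i) : MvPolynomial (Fin (n + 7 + 1)) ℂ) ∈ IX (n + 7) := by
  have h := diag_mem (N := n + 7) (ell i) (ell_deg i)
  rw [sum_eqv] at h
  convert h using 1
  rw [sub_eq_add_neg]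
  congr 1
  · rw [Finset.sum_eq_single i]
    · have : (ell i).eval (((eqv n (Sum.inl i) : Fin (n + 7 + 1)) : ℕ) : ℂ) = 1 := by
        rw [eqv_inl]; exact ell_self i
      rw [this, C_1, one_mul]
    · intro j _ hj
      have : (ell i).eval (((eqv n (Sum.inl j) : Fin (n + 7 + 1)) : ℕ) : ℂ) = 0 := by
        rw [eqv_inl]; exact ell_ne (Ne.symm hj)
      rw [this, C_0, zero_mul]
    · simp
  · rw [gq, map_sum, ← Finset.sum_neg_distrib]
    refine Finset.sum_congr rfl fun k _ => ?_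
    rw [inc, map_mul, map_pow, rename_C, rename_X, eqv_inr, wc, C_neg]
    ring

section Phi

variable {n : ℕ} {Ω : Type*} [CommRing Ω] (jD : MvPolynomial (Fin (n + 1)) ℂ →+* Ω) (ρ : Fin 7 → Ω)

/-- the evaluation map -/
noncomputable def phi : MvPolynomial (Fin (n + 7 + 1)) ℂ →+* Ω :=
  eval₂Hom (jD.comp C) (fun m => Sum.elim ρ (fun k => jD (X k)) ((eqv n).symm m))

theorem phi_inl (i : Fin 7) : phi jD ρ (X (eqv n (Sum.inl i))) = ρ i := by
  simp [phi]

theorem phi_inr (k : Fin (n + 1)) : phi jD ρ (X (eqv n (Sum.inr k))) = jD (X k) := by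
  simp [phi]

theorem phi_C (c : ℂ) : phi jD ρ (C c) = jD (C c) := by
  simp [phi]

theorem phi_inc (d : MvPolynomial (Fin (n + 1)) ℂ) : phi jD ρ (inc n d) = jD d := by
  have : (phi jD ρ).comp (inc n : _ →+* _) = jD := by
    apply MvPolynomial.ringHom_ext
    · intro c
      rw [RingHom.comp_apply]
      show phi jD ρ (inc n (C c)) = _
      rw [inc, rename_C, phi_C]
    · intro k
      rw [RingHom.comp_apply]
      show phi jD ρ (inc n (X k)) = _
      rw [inc, rename_X, phi_inr]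
  exact congrArg (fun f => f d) this

theorem phi_Qd (hρ : ∀ i, ρ i ^ 2 = jD (gq n i)) (j : Fin 7) : phi jD ρ (Qd (n + 7) j) = 0 := by
  rw [Qd, map_sum, sum_eqv]
  have h1 : ∀ i : Fin 7, phi jD ρ (C ((((eqv n (Sum.inl i) : Fin (n + 7 + 1)) : ℕ) : ℂ) ^ (j : ℕ)) *
      X (eqv n (Sum.inl i)) ^ 2) = jD (∑ k : Fin (n + 1), C (nod i ^ (j : ℕ) * wc i k) * X k ^ 2) := by
    intro i
    rw [map_mul, map_pow (phi jD ρ) (X _), phi_inl, phi_C, hρ, eqv_inl, ← map_mul, gq, Finset.mul_sum]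
    congr 1
    refine Finset.sum_congr rfl fun k _ => ?_
    rw [C_mul, mul_assoc]; rfl
  have h2 : ∀ k : Fin (n + 1), phi jD ρ (C ((((eqv n (Sum.inr k) : Fin (n + 7 + 1)) : ℕ) : ℂ) ^ (j : ℕ)) *
      X (eqv n (Sum.inr k)) ^ 2) = jD (C (((7 + k : ℕ) : ℂ) ^ (j : ℕ)) * X k ^ 2) := by
    intro k
    rw [map_mul, map_pow (phi jD ρ) (X _), phi_inr, phi_C, eqv_inr, ← map_pow, ← map_mul]
  simp only [h1, h2]
  rw [← map_sum, ← map_sum, ← map_add, Finset.sum_comm, ← Finset.sum_add_distrib]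
  convert map_zero jD
  refine Finset.sum_eq_zero fun k _ => ?_
  rw [← Finset.sum_mul, ← add_mul, ← map_sum, ← map_add]
  have h3 : ∑ i : Fin 7, nod i ^ (j : ℕ) * wc i k + ((7 + k : ℕ) : ℂ) ^ (j : ℕ) = 0 := by
    have := sum_ell j (((7 + k : ℕ) : ℂ))
    rw [← this]
    simp only [wc, mul_neg, Finset.sum_neg_distrib]
    ring
  rw [h3, C_0, zero_mul]

/-- the induced map on the quotient -/
noncomputable def phiBar (hρ : ∀ i, ρ i ^ 2 = jD (gq n i)) :
    MvPolynomial (Fin (n + 7 + 1)) ℂ ⧸ IX (n + 7) →+* Ω :=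
  Ideal.Quotient.lift _ (phi jD ρ) (by
    intro f hf
    have : IX (n + 7) ≤ RingHom.ker (phi jD ρ) := by
      rw [IX, Ideal.span_le]
      rintro _ ⟨j, rfl⟩
      exact phi_Qd jD ρ hρ j
    exact this hf)

end Phi

section Span

theorem rep_abs {D Q : Type*} [CommRing D] [CommRing Q] (ψ : D →+* Q) (x : Fin 7 → Q)
    (g : Fin 7 → D) (hx : ∀ i, x i ^ 2 = ψ (g i))
    (hgen : ∀ q : Q, q ∈ Subring.closure (Set.range ψ ∪ Set.range x)) :
    (∀ q, ∃ d : Finset (Fin 7) → D, q = ∑ T, ψ (d T) * ∏ i ∈ T, x i) ∧ ψ.Finite := by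
  let _ : Algebra D Q := ψ.toAlgebra
  have halg : ∀ d : D, ∀ q : Q, d • q = ψ d * q := fun d q => Algebra.smul_def d q
  have hspan : Submodule.span D (Set.range fun T : Finset (Fin 7) => ∏ i ∈ T, x i) = ⊤ := by
    set W := Submodule.span D (Set.range fun T : Finset (Fin 7) => ∏ i ∈ T, x i) with hW
    have hxW : ∀ i, ∀ q ∈ W, q * x i ∈ W := by
      intro i q hq
      rw [hW] at hq
      induction hq using Submodule.span_induction with
      | mem q hq =>
        obtain ⟨T, rfl⟩ := hq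
        by_cases hi : i ∈ T
        · have h1 : (∏ j ∈ T, x j) * x i = (g i) • ∏ j ∈ T.erase i, x j := by
            rw [← Finset.prod_erase_mul _ _ hi, halg, ← hx]; ring
          show (∏ j ∈ T, x j) * x i ∈ W
          rw [h1]
          exact W.smul_mem _ (Submodule.subset_span ⟨_, rfl⟩)
        · have h1 : (∏ j ∈ T, x j) * x i = ∏ j ∈ insert i T, x j := by
            rw [Finset.prod_insert hi]; ring
          show (∏ j ∈ T, x j) * x i ∈ W
          rw [h1]
          exact Submodule.subset_span ⟨_, rfl⟩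
      | zero => rw [zero_mul]; exact W.zero_mem
      | add x y _ _ hx hy => rw [add_mul]; exact W.add_mem hx hy
      | smul d x _ hx => rw [smul_mul_assoc]; exact W.smul_mem _ hx
    have key : ∀ q : Q, q ∈ Subring.closure (Set.range ψ ∪ Set.range x) → ∀ w ∈ W, w * q ∈ W := by
      intro q hq
      induction hq using Subring.closure_induction with
      | mem q hq =>
        rcases hq with ⟨d, rfl⟩ | ⟨i, rfl⟩
        · intro w hw
          rw [mul_comm, ← halg]
          exact W.smul_mem _ hw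
        · exact hxW i
      | zero => intro w hw; rw [mul_zero]; exact W.zero_mem
      | one => intro w hw; rw [mul_one]; exact hw
      | add a b _ _ ha hb => intro w hw; rw [mul_add]; exact W.add_mem (ha w hw) (hb w hw)
      | neg a _ ha => intro w hw; rw [mul_neg]; exact W.neg_mem (ha w hw)
      | mul a b _ _ ha hb => intro w hw; rw [← mul_assoc]; exact hb _ (ha w hw)
    have h1 : (1 : Q) ∈ W := Submodule.subset_span ⟨∅, by simp⟩
    rw [eq_top_iff]
    rintro q -
    have := key q (hgen q) 1 h1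
    rwa [one_mul] at this
  constructor
  · intro q
    have h : q ∈ Submodule.span D (Set.range fun T : Finset (Fin 7) => ∏ i ∈ T, x i) := by
      rw [hspan]; trivial
    rw [Submodule.mem_span_range_iff_exists_fun] at h
    obtain ⟨c, hc⟩ := h
    refine ⟨c, ?_⟩
    rw [← hc]
    exact Finset.sum_congr rfl fun T _ => Algebra.smul_def _ _
  · exact ⟨(Submodule.fg_def.mpr ⟨_, Set.finite_range _, hspan⟩)⟩

variable (n : ℕ)

/-- the structure map -/
noncomputable def psi : MvPolynomial (Fin (n + 1)) ℂ →+* MvPolynomial (Fin (n + 7 + 1)) ℂ ⧸ IX (n + 7) :=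
  (Ideal.Quotient.mk (IX (n + 7))).comp (inc n : _ →+* _)

/-- the first seven variables -/
noncomputable def xq (i : Fin 7) : MvPolynomial (Fin (n + 7 + 1)) ℂ ⧸ IX (n + 7) :=
  Ideal.Quotient.mk (IX (n + 7)) (X (eqv n (Sum.inl i)))

theorem xq_sq (i : Fin 7) : xq n i ^ 2 = psi n (gq n i) := by
  rw [xq, ← map_pow]
  exact Ideal.Quotient.eq.mpr (sq_mem n i)

theorem gen_all (q : MvPolynomial (Fin (n + 7 + 1)) ℂ ⧸ IX (n + 7)) :
    q ∈ Subring.closure (Set.range (psi n) ∪ Set.range (xq n)) := by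
  obtain ⟨f, rfl⟩ := Ideal.Quotient.mk_surjective q
  induction f using MvPolynomial.induction_on with
  | C c =>
    refine Subring.subset_closure (Or.inl ⟨C c, ?_⟩)
    rw [psi, RingHom.comp_apply]
    show Ideal.Quotient.mk (IX (n + 7)) (inc n (C c)) = _
    rw [inc, rename_C]
  | add p q hp hq => rw [map_add]; exact Subring.add_mem _ hp hq
  | mul_X p m hp =>
    rw [map_mul]
    refine Subring.mul_mem _ hp ?_
    obtain ⟨s, rfl⟩ := (eqv n).surjective m
    rcases s with i | k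
    · exact Subring.subset_closure (Or.inr ⟨i, rfl⟩)
    · refine Subring.subset_closure (Or.inl ⟨X k, ?_⟩)
      rw [psi, RingHom.comp_apply]
      show Ideal.Quotient.mk (IX (n + 7)) (inc n (X k)) = _
      rw [inc, rename_X]

theorem exists_rep (q : MvPolynomial (Fin (n + 7 + 1)) ℂ ⧸ IX (n + 7)) :
    ∃ d : Finset (Fin 7) → MvPolynomial (Fin (n + 1)) ℂ, q = ∑ T, psi n (d T) * ∏ i ∈ T, xq n i :=
  (rep_abs (psi n) (xq n) (gq n) (xq_sq n) (gen_all n)).1 q

theorem psi_finite : (psi n).Finite :=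
  (rep_abs (psi n) (xq n) (gq n) (xq_sq n) (gen_all n)).2

end Span

end Pool.Agent.H349R3
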