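import Pool.Agent.H349R3.VarC

/-! The seven quadrics define an irreducible variety of codimension seven. -/

set_option maxHeartbeats 4000000
set_option linter.unusedSimpArgs false

namespace Pool.Agent.H349R3

open Module MvPolynomial

theorem not_sq (n : ℕ) (hn : 1 ≤ n) (T : Finset (Fin 7)) (hT : T.Nonempty)
    (h : MvPolynomial (Fin (n + 1)) ℂ) : h ^ 2 ≠ ∏ i ∈ T, gq n i := by
  obtain ⟨m, rfl⟩ : ∃ m, n = m + 1 := ⟨n - 1, by omega⟩
  intro heq
  obtain ⟨i0, hi0⟩ := hT
  obtain ⟨α, hα⟩ := IsAlgClosed.exists_pow_nat_eq (- wc i0 0 / wc i0 1) (n := 2) (by norm_num)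
  have hα' : wc i0 0 + wc i0 1 * α ^ 2 = 0 := by
    rw [hα, mul_div_cancel₀ _ (wc_ne i0 1)]
    ring
  let P : Fin (m + 1 + 1) → ℂ := Fin.cons 1 (Fin.cons α 0)
  have hev : ∀ i, eval P (gq (m + 1) i) = wc i 0 + wc i 1 * α ^ 2 := by
    intro i
    rw [gq, map_sum, Fin.sum_univ_succ, Fin.sum_univ_succ]
    simp [P]
  have h0 : eval P (gq (m + 1) i0) = 0 := by rw [hev, hα']
  have hne : ∀ i, i ≠ i0 → eval P (gq (m + 1) i) ≠ 0 := by
    intro i hi
    rw [hev]
    intro h1
    apply wc_minor hi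
    have hw := wc_ne i 0
    have hα0 : α ^ 2 ≠ 0 := by
      intro h2
      rw [h2, mul_zero, add_zero] at h1
      exact hw h1
    apply mul_right_cancel₀ hα0
    linear_combination wc i 0 * hα' - wc i0 0 * h1
  have hhP : eval P h = 0 := by
    have h1 := congrArg (eval P) heq
    rw [map_pow, map_prod, Finset.prod_eq_zero hi0 h0] at h1
    exact pow_eq_zero_iff (two_ne_zero) |>.mp h1
  have hd : eval P (pderiv 0 (h ^ 2)) = eval P (pderiv 0 (∏ i ∈ T, gq (m + 1) i)) := by rw [heq]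
  rw [← Finset.prod_erase_mul _ _ hi0, Derivation.leibniz, Derivation.leibniz_pow] at hd
  simp only [map_add, map_mul, smul_eq_mul, map_nsmul, nsmul_eq_mul, map_pow, hhP, h0] at hd
  have hg : eval P (pderiv 0 (gq (m + 1) i0)) = 2 * wc i0 0 := by
    rw [gq, map_sum, map_sum, Finset.sum_eq_single 0]
    · rw [pderiv_C_mul, Derivation.leibniz_pow, pderiv_X_self]
      simp [P]
      ring
    · intro k _ hk
      rw [pderiv_C_mul, Derivation.leibniz_pow, pderiv_X_of_ne hk]
      simp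
    · simp
  rw [hg] at hd
  have hprod : eval P (∏ x ∈ T.erase i0, gq (m + 1) x) ≠ 0 := by
    rw [map_prod, Finset.prod_ne_zero_iff]
    intro i hi
    exact hne i (Finset.ne_of_mem_erase hi)
  have h2 : eval P (∏ x ∈ T.erase i0, gq (m + 1) x) * (2 * wc i0 0) = 0 := by
    simpa using hd.symm
  rcases mul_eq_zero.mp h2 with h3 | h3
  · exact hprod h3
  · rcases mul_eq_zero.mp h3 with h4 | h4
    · norm_num at h4
    · exact wc_ne i0 0 h4

theorem inj_abs {D Q : Type} [CommRing D] [IsDomain D] [CharZero D] [IsIntegrallyClosed D]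
    [CommRing Q] (ψ : D →+* Q) (x : Fin 7 → Q) (g : Fin 7 → D)
    (hns : ∀ T : Finset (Fin 7), T.Nonempty → ∀ h : D, h ^ 2 ≠ ∏ i ∈ T, g i)
    (hrep : ∀ q, ∃ d : Finset (Fin 7) → D, q = ∑ T, ψ (d T) * ∏ i ∈ T, x i)
    (hphi : ∀ (Ω : Type) [Field Ω] (jD : D →+* Ω) (ρ : Fin 7 → Ω), (∀ i, ρ i ^ 2 = jD (g i)) →
      ∃ F : Q →+* Ω, (∀ d, F (ψ d) = jD d) ∧ ∀ i, F (x i) = ρ i) :
    IsDomain Q ∧ Function.Injective ψ := by
  classical
  let K0 := FractionRing D
  let Ω := AlgebraicClosure K0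
  have : CharZero K0 := charZero_of_injective_algebraMap (IsFractionRing.injective D K0)
  have : CharZero Ω := charZero_of_injective_algebraMap (algebraMap K0 Ω).injective
  let jD : D →+* Ω := (algebraMap K0 Ω).comp (algebraMap D K0)
  have hjD : Function.Injective jD :=
    (algebraMap K0 Ω).injective.comp (IsFractionRing.injective D K0)
  have hsq : ∀ i, ∃ r : Ω, r ^ 2 = jD (g i) := fun i =>
    IsAlgClosed.exists_pow_nat_eq (jD (g i)) (n := 2) (by norm_num)
  choose ρ hρ using hsq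
  obtain ⟨F, hF1, hF2⟩ := hphi Ω jD ρ hρ
  have hFinj : Function.Injective F := by
    rw [injective_iff_map_eq_zero]
    intro q hq
    obtain ⟨d, rfl⟩ := hrep q
    rw [map_sum] at hq
    simp only [map_mul, map_prod, hF1, hF2] at hq
    have hk := kummer ρ Finset.univ (algebraMap K0 Ω).fieldRange
      (fun i _ => ⟨algebraMap D K0 (g i), (hρ i).symm⟩)
      (by
        rintro T - hT _ ⟨κ, rfl⟩ hκ
        have h1 : algebraMap K0 Ω (κ ^ 2) = algebraMap K0 Ω (algebraMap D K0 (∏ i ∈ T, g i)) := by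
          rw [map_pow, hκ]
          simp only [hρ]
          rw [← map_prod]
          rfl
        have h2 := (algebraMap K0 Ω).injective h1
        have h3 : IsIntegral D κ := IsIntegral.of_pow (n := 2) (by norm_num) (by
          rw [h2]; exact isIntegral_algebraMap)
        obtain ⟨y, hy⟩ := IsIntegrallyClosed.isIntegral_iff.mp h3
        apply hns T hT y
        apply IsFractionRing.injective D K0
        rw [map_pow, hy, h2])
      (fun T => jD (d T)) (fun T _ => ⟨algebraMap D K0 (d T), rfl⟩)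
      (by rw [Finset.powerset_univ]; exact hq)
    refine Finset.sum_eq_zero fun T _ => ?_
    have h4 : d T = 0 := hjD (by rw [hk T (Finset.subset_univ _), map_zero])
    rw [h4, map_zero, zero_mul]
  refine ⟨hFinj.isDomain F, ?_⟩
  intro a b hab
  apply hjD
  rw [← hF1, ← hF1, hab]

theorem dim_abs {D Q : Type} [CommRing D] [CommRing Q] (ψ : D →+* Q) (hf : ψ.Finite)
    (hinj : Function.Injective ψ) : ringKrullDim Q = ringKrullDim D := by
  let _ : Algebra D Q := ψ.toAlgebra
  have : Module.Finite D Q := hf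
  have : Algebra.IsIntegral D Q := Algebra.IsIntegral.of_finite D Q
  exact le_antisymm Pool.Agent.Helper834.EC.ringKrullDim_le_of_integral
    (Pool.Agent.Helper834.EC.ringKrullDim_ge_of_integral hinj)

theorem domain_inj (n : ℕ) (hn : 1 ≤ n) :
    IsDomain (MvPolynomial (Fin (n + 7 + 1)) ℂ ⧸ IX (n + 7)) ∧ Function.Injective (psi n) := by
  refine inj_abs (psi n) (xq n) (gq n) (not_sq n hn) (exists_rep n) ?_
  intro Ω _ jD ρ hρ
  refine ⟨phiBar jD ρ hρ, ?_, ?_⟩
  · intro d
    show phi jD ρ (inc n d) = jD d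
    exact phi_inc jD ρ d
  · intro i
    exact phi_inl jD ρ i

theorem isPrime_IX (n : ℕ) (hn : 1 ≤ n) : (IX (n + 7)).IsPrime :=
  (Ideal.Quotient.isDomain_iff_prime _).mp (domain_inj n hn).1

theorem dim_IX (n : ℕ) (hn : 1 ≤ n) :
    ringKrullDim (MvPolynomial (Fin (n + 7 + 1)) ℂ ⧸ IX (n + 7)) = (n : WithBot ℕ∞) + 1 := by
  rw [dim_abs (psi n) (psi_finite n) (domain_inj n hn).2, MvPolynomial.ringKrullDim_of_isNoetherianRing,
    ringKrullDim_eq_zero_of_field]
  simp

theorem isSmoothProjectiveVariety (n : ℕ) (hn : 1 ≤ n) :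
    IsSmoothProjectiveVariety (n + 7) n (IX (n + 7)) where
  isHomogeneous := homogeneous_IX (n + 7)
  isPrime := isPrime_IX n hn
  dim := dim_IX n hn
  smooth := by
    intro x hx hx0
    rw [smooth_IX x hx hx0]
    omega

end Pool.Agent.H349R3
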